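import Mathlib

/-! Specialising a Galois action. -/

set_option linter.unusedSectionVars false

namespace Pool.Agent.H47.Patch

open Polynomial

section S4

variable {G : Type*} [Group G] {B : Type*} [CommRing B] [MulSemiringAction G B]
  {F : Type*} [Field F] (β : G →* (F ≃+* F)) {R : Type*} [CommRing R] (ι : R →+* B) (ev : R →+* F)
  (f : B) (Φ : R[X])

/-- the evaluation of a polynomial at the root -/
noncomputable def eP : R[X] →+* AdjoinRoot (Φ.map ev) :=
  eval₂RingHom ((AdjoinRoot.of (Φ.map ev)).comp ev) (AdjoinRoot.root (Φ.map ev))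

lemma eP_C (r : R) : eP ev Φ (C r) = AdjoinRoot.of _ (ev r) := by simp [eP]

lemma eP_X : eP ev Φ X = AdjoinRoot.root _ := by simp [eP]

lemma eP_self : eP ev Φ Φ = 0 := by
  have h := AdjoinRoot.eval₂_root (Φ.map ev)
  rw [eval₂_map] at h
  exact h

variable (H2 : ∀ p : R[X], eval₂ ι f p = 0 → Φ ∣ p)

include H2 in
lemma eP_eq {p q : R[X]} (h : eval₂ ι f p = eval₂ ι f q) : eP ev Φ p = eP ev Φ q := by
  rw [← sub_eq_zero, ← map_sub]
  obtain ⟨c, hc⟩ := H2 (p - q) (by rw [eval₂_sub, h, sub_self])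
  rw [hc, map_mul, eP_self, zero_mul]

variable (H1 : ∀ g r, ∃ r', g • ι r = ι r' ∧ ev r' = β g (ev r))
  (h0 : eval₂ ι f Φ = 0) (H3 : ∀ g : G, ∃ Λ : R[X], g • f = eval₂ ι f Λ)

include H1 in
lemma exists_conj (g : G) {Λ : R[X]} (hΛ : g • f = eval₂ ι f Λ) (p : R[X]) :
    ∃ q : R[X], g • eval₂ ι f p = eval₂ ι f q ∧
      eP ev Φ q = eval₂ ((AdjoinRoot.of (Φ.map ev)).comp ((β g : F →+* F).comp ev))
        (eP ev Φ Λ) p := by
  induction p using Polynomial.induction_on with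
  | C r =>
    obtain ⟨r', h1, h2⟩ := H1 g r
    refine ⟨C r', ?_, ?_⟩
    · rw [eval₂_C, eval₂_C, h1]
    · rw [eP_C, eval₂_C, h2]; rfl
  | add p p' hp hp' =>
    obtain ⟨q, h1, h2⟩ := hp
    obtain ⟨q', h1', h2'⟩ := hp'
    refine ⟨q + q', ?_, ?_⟩
    · rw [eval₂_add, eval₂_add, smul_add, h1, h1']
    · rw [map_add, eval₂_add, h2, h2']
  | monomial n r h =>
    obtain ⟨q, h1, h2⟩ := h
    refine ⟨q * Λ, ?_, ?_⟩
    · rw [pow_succ, ← mul_assoc, eval₂_mul ι f (p := C r * X ^ n), eval₂_mul ι f (p := q),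
        smul_mul', h1, eval₂_X, hΛ]
    · rw [pow_succ, ← mul_assoc, eval₂_mul _ _ (p := C r * X ^ n), map_mul, h2, eval₂_X]

/-- the ring endomorphism attached to `g` -/
noncomputable def actHom (g : G) (Λ : R[X]) (hΛ : g • f = eval₂ ι f Λ)
    (H2 : ∀ p : R[X], eval₂ ι f p = 0 → Φ ∣ p)
    (H1 : ∀ g r, ∃ r', g • ι r = ι r' ∧ ev r' = β g (ev r)) (h0 : eval₂ ι f Φ = 0) :
    AdjoinRoot (Φ.map ev) →+* AdjoinRoot (Φ.map ev) :=
  AdjoinRoot.lift ((AdjoinRoot.of (Φ.map ev)).comp (β g : F →+* F)) (eP ev Φ Λ) (by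
    rw [eval₂_map, RingHom.comp_assoc]
    obtain ⟨q, h1, h2⟩ := exists_conj β ι ev f Φ H1 g hΛ Φ
    rw [h0, smul_zero] at h1
    have h3 : eP ev Φ q = 0 := by
      rw [eP_eq ι ev f Φ H2 (p := q) (q := 0) (by rw [← h1, eval₂_zero]), map_zero]
    rw [← h2, h3])

lemma actHom_eP (g : G) (Λ : R[X]) (hΛ : g • f = eval₂ ι f Λ) (p q : R[X])
    (hpq : g • eval₂ ι f p = eval₂ ι f q) :
    actHom β ι ev f Φ g Λ hΛ H2 H1 h0 (eP ev Φ p) = eP ev Φ q := by
  obtain ⟨q', h1, h2⟩ := exists_conj β ι ev f Φ H1 g hΛ p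
  have h3 : eP ev Φ q = eP ev Φ q' := eP_eq ι ev f Φ H2 (by rw [← hpq, h1])
  rw [h3, h2]
  have h4 : (actHom β ι ev f Φ g Λ hΛ H2 H1 h0).comp (eP ev Φ)
      = eval₂RingHom ((AdjoinRoot.of (Φ.map ev)).comp ((β g : F →+* F).comp ev)) (eP ev Φ Λ) := by
    apply Polynomial.ringHom_ext
    · intro r
      simp only [RingHom.comp_apply, eP_C, actHom, AdjoinRoot.lift_of, coe_eval₂RingHom, eval₂_C]
    · simp only [RingHom.comp_apply, eP_X, actHom, AdjoinRoot.lift_root, coe_eval₂RingHom, eval₂_X]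
  have h5 := congrArg (fun ψ => ψ p) h4
  exact h5

include H1 H2 H3 h0 in
theorem ext_act : ∃ act : G →* (AdjoinRoot (Φ.map ev) ≃+* AdjoinRoot (Φ.map ev)),
    (∀ g a, act g (AdjoinRoot.of _ a) = AdjoinRoot.of _ (β g a)) ∧
    ∀ g (Λ : R[X]), g • f = eval₂ ι f Λ → act g (AdjoinRoot.root _) = eP ev Φ Λ := by
  choose Λ hΛ using H3
  let T : G → (AdjoinRoot (Φ.map ev) →+* AdjoinRoot (Φ.map ev)) := fun g =>
    actHom β ι ev f Φ g (Λ g) (hΛ g) H2 H1 h0
  have hTof : ∀ g a, T g (AdjoinRoot.of _ a) = AdjoinRoot.of _ (β g a) := by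
    intro g a
    simp only [T, actHom, AdjoinRoot.lift_of]
    rfl
  have hTroot : ∀ g, T g (AdjoinRoot.root _) = eP ev Φ (Λ g) := by
    intro g
    simp only [T, actHom, AdjoinRoot.lift_root]
  have hTmul : ∀ g h x, T (g * h) x = T g (T h x) := by
    intro g h x
    have : T (g * h) = (T g).comp (T h) := by
      apply AdjoinRoot.ringHom_ext
      · ext a
        simp only [RingHom.comp_apply, hTof, map_mul]
        rfl
      · rw [hTroot, RingHom.comp_apply, hTroot h]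
        exact (actHom_eP β ι ev f Φ H2 H1 h0 g (Λ g) (hΛ g) (Λ h) (Λ (g * h)) (by
          rw [← hΛ, ← hΛ, mul_smul])).symm
    rw [this]; rfl
  have hTone : ∀ x, T 1 x = x := by
    intro x
    have : T 1 = RingHom.id _ := by
      apply AdjoinRoot.ringHom_ext
      · ext a
        simp only [RingHom.comp_apply, hTof, map_one]
        rfl
      · rw [hTroot, RingHom.id_apply, ← eP_X]
        apply eP_eq ι ev f Φ H2
        rw [← hΛ, one_smul, eval₂_X]
    rw [this]; rfl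
  refine ⟨MonoidHom.mk' (fun g => RingEquiv.ofRingHom (T g) (T g⁻¹) ?_ ?_) ?_, ?_, ?_⟩
  · refine RingHom.ext fun x => ?_
    rw [RingHom.comp_apply, ← hTmul, mul_inv_cancel, hTone]; rfl
  · refine RingHom.ext fun x => ?_
    rw [RingHom.comp_apply, ← hTmul, inv_mul_cancel, hTone]; rfl
  · intro g h
    ext x
    exact hTmul g h x
  · intro g a
    exact hTof g a
  · intro g Λ' hΛ'
    have h1 := hTroot g
    refine h1.trans ?_
    exact eP_eq ι ev f Φ H2 (by rw [← hΛ, hΛ'])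

include H2 in
theorem ext_prod {M : Type*} [Fintype M] (Λ : M → R[X])
    (h : Φ.map ι = ∏ m, (X - C (eval₂ ι f (Λ m)))) :
    (Φ.map ev).map (AdjoinRoot.of (Φ.map ev)) = ∏ m, (X - C (eP ev Φ (Λ m))) := by
  let T : R[X][X] := ∏ m, (X - C (Λ m)) - Φ.map C
  have h1 : T.map (eval₂RingHom ι f) = 0 := by
    simp only [T, Polynomial.map_sub, Polynomial.map_prod, map_X, map_C, coe_eval₂RingHom,
      Polynomial.map_map]
    rw [← h, sub_eq_zero]
    congr 1
    ext r; simp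
  have h2 : T.map (eP ev Φ) = 0 := by
    ext j
    rw [coeff_map, coeff_zero]
    have h3 := congrArg (fun q => q.coeff j) h1
    simp only [coeff_map, coe_eval₂RingHom, coeff_zero] at h3
    rw [eP_eq ι ev f Φ H2 (p := T.coeff j) (q := 0) (by rw [h3, eval₂_zero]), map_zero]
  simp only [T, Polynomial.map_sub, Polynomial.map_prod, map_X, map_C, Polynomial.map_map] at h2
  rw [sub_eq_zero] at h2
  rw [h2, Polynomial.map_map]
  congr 1
  ext r
  simp [eP_C]

end S4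

end Pool.Agent.H47.Patch
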