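import Pool.Agent.H47.Patch.Red
import Pool.Agent.H47.Patch.ExtAct

/-! Embedding problems over a Hilbertian field from specialised Galois actions. -/

set_option linter.unusedSectionVars false

namespace Pool.Agent.H47.Patch

open Polynomial Pool.Agent.H47.Hilb

attribute [local instance] Polynomial.algebra FractionRing.liftAlgebra

section cw

variable {K L : Type} [Field K] [Field L] [Algebra K L]

/-- coefficientwise action on polynomials -/
noncomputable def cwp : (L ≃ₐ[K] L) →* (L[X] ≃+* L[X]) :=
  MonoidHom.mk' (fun h => Polynomial.mapEquiv (h : L ≃+* L)) (by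
    intro g h
    ext p
    simp)

lemma cwp_apply (h : L ≃ₐ[K] L) (p : L[X]) : cwp h p = p.map (h : L →+* L) := rfl

/-- coefficientwise action on `L(X)` -/
noncomputable def cw : (L ≃ₐ[K] L) →* (FractionRing L[X] ≃+* FractionRing L[X]) :=
  (IsFractionRing.ringEquivOfRingEquivHom L[X] (FractionRing L[X])).comp cwp

lemma cw_alg (h : L ≃ₐ[K] L) (p : L[X]) :
    cw h (algebraMap _ _ p) = algebraMap _ _ (p.map (h : L →+* L)) := by
  show IsFractionRing.ringEquivOfRingEquiv (cwp h) _ = _
  rw [IsFractionRing.ringEquivOfRingEquiv_algebraMap, cwp_apply]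

lemma cw_fix (h : L ≃ₐ[K] L) (x : FractionRing K[X]) :
    cw h (algebraMap (FractionRing K[X]) (FractionRing L[X]) x) = algebraMap _ _ x := by
  obtain ⟨p, q, _, rfl⟩ := IsFractionRing.div_surjective (A := K[X]) x
  have h1 : ∀ p : K[X], algebraMap (FractionRing K[X]) (FractionRing L[X])
      (algebraMap K[X] (FractionRing K[X]) p)
      = algebraMap L[X] (FractionRing L[X]) (p.map (algebraMap K L)) := by
    intro p
    rw [← IsScalarTower.algebraMap_apply K[X] (FractionRing K[X]) (FractionRing L[X]),
      IsScalarTower.algebraMap_apply K[X] L[X] (FractionRing L[X])]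
    rfl
  have h2 : ∀ p : K[X], cw h (algebraMap L[X] (FractionRing L[X]) (p.map (algebraMap K L)))
      = algebraMap L[X] (FractionRing L[X]) (p.map (algebraMap K L)) := by
    intro p
    rw [cw_alg, Polynomial.map_map]
    congr 2
    ext z
    exact h.commutes z
  rw [map_div₀, map_div₀, h1, h1, h2, h2]

lemma finrank_frac [FiniteDimensional K L] :
    Module.finrank (FractionRing K[X]) (FractionRing L[X]) = Module.finrank K L := by
  apply Module.finrank_eq_of_rank_eq
  rw [Algebra.IsAlgebraic.rank_fractionRing, rank_polynomial_polynomial, Module.finrank_eq_rank]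

end cw

theorem mid {K F1 : Type} [Field K] (hK : IsHilb K) [Field F1] [Algebra K F1]
    [FiniteDimensional K F1] [IsGalois K F1] {G : Type} [Group G] [Finite G]
    (α : G →* (F1 ≃ₐ[K] F1)) (hα : Function.Surjective α)
    {B : Type*} [CommRing B] [MulSemiringAction G B] {R : Type} [CommRing R]
    (ι : R →+* B) (ev : R →+* FractionRing F1[X]) (f : B) (Φ : R[X])
    (hirr : Irreducible (Φ.map ev)) (hsep : (Φ.map ev).Separable)
    (hdeg : (Φ.map ev).natDegree = Nat.card α.ker)
    (H1 : ∀ g r, ∃ r', g • ι r = ι r' ∧ ev r' = cw (α g) (ev r))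
    (h0 : eval₂ ι f Φ = 0) (H2 : ∀ p : R[X], eval₂ ι f p = 0 → Φ ∣ p)
    (H3 : ∀ g : G, ∃ Λ : R[X], g • f = eval₂ ι f Λ)
    [Fintype α.ker] (H5 : Φ.map ι = ∏ n : α.ker, (X - C ((n : G) • f))) :
    ∃ (F : Type) (_ : Field F) (_ : Algebra K F) (_ : Algebra F1 F)
      (_ : IsScalarTower K F1 F),
      FiniteDimensional K F ∧ IsGalois K F ∧
      ∃ γ : (F ≃ₐ[K] F) ≃* G, ∀ σ : F ≃ₐ[K] F, α (γ σ) = σ.restrictNormal F1 := by
  classical
  have hfact : Fact (Irreducible (Φ.map ev)) := ⟨hirr⟩
  let β : G →* (FractionRing F1[X] ≃+* FractionRing F1[X]) := cw.comp α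
  obtain ⟨act, hact1, hact2⟩ := ext_act β ι ev f Φ H2 (fun g r => H1 g r) h0 H3
  let E := AdjoinRoot (Φ.map ev)
  have hcomm : ∀ g (x : FractionRing K[X]), act g (algebraMap (FractionRing K[X]) E x)
      = algebraMap (FractionRing K[X]) E x := by
    intro g x
    have h1 : algebraMap (FractionRing K[X]) E x
        = AdjoinRoot.of (Φ.map ev) (algebraMap (FractionRing K[X]) (FractionRing F1[X]) x) := rfl
    rw [h1, hact1]
    congr 1
    exact cw_fix (α g) x
  let act' : G →* (E ≃ₐ[FractionRing K[X]] E) := MonoidHom.mk' (fun g =>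
    AlgEquiv.ofRingEquiv (f := act g) (hcomm g)) (by
      intro g h
      ext x
      show act (g * h) x = act g (act h x)
      rw [map_mul]; rfl)
  have hact' : ∀ g x, act' g x = act g x := fun g x => rfl
  let jc : F1 →+* FractionRing F1[X] := (algebraMap F1[X] (FractionRing F1[X])).comp C
  let j : F1 →+* E := (AdjoinRoot.of (Φ.map ev)).comp jc
  have hjact : ∀ g z, act' g (j z) = j (α g z) := by
    intro g z
    show act g (AdjoinRoot.of (Φ.map ev) (algebraMap F1[X] (FractionRing F1[X]) (C z))) = _
    rw [hact1]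
    show AdjoinRoot.of (Φ.map ev) (cw (α g) (algebraMap F1[X] (FractionRing F1[X]) (C z))) = _
    rw [cw_alg, map_C]
    rfl
  have hfin1 : Module.finrank (FractionRing F1[X]) E = Nat.card α.ker := by
    rw [← hdeg]
    exact finrank_quotient_span_eq_natDegree
  have hcardG : Nat.card G = Nat.card α.ker * Module.finrank K F1 := by
    have h1 := Subgroup.card_eq_card_quotient_mul_card_subgroup α.ker
    have h2 : Nat.card (G ⧸ α.ker) = Module.finrank K F1 := by
      rw [Nat.card_congr (QuotientGroup.quotientKerEquivOfSurjective α hα).toEquiv,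
        IsGalois.card_aut_eq_finrank]
    rw [h1, h2, mul_comm]
  have hfin : Module.finrank (FractionRing K[X]) E = Nat.card G := by
    rw [hcardG, ← hfin1, ← finrank_frac (K := K) (L := F1), mul_comm]
    exact (Module.finrank_mul_finrank (FractionRing K[X]) (FractionRing F1[X]) E).symm
  choose Λ hΛ using H3
  have hprod := ext_prod ι ev f Φ H2 (fun n : α.ker => Λ n) (by
    rw [H5]
    apply Finset.prod_congr rfl
    intro n _
    rw [hΛ])
  have hinjroot : Function.Injective (fun n : α.ker => eP ev Φ (Λ n)) := by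
    rw [← separable_prod_X_sub_C_iff, ← hprod]
    exact hsep.map
  refine hilb_red hK α (E := E) act' ?_ hfin j ?_ hjact
  · rw [injective_iff_map_eq_one]
    intro g hg
    have hker : g ∈ α.ker := by
      rw [MonoidHom.mem_ker]
      apply AlgEquiv.ext
      intro z
      have h1 := hjact g z
      rw [hg] at h1
      exact (j.injective h1).symm
    have h2 := hact2 g (Λ g) (hΛ g)
    have h3 := hact2 1 (Λ 1) (hΛ 1)
    have h4 : act g (AdjoinRoot.root (Φ.map ev)) = act 1 (AdjoinRoot.root (Φ.map ev)) := by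
      rw [← hact', ← hact', hg, map_one]
    rw [h2, h3] at h4
    have h5 : (⟨g, hker⟩ : α.ker) = 1 := hinjroot h4
    exact congrArg Subtype.val h5
  · intro z
    show AdjoinRoot.of (Φ.map ev) (algebraMap F1[X] (FractionRing F1[X]) (C (algebraMap K F1 z)))
      = AdjoinRoot.of (Φ.map ev) (algebraMap K[X] (FractionRing F1[X]) (C z))
    congr 1
    rw [IsScalarTower.algebraMap_apply K[X] F1[X] (FractionRing F1[X])]
    congr 1
    show C (algebraMap K F1 z) = (C z).map (algebraMap K F1)
    rw [map_C]

end Pool.Agent.H47.Patch
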