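import Pool.Agent.H47.Patch.PData
import Pool.Agent.H47.Patch.Base

/-! From equivariant patching data to proper solutions, abstract version. -/

set_option linter.unusedSectionVars false

namespace Pool.Agent.H47.Patch

open Polynomial Pool.Agent.H47.Hilb

lemma locR_unit {A0 : Type*} [CommRing A0] {Fi : Type*} [Field Fi] (ev0 : A0 →+* Fi)
    [hp : (RingHom.ker ev0).IsPrime]
    (ev : Localization.AtPrime (RingHom.ker ev0) →+* Fi)
    (hev : ∀ x, ev (algebraMap A0 _ x) = ev0 x) (r : Localization.AtPrime (RingHom.ker ev0))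
    (hr : ev r ≠ 0) : IsUnit r := by
  obtain ⟨⟨x, y⟩, h⟩ := IsLocalization.surj (RingHom.ker ev0).primeCompl r
  simp only at h
  have h1 : ev0 x ≠ 0 := by
    rw [← hev, ← h, map_mul, hev]
    refine mul_ne_zero hr ?_
    intro h0
    exact y.2 ((RingHom.mem_ker).2 h0)
  have h2 : IsUnit (algebraMap A0 (Localization.AtPrime (RingHom.ker ev0)) x) :=
    IsLocalization.map_units _ (⟨x, fun h0 => h1 ((RingHom.mem_ker).1 h0)⟩ :
      (RingHom.ker ev0).primeCompl)
  rw [← h] at h2
  exact isUnit_of_mul_isUnit_left h2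

theorem core_abs {K F1 : Type} [Field K] (hK : IsHilb K) [Field F1] [Algebra K F1]
    [FiniteDimensional K F1] [IsGalois K F1] {G : Type} [Group G] [Finite G]
    (α : G →* (F1 ≃ₐ[K] F1)) (s : (F1 ≃ₐ[K] F1) →* G) (hs : ∀ h, α (s h) = h)
    {A : Type} [CommRing A] {FF : Type*} [Field FF]
    (SF : (F1 ≃ₐ[K] F1) →* (FF ≃+* FF)) (j0 : A[X] →+* FF) (hj0 : Function.Injective j0)
    [Fintype α.ker] (fF : α.ker → FF) (hfF : Function.Injective fF)
    (ev0 : A[X] →+* FractionRing F1[X]) (num den : (F1 ≃ₐ[K] F1) → A[X])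
    (hden : ∀ h, ev0 (den h) ≠ 0)
    (lam : (F1 ≃ₐ[K] F1) → (A →+* A))
    (hSFX : ∀ h, SF h (j0 X) * j0 (den h) = j0 (num h))
    (hSFC : ∀ h x, SF h (j0 (C x)) = j0 (C (lam h x)))
    (hcwX : ∀ h : F1 ≃ₐ[K] F1, cw h (ev0 X) * ev0 (den h) = ev0 (num h))
    (hcwC : ∀ (h : F1 ≃ₐ[K] F1) x, cw h (ev0 (C x)) = ev0 (C (lam h x)))
    (Φ : A[X][X]) (hΦm : Φ.Monic) (hΦd : Φ.natDegree = Fintype.card α.ker)
    (hΦ : Φ.map j0 = ∏ m, (X - C (fF m)))
    (hirr : Irreducible (Φ.map ev0)) (hsep : (Φ.map ev0).Separable)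
    (hact : ∀ g : G, ∃ (Δ : A[X]) (Λ : A[X][X]), ev0 Δ ≠ 0 ∧
      ∀ m, j0 Δ * SF (α g) (fF (eN α s hs g m)) = (Λ.map j0).eval (fF m)) :
    ∃ (F : Type) (_ : Field F) (_ : Algebra K F) (_ : Algebra F1 F)
      (_ : IsScalarTower K F1 F),
      FiniteDimensional K F ∧ IsGalois K F ∧
      ∃ γ : (F ≃ₐ[K] F) ≃* G, ∀ σ : F ≃ₐ[K] F, α (γ σ) = σ.restrictNormal F1 := by
  classical
  have hp : (RingHom.ker ev0).IsPrime := RingHom.ker_isPrime ev0
  let R := Localization.AtPrime (RingHom.ker ev0)
  have hne : ∀ y : (RingHom.ker ev0).primeCompl, ev0 y ≠ 0 :=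
    fun y h0 => y.2 ((RingHom.mem_ker).2 h0)
  have hne' : ∀ y : (RingHom.ker ev0).primeCompl, (y : A[X]) ≠ 0 := by
    intro y h0
    apply hne y
    rw [h0, map_zero]
  let ι0 : R →+* FF := IsLocalization.lift (M := (RingHom.ker ev0).primeCompl) (g := j0)
    (fun y => IsUnit.mk0 _ (by rw [Ne, map_eq_zero_iff _ hj0]; exact hne' y))
  let ev : R →+* FractionRing F1[X] := IsLocalization.lift (M := (RingHom.ker ev0).primeCompl)
    (g := ev0) (fun y => IsUnit.mk0 _ (hne y))
  have hι0 : ∀ x, ι0 (algebraMap A[X] R x) = j0 x := fun x => IsLocalization.lift_eq _ x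
  have hev : ∀ x, ev (algebraMap A[X] R x) = ev0 x := fun x => IsLocalization.lift_eq _ x
  have hunit : ∀ r : R, ev r ≠ 0 → IsUnit r := locR_unit ev0 ev hev
  have hι0i : Function.Injective ι0 := by
    rw [injective_iff_map_eq_zero]
    intro r hr
    obtain ⟨⟨x, y⟩, h⟩ := IsLocalization.surj (RingHom.ker ev0).primeCompl r
    simp only at h
    have h1 : j0 x = 0 := by rw [← hι0, ← h, map_mul, hr, zero_mul]
    rw [map_eq_zero_iff _ hj0] at h1
    rw [h1, map_zero] at h
    exact (IsLocalization.map_units R y).mul_left_eq_zero.1 h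
  -- the elements ρ
  have hρ : ∀ h, ∃ ρ : R, ρ * algebraMap A[X] R (den h) = algebraMap A[X] R (num h) := by
    intro h
    obtain ⟨u, hu⟩ := hunit (algebraMap A[X] R (den h)) (by rw [hev]; exact hden h)
    refine ⟨algebraMap A[X] R (num h) * (u⁻¹ : Rˣ), ?_⟩
    rw [← hu, mul_assoc, Units.inv_mul, mul_one]
  choose ρ hρ using hρ
  let χ : (F1 ≃ₐ[K] F1) → (A[X] →+* R) := fun h =>
    eval₂RingHom ((algebraMap A[X] R).comp (C.comp (lam h))) (ρ h)
  have hE1 : ∀ h, ι0.comp (χ h) = (SF h : FF →+* FF).comp j0 := by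
    intro h
    apply Polynomial.ringHom_ext
    · intro x
      simp only [χ, RingHom.comp_apply, coe_eval₂RingHom, eval₂_C, hι0]
      exact (hSFC h x).symm
    · simp only [χ, RingHom.comp_apply, coe_eval₂RingHom, eval₂_X]
      have hd0 : j0 (den h) ≠ 0 := by
        rw [Ne, map_eq_zero_iff _ hj0]
        intro h0
        apply hden h
        rw [h0, map_zero]
      apply mul_right_cancel₀ hd0
      refine Eq.trans ?_ (hSFX h).symm
      rw [← hι0, ← hι0, ← map_mul, hρ]
  have hE2 : ∀ h, ev.comp (χ h) = (cw h : FractionRing F1[X] →+* FractionRing F1[X]).comp ev0 := by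
    intro h
    apply Polynomial.ringHom_ext
    · intro x
      simp only [χ, RingHom.comp_apply, coe_eval₂RingHom, eval₂_C, hev]
      exact (hcwC h x).symm
    · simp only [χ, RingHom.comp_apply, coe_eval₂RingHom, eval₂_X]
      apply mul_right_cancel₀ (hden h)
      refine Eq.trans ?_ (hcwX h).symm
      rw [← hev, ← hev, ← map_mul, hρ]
  have hE3 : ∀ h, ∀ y : (RingHom.ker ev0).primeCompl, IsUnit (χ h y) := by
    intro h y
    apply hunit
    have := congrArg (fun ψ => ψ (y : A[X])) (hE2 h)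
    simp only [RingHom.comp_apply] at this
    rw [this]
    exact (_root_.map_ne_zero _).2 (hne y)
  let χ' : (F1 ≃ₐ[K] F1) → (R →+* R) := fun h =>
    IsLocalization.lift (M := (RingHom.ker ev0).primeCompl) (g := χ h) (hE3 h)
  have hχ' : ∀ h x, χ' h (algebraMap A[X] R x) = χ h x := fun h x => IsLocalization.lift_eq _ x
  have hF1 : ∀ h, ι0.comp (χ' h) = (SF h : FF →+* FF).comp ι0 := by
    intro h
    apply IsLocalization.ringHom_ext (RingHom.ker ev0).primeCompl
    apply RingHom.ext
    intro x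
    simp only [RingHom.comp_apply, hχ', hι0]
    exact congrArg (fun ψ => ψ x) (hE1 h)
  have hF2 : ∀ h, ev.comp (χ' h) = (cw h : FractionRing F1[X] →+* FractionRing F1[X]).comp ev := by
    intro h
    apply IsLocalization.ringHom_ext (RingHom.ker ev0).primeCompl
    apply RingHom.ext
    intro x
    simp only [RingHom.comp_apply, hχ', hev]
    exact congrArg (fun ψ => ψ x) (hE2 h)
  -- the action
  let act : MulSemiringAction G (α.ker → FF) :=
    { smul := fun g u m => SF (α g) (u (eN α s hs g m))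
      one_smul := by
        intro u
        funext m
        show SF (α 1) (u (eN α s hs 1 m)) = u m
        rw [eN_one, map_one, map_one]; rfl
      mul_smul := by
        intro g g' u
        funext m
        show SF (α (g * g')) (u (eN α s hs (g * g') m))
          = SF (α g) (SF (α g') (u (eN α s hs g' (eN α s hs g m))))
        rw [eN_mul, map_mul, map_mul]; rfl
      smul_zero := by intro g; funext m; exact map_zero _
      smul_add := by intro g u v; funext m; exact map_add _ _ _
      smul_one := by intro g; funext m; exact map_one _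
      smul_mul := by intro g u v; funext m; exact map_mul _ _ _ }
  let ι : R →+* (α.ker → FF) := RingHom.pi (fun _ => ι0)
  have hsm : ∀ (g : G) (u : α.ker → FF) m, (g • u) m = SF (α g) (u (eN α s hs g m)) :=
    fun g u m => rfl
  have hev2 : ∀ (u : α.ker → FF) (p : R[X]) m, (eval₂ ι u p) m = eval₂ ι0 (u m) p := by
    intro u p m
    have := Polynomial.hom_eval₂ p ι (Pi.evalRingHom (fun _ : α.ker => FF) m) u
    exact this
  let ΦR : R[X] := Φ.map (algebraMap A[X] R)
  have hι0c : ι0.comp (algebraMap A[X] R) = j0 := RingHom.ext hι0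
  have hevc : ev.comp (algebraMap A[X] R) = ev0 := RingHom.ext hev
  have hΦι : ΦR.map ι0 = ∏ m, (X - C (fF m)) := by
    rw [Polynomial.map_map, hι0c, hΦ]
  have hΦev : ΦR.map ev = Φ.map ev0 := by
    rw [Polynomial.map_map, hevc]
  have hα : Function.Surjective α := fun h => ⟨s h, hs h⟩
  refine mid hK α hα ι ev fF ΦR ?_ ?_ ?_ ?_ ?_ ?_ ?_ ?_
  · rw [hΦev]; exact hirr
  · rw [hΦev]; exact hsep
  · rw [hΦev, hΦm.natDegree_map, hΦd, Nat.card_eq_fintype_card]
  · intro g r
    refine ⟨χ' (α g) r, ?_, ?_⟩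
    · funext m
      rw [hsm]
      exact (congrArg (fun ψ => ψ r) (hF1 (α g))).symm
    · exact congrArg (fun ψ => ψ r) (hF2 (α g))
  · funext m
    rw [hev2, ← eval_map, hΦι, eval_prod, Finset.prod_eq_zero (Finset.mem_univ m) (by simp)]
    rfl
  · intro p hp0
    have hmR : ΦR.Monic := hΦm.map _
    rw [← modByMonic_eq_zero_iff_dvd hmR]
    by_contra hne0
    have hm1 : ∀ m, ((p %ₘ ΦR).map ι0).eval (fF m) = 0 := by
      intro m
      have h1 := congrArg (fun u => u m) hp0
      simp only [hev2, Pi.zero_apply] at h1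
      rw [eval_map]
      have h2 := modByMonic_add_div p ΦR
      have h3 : eval₂ ι0 (fF m) ΦR = 0 := by
        rw [← eval_map, hΦι, eval_prod, Finset.prod_eq_zero (Finset.mem_univ m) (by simp)]
      rw [← h2, eval₂_add, eval₂_mul, h3, zero_mul, add_zero] at h1
      exact h1
    have hne1 : (p %ₘ ΦR).map ι0 ≠ 0 := by
      rw [Ne, Polynomial.map_eq_zero_iff hι0i]; exact hne0
    have hnt : Nontrivial R := inferInstance
    have h4 : (p %ₘ ΦR).natDegree < ΦR.natDegree := by
      apply natDegree_lt_natDegree hne0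
      exact degree_modByMonic_lt _ hmR
    have h5 : ΦR.natDegree = Fintype.card α.ker := by rw [hΦm.natDegree_map, hΦd]
    have h6 : Fintype.card α.ker ≤ ((p %ₘ ΦR).map ι0).natDegree := by
      have h7 : (Finset.univ.image fF).card = Fintype.card α.ker :=
        Finset.card_image_of_injective _ hfF
      rw [← h7]
      refine card_le_degree_of_subset_roots ?_
      intro z hz
      rw [Finset.mem_val, Finset.mem_image] at hz
      obtain ⟨m, _, rfl⟩ := hz
      rw [mem_roots hne1, IsRoot.def]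
      exact hm1 m
    have h8 := natDegree_map_le (f := ι0) (p := p %ₘ ΦR)
    omega
  · intro g
    obtain ⟨Δ, Λ, hΔ, hΛ⟩ := hact g
    obtain ⟨u, hu⟩ := hunit (algebraMap A[X] R Δ) (by rw [hev]; exact hΔ)
    refine ⟨C ((u⁻¹ : Rˣ) : R) * Λ.map (algebraMap A[X] R), ?_⟩
    funext m
    rw [hsm, hev2, eval₂_mul, eval₂_C, eval₂_map, hι0c, ← eval_map, ← hΛ m, ← hι0 Δ, ← hu,
      ← mul_assoc, ← map_mul, Units.inv_mul, map_one, one_mul]
  · apply Polynomial.ext
    intro j
    funext m
    have h1 : (ΦR.map ι).map (Pi.evalRingHom (fun _ : α.ker => FF) m) = ΦR.map ι0 := by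
      rw [Polynomial.map_map]; rfl
    have h2 : (∏ n : α.ker, (X - C ((n : G) • fF))).map (Pi.evalRingHom (fun _ : α.ker => FF) m)
        = ∏ m, (X - C (fF m)) := by
      rw [Polynomial.map_prod]
      refine Fintype.prod_equiv ((Equiv.inv α.ker).trans (Equiv.mulRight m)) _ _ (fun n => ?_)
      rw [Polynomial.map_sub, map_X, map_C]
      congr 2
      show ((n : G) • fF) m = fF (n⁻¹ * m)
      rw [hsm]
      have h3 : α (n : G) = 1 := n.2
      rw [h3, map_one]
      show fF (eN α s hs n m) = _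
      congr 1
      apply Subtype.ext
      show (n : G)⁻¹ * (m : G) * s (α n) = (n : G)⁻¹ * (m : G)
      rw [h3, map_one, mul_one]
    have h3 : (ΦR.map ι).map (Pi.evalRingHom (fun _ : α.ker => FF) m)
        = (∏ n : α.ker, (X - C ((n : G) • fF))).map (Pi.evalRingHom (fun _ : α.ker => FF) m) := by
      rw [h1, h2, hΦι]
    have h4 := congrArg (fun q => q.coeff j) h3
    simp only [coeff_map] at h4
    rw [coeff_map]
    exact h4

end Pool.Agent.H47.Patch
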