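import Pool.Agent.H47.Patch.Act

/-! The patching theorem. -/

set_option linter.unusedSectionVars false

namespace Pool.Agent.H47.Patch

open Polynomial

variable {k : Type*} [Field k] [CharZero k] {I : Type*} [Fintype I] [Nonempty I]
  {c : I → k} {w : I → RatFunc k} {r : I → k[X]}
  (hc : Function.Injective c) (hd : ∀ i, (r i).natDegree ≤ 1)
  (hr : ∀ i, (r i).eval (c i) ≠ 0)
  (hw : ∀ i, w i * algebraMap k[X] (RatFunc k) (X - C (c i)) = algebraMap k[X] (RatFunc k) (r i))
variable {N : Type*} [Group N] [Fintype N] (g : I → N) (ζ : I → k)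
  (hζ : ∀ i, IsPrimitiveRoot (ζ i) (orderOf (g i)))

/-- the local generators -/
noncomputable abbrev yy {k : Type*} [Field k] [CharZero k] {I : Type*}
    (w : I → RatFunc k) {N : Type*} [Group N] (g : I → N) (i : I) : PowerSeries (RatFunc k) :=
  rt (orderOf (g i)) (w i)

include hc hw in
lemma Ai_le_Oc (i : I) : Ai k w i ≤ Oc (c i) := by
  intro u hu
  rw [mem_Ai] at hu
  induction hu using Algebra.adjoin_induction with
  | mem x hx =>
    obtain ⟨j, hj, rfl⟩ := hx
    refine ⟨r j, X - C (c j), ?_, hw j⟩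
    rw [eval_sub, eval_X, eval_C]
    exact sub_ne_zero.2 (fun h => hj (hc h).symm)
  | algebraMap a => exact algebraMap_mem_Oc _ _
  | add x y _ _ hx hy => exact add_mem hx hy
  | mul x y _ _ hx hy => exact mul_mem hx hy

lemma algebraMap_eq_C' (a : k) : algebraMap k (PowerSeries (RatFunc k)) a
    = PowerSeries.C (algebraMap k (RatFunc k) a) := PowerSeries.algebraMap_apply

include hc hd hζ in
theorem exists_patched0 : ∃ f : N → PowerSeries (RatFunc k),
    f ∈ TR (AA1 w) (BB hr hw) g ζ (yy w g) ∧ Function.Injective f := by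
  have hinf : Infinite k := inferInstance
  let f0 : N ↪ k := ((Fintype.equivFin N).toEmbedding.trans Fin.valEmbedding).trans
    (Infinite.natEmbedding k)
  obtain ⟨f, hfA, hf0, hf⟩ := exists_f (k := k) (R := RatFunc k) (w := w)
    (fun i j hij => w_mul_w hc hd hr hw i j hij) g (fun i => orderOf (g i))
    (fun i => orderOf_pos (g i)) (fun i => pow_orderOf_eq_one (g i)) ζ hζ f0
  refine ⟨f, ⟨fun m => PS_le_AA1 w (hfA m), fun i m => ?_⟩, ?_⟩
  · obtain ⟨a, ha, hl⟩ := hf i m
    have ha' : ∀ j : ℕ, ∃ b : BB hr hw i, j < orderOf (g i) → (b : PowerSeries (RatFunc k)) = a j := by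
      intro j
      by_cases hj : j < orderOf (g i)
      · exact ⟨⟨a j, PS_le_Bd _ (PS_mono (Ai_le_Oc hc hw i) (ha j hj))⟩, fun _ => rfl⟩
      · exact ⟨0, fun h => absurd h hj⟩
    choose b hb using ha'
    refine ⟨∑ j ∈ Finset.range (orderOf (g i)), C (b j) * X ^ j, fun l => ?_⟩
    rw [hl l, eval₂_finsetSum]
    apply Finset.sum_congr rfl
    intro j hj
    rw [eval₂_mul, eval₂_C, eval₂_pow, eval₂_X, mul_comm]
    rw [algebraMap_eq_C']
    congr 1
    exact (hb j (Finset.mem_range.1 hj)).symm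
  · intro m m' h
    have h1 := congrArg PowerSeries.constantCoeff h
    rw [hf0, hf0] at h1
    exact f0.injective ((algebraMap k (RatFunc k)).injective h1)

lemma C_mem_TR {p : k[X]} (hp : PowerSeries.C (algebraMap k[X] (RatFunc k) p) ∈ AA1 w) :
    (fun _ => PowerSeries.C (algebraMap k[X] (RatFunc k) p)) ∈
      TR (AA1 w) (BB hr hw) g ζ (yy w g) := by
  refine ⟨fun _ => hp, fun i m => ?_⟩
  exact ⟨C ⟨_, C_mem_BB hr hw i _⟩, fun l => by rw [eval₂_C]; rfl⟩

lemma yy_pow_mem (i : I) : yy w g i ^ orderOf (g i) ∈ BB hr hw i := by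
  rw [yy, rt_pow (orderOf_pos _)]
  exact add_mem (one_mem _) (mul_mem (Place.w_mem _) (PS_le_Bd _ X_mem_PS))

lemma algebraMap_mem_BB (i : I) (a : k) : algebraMap k (PowerSeries (RatFunc k)) a ∈ BB hr hw i := by
  rw [algebraMap_eq_C']; exact Place.C_mem _ a

lemma Phi_smul (f : N → PowerSeries (RatFunc k)) (d : PowerSeries (RatFunc k)) :
    Phi (fun m => d * f m) = (Phi f).scaleRoots d := by
  classical
  rw [Phi, Phi]
  have key : ∀ s : Finset N, ∏ m ∈ s, (X - C (d * f m)) = (∏ m ∈ s, (X - C (f m))).scaleRoots d := by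
    intro s
    induction s using Finset.induction_on with
    | empty => simp
    | insert a s ha ih =>
      rw [Finset.prod_insert ha, Finset.prod_insert ha, mul_scaleRoots_of_noZeroDivisors, ih,
        X_sub_C_scaleRoots, mul_comm d]
  exact key _

include hc hd hζ in
theorem exists_patched : ∃ f : N → PowerSeries (RatFunc k),
    f ∈ TR (AA1 w) (BB hr hw) g ζ (yy w g) ∧ Function.Injective f ∧
    ∃ Φ : Polynomial (Polynomial (PowerSeries k)), Φ.Monic ∧ Φ.map (iot k) = Phi f ∧
      Φ.natDegree = Fintype.card N := by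
  classical
  obtain ⟨f, hf, hinj⟩ := exists_patched0 hc hd hr hw g ζ hζ
  have hcoef := fun j => Phi_coeff_mem (fun i => orderOf_pos (g i)) hζ
    (fun i a => algebraMap_mem_BB hr hw i a) (yy_pow_mem hr hw g) hf j
  obtain ⟨p, hp0, hp⟩ := const_poly_finset hc hd hr hw (Finset.range (Fintype.card N + 1))
    (fun j => (Phi f).coeff j) (fun j => (hcoef j).1) (fun j => (hcoef j).2)
  have hpR : PowerSeries.C (algebraMap k[X] (RatFunc k) p) ≠ 0 := by
    rw [Ne, map_eq_zero_iff _ PowerSeries.C_injective, map_eq_zero_iff _ algebraMap_injective']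
    exact hp0
  set d := PowerSeries.C (algebraMap k[X] (RatFunc k) p) with hdd
  have hmonic : (Phi f).Monic := monic_prod_of_monic _ _ fun m _ => monic_X_sub_C _
  have hdeg : (Phi f).natDegree = Fintype.card N := by
    rw [Phi, natDegree_prod_of_monic _ _ fun m _ => monic_X_sub_C _]
    simp
  refine ⟨fun m => d * f m, ?_, ?_, ?_⟩
  · exact mul_mem (C_mem_TR hr hw g ζ (poly_mem_AA1 hd hr hw p)) hf
  · intro m m' h
    exact hinj (mul_left_cancel₀ hpR h)
  · have hmonic' : (Phi (fun m => d * f m)).Monic :=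
      monic_prod_of_monic _ _ fun m _ => monic_X_sub_C _
    have hdeg' : (Phi (fun m => d * f m)).natDegree = Fintype.card N := by
      rw [Phi, natDegree_prod_of_monic _ _ fun m _ => monic_X_sub_C _]
      simp only [natDegree_X_sub_C, Finset.sum_const, Finset.card_univ, smul_eq_mul, mul_one]
    have hl : Phi (fun m => d * f m) ∈ Polynomial.lifts (iot k) := by
      rw [lifts_iff_coeff_lifts]
      intro j
      rw [Phi_smul, coeff_scaleRoots, hdeg]
      rcases lt_trichotomy j (Fintype.card N) with h | h | h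
      · obtain ⟨P, hP⟩ := hp j (Finset.mem_range.2 (by omega))
        refine ⟨(p.map PowerSeries.C) ^ (Fintype.card N - j - 1) * P, ?_⟩
        rw [map_mul, map_pow, iot_poly, hP, ← hdd]
        have : Fintype.card N - j = (Fintype.card N - j - 1) + 1 := by omega
        conv_rhs => rw [this]
        rw [pow_succ]; ring
      · subst h
        refine ⟨1, ?_⟩
        rw [Nat.sub_self, pow_zero, mul_one, map_one]
        have := hmonic.coeff_natDegree
        rw [hdeg] at this
        exact this.symm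
      · refine ⟨0, ?_⟩
        rw [coeff_eq_zero_of_natDegree_lt (by omega), zero_mul, map_zero]
    obtain ⟨Φ, hΦ, hΦd, hΦm⟩ := lifts_and_natDegree_eq_and_monic hl hmonic'
    exact ⟨Φ, hΦm, hΦ, by rw [hΦd, hdeg']⟩

include hζ in
theorem irr0 (hg : Subgroup.closure (Set.range g) = ⊤)
    {f : N → PowerSeries (RatFunc k)} (hf : f ∈ TR (AA1 w) (BB hr hw) g ζ (yy w g))
    (hinj : Function.Injective f) (S : Finset N) (b : Polynomial (PowerSeries k)) (hb : b ≠ 0)
    (h : ∀ j, ∃ P, iot k P = iot k b * (∏ m ∈ S, (X - C (f m))).coeff j) :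
    S = ∅ ∨ S = Finset.univ := by
  classical
  have hst : ∀ i, ∀ m ∈ S, ∀ l : ℕ, m * g i ^ l ∈ S := by
    intro i m hm l
    refine stable (hf.2 i) hinj ?_ S (iot k b) ?_ ?_ hm l
    · intro Q hQ l
      have h1 := Place.conj (placeAt (c i) (w i) (r i) (hr i) (hw i)) (orderOf_pos (g i)) (hζ i)
        (rt_pow (orderOf_pos (g i)) (w i)) Q hQ l
      rw [algebraMap_eq_C']
      exact h1
    · rw [Ne, map_eq_zero_iff _ iot_injective]; exact hb
    · intro j
      obtain ⟨P, hP⟩ := h j
      rw [coeff_C_mul, ← hP]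
      exact iot_mem_BB hr hw i P
  have hst2 : ∀ n : N, ∀ m ∈ S, m * n ∈ S := by
    intro n
    have hn : n ∈ Subgroup.closure (Set.range g) := by rw [hg]; trivial
    induction hn using Subgroup.closure_induction with
    | mem x hx =>
      obtain ⟨i, rfl⟩ := hx
      intro m hm
      have := hst i m hm 1
      rwa [pow_one] at this
    | one => intro m hm; rwa [mul_one]
    | mul x y _ _ hx hy => intro m hm; rw [← mul_assoc]; exact hy _ (hx _ hm)
    | inv x _ hx =>
      intro m hm
      have hpow : ∀ j : ℕ, m * x ^ j ∈ S := by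
        intro j
        induction j with
        | zero => rwa [pow_zero, mul_one]
        | succ j ih => rw [pow_succ, ← mul_assoc]; exact hx _ ih
      have h1 : x⁻¹ = x ^ (orderOf x - 1) := by
        rw [inv_eq_iff_mul_eq_one, ← pow_succ', Nat.sub_add_cancel (orderOf_pos x),
          pow_orderOf_eq_one]
      rw [h1]
      exact hpow _
  rcases S.eq_empty_or_nonempty with h | ⟨m, hm⟩
  · exact Or.inl h
  · right
    rw [Finset.eq_univ_iff_forall]
    intro n
    have := hst2 (m⁻¹ * n) m hm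
    rwa [mul_inv_cancel_left] at this

include hc hd hζ in
theorem act_formula {f : N → PowerSeries (RatFunc k)}
    (hf : f ∈ TR (AA1 w) (BB hr hw) g ζ (yy w g)) (hinj : Function.Injective f)
    (σ : RatFunc k →+* RatFunc k) (κ : k →+* k) (ρ : ℕ) (e : N → N) (τ : I → I)
    (hτ : Function.Surjective τ)
    (hσk : ∀ a : k, σ (algebraMap k _ a) = algebraMap k _ (κ a))
    (hσ : ∀ i, σ (w (τ i)) = w i) (ho : ∀ i, orderOf (g (τ i)) = orderOf (g i))
    (hζτ : ∀ i, κ (ζ (τ i)) ^ ρ = ζ i)
    (he : ∀ i m (l : ℕ), e (m * g i ^ l) = e m * g (τ i) ^ (ρ * l)) :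
    ∃ Δ : Polynomial (PowerSeries k), Δ ≠ 0 ∧ ∃ Λ : Polynomial (Polynomial (PowerSeries k)),
      ∀ m, iot k Δ * PowerSeries.map σ (f (e m)) = (Λ.map (iot k)).eval (f m) := by
  classical
  have hAI : ∀ u ∈ AI k w, σ u ∈ AI k w := by
    intro u hu
    rw [mem_AI] at hu
    induction hu using Algebra.adjoin_induction with
    | mem x hx =>
      obtain ⟨j, rfl⟩ := hx
      obtain ⟨i, rfl⟩ := hτ j
      rw [hσ]
      exact Wi_le_AI k w i (w_mem_Wi k w i)
    | algebraMap a => rw [hσk]; exact algebraMap_mem_AI k w (κ a)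
    | add x y _ _ hx hy => rw [map_add]; exact add_mem hx hy
    | mul x y _ _ hx hy => rw [map_mul]; exact mul_mem hx hy
  have hu : (fun m => PowerSeries.map σ (f (e m))) ∈ TR (AA1 w) (BB hr hw) g ζ (yy w g) := by
    refine TR_act (PowerSeries.map σ) κ ρ e τ ?_ ?_ ?_ hζτ ?_ he hf
    · rintro u ⟨d, hd1, hd0, hdu⟩
      refine ⟨σ d, hAI d hd1, by rwa [Ne, map_eq_zero], ?_⟩
      have := PS_map σ hAI hdu
      rwa [map_mul, PowerSeries.map_C] at this
    · intro i u hu
      refine Bd_map σ (Oc_map (hd (τ i)) (hr i) (hr (τ i)) (hw i) (hw (τ i)) σ κ hσk (hσ i)) ?_ hu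
      rw [map_inv₀, hσ]
    · intro i
      show PowerSeries.map σ (bin _ _) = bin _ _
      rw [bin_map, hσ, ho]
    · intro a
      rw [algebraMap_eq_C', PowerSeries.map_C, hσk, algebraMap_eq_C']
  obtain ⟨Λ0, hΛ0, hev⟩ := lagrange (fun i => orderOf_pos (g i)) hζ
    (fun i a => algebraMap_mem_BB hr hw i a) (yy_pow_mem hr hw g) hf hu
  -- the constant ∏ Dif
  have hDif : (fun _ : N => ∏ m', Dif f m') ∈ TR (AA1 w) (BB hr hw) g ζ (yy w g) := by
    have h1 : (fun _ : N => ∏ m', Dif f m') = Dif f * Oth (Dif f) := by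
      funext m
      rw [Pi.mul_apply, mul_Oth]
    rw [h1]
    exact mul_mem (Dif_mem hf) (Oth_mem (Dif_mem hf))
  obtain ⟨hD1, hD2⟩ := mem_of_const (g := g) (fun i => orderOf_pos (g i)) hζ
    (fun i a => algebraMap_mem_BB hr hw i a) (yy_pow_mem hr hw g) hDif
  have hDne : (∏ m', Dif f m') ≠ 0 := by
    rw [Finset.prod_ne_zero_iff]
    intro m _
    rw [Dif, Finset.prod_ne_zero_iff]
    intro m' hm'
    exact sub_ne_zero.2 (fun h => (Finset.ne_of_mem_erase hm') (hinj h).symm)
  obtain ⟨p, hp0, P, hP⟩ := const_poly' hc hd hr hw hD1 hD2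
  obtain ⟨q, hq0, hq⟩ := const_poly_finset hc hd hr hw (Finset.range (Λ0.natDegree + 1))
    (fun j => Λ0.coeff j) (fun j => (hΛ0 j).1) (fun j => (hΛ0 j).2)
  choose! Q hQ using hq
  have hpR : PowerSeries.C (algebraMap k[X] (RatFunc k) p) ≠ 0 := by
    rw [Ne, map_eq_zero_iff _ PowerSeries.C_injective, map_eq_zero_iff _ algebraMap_injective']
    exact hp0
  have hqR : PowerSeries.C (algebraMap k[X] (RatFunc k) q) ≠ 0 := by
    rw [Ne, map_eq_zero_iff _ PowerSeries.C_injective, map_eq_zero_iff _ algebraMap_injective']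
    exact hq0
  refine ⟨q.map PowerSeries.C * P, ?_, ?_⟩
  · intro h0
    have h1 := congrArg (iot k) h0
    rw [map_mul, iot_poly, hP, map_zero] at h1
    rcases mul_eq_zero.1 h1 with h2 | h2
    · exact hqR h2
    · rcases mul_eq_zero.1 h2 with h3 | h3
      · exact hpR h3
      · exact hDne h3
  · refine ⟨C (p.map PowerSeries.C) * ∑ j ∈ Finset.range (Λ0.natDegree + 1), C (Q j) * X ^ j, ?_⟩
    intro m
    have h1 := hev m
    rw [eval_eq_sum_range] at h1
    rw [map_mul, iot_poly, hP, Polynomial.map_mul, map_C, iot_poly, eval_mul, eval_C,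
      Polynomial.map_sum, eval_finsetSum]
    calc PowerSeries.C (algebraMap k[X] (RatFunc k) q) *
          (PowerSeries.C (algebraMap k[X] (RatFunc k) p) * ∏ m', Dif f m') *
          PowerSeries.map σ (f (e m))
        = PowerSeries.C (algebraMap k[X] (RatFunc k) p) *
          (PowerSeries.C (algebraMap k[X] (RatFunc k) q) *
          ((∏ m', Dif f m') * PowerSeries.map σ (f (e m)))) := by ring
      _ = PowerSeries.C (algebraMap k[X] (RatFunc k) p) *
          (PowerSeries.C (algebraMap k[X] (RatFunc k) q) *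
          ∑ i ∈ Finset.range (Λ0.natDegree + 1), Λ0.coeff i * f m ^ i) := by rw [h1]
      _ = _ := by
        congr 1
        rw [Finset.mul_sum]
        apply Finset.sum_congr rfl
        intro j hj
        rw [Polynomial.map_mul, map_C, Polynomial.map_pow, map_X, eval_mul, eval_C, eval_pow,
          eval_X, hQ j hj, mul_assoc]

end Pool.Agent.H47.Patch
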