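import Mathlib

/-! Bertini–Noether: specialisations of a geometrically irreducible polynomial. -/

set_option linter.unusedSectionVars false

namespace Pool.Agent.H47.Patch

open Polynomial

section deg

variable {F : Type*} [Field F]

lemma coeff_coeff_swap {F : Type*} [CommRing F] (p : F[X][X]) (i j : ℕ) :
    ((Bivariate.swap p).coeff i).coeff j = (p.coeff j).coeff i := by
  induction p using Polynomial.induction_on' with
  | add p q hp hq => simp [hp, hq]
  | monomial n f =>
    induction f using Polynomial.induction_on' with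
    | add p q hp hq => simp only [map_add, coeff_add, hp, hq]
    | monomial m r =>
      rw [Bivariate.swap_monomial_monomial]
      simp only [coeff_monomial]
      split_ifs <;> simp_all [coeff_monomial]

lemma natDegree_swap_le_iff (p : F[X][X]) (D : ℕ) :
    (Bivariate.swap p).natDegree ≤ D ↔ ∀ i, (p.coeff i).natDegree ≤ D := by
  simp only [natDegree_le_iff_coeff_eq_zero]
  constructor
  · intro h i N hN
    rw [← coeff_coeff_swap, h N hN, coeff_zero]
  · intro h N hN
    ext j
    rw [coeff_coeff_swap, h j N hN, coeff_zero]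

lemma deg_bound {U V : F[X][X]} (hU : U.Monic) (hV : V.Monic) {D : ℕ}
    (h : ∀ i, ((U * V).coeff i).natDegree ≤ D) : ∀ i, (U.coeff i).natDegree ≤ D := by
  rw [← natDegree_swap_le_iff] at h ⊢
  rw [map_mul, natDegree_mul] at h
  · omega
  · rw [Ne, map_eq_zero_iff _ (Bivariate.swap (R := F)).injective]; exact hU.ne_zero
  · rw [Ne, map_eq_zero_iff _ (Bivariate.swap (R := F)).injective]; exact hV.ne_zero

end deg

section gen

variable {R R' : Type*} [CommRing R] [CommRing R']

/-- generic monic polynomial of degree `e` -/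
noncomputable def gen (n D e : ℕ) (v : Fin n × Fin (D + 1) → R) : R[X][X] :=
  X ^ e + ∑ i : Fin n, if (i : ℕ) < e then
    C (∑ t : Fin (D + 1), C (v (i, t)) * X ^ (t : ℕ)) * X ^ (i : ℕ) else 0

lemma gen_map (ψ : R →+* R') (n D e : ℕ) (v : Fin n × Fin (D + 1) → R) :
    (gen n D e v).map (mapRingHom ψ) = gen n D e (fun it => ψ (v it)) := by
  simp only [gen, Polynomial.map_add, Polynomial.map_pow, map_X, Polynomial.map_sum]
  congr 1
  apply Finset.sum_congr rfl
  intro i _
  split_ifs
  · simp only [Polynomial.map_mul, map_C, coe_mapRingHom, Polynomial.map_sum, Polynomial.map_pow,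
      map_X]
  · simp

lemma gen_rest (n D e : ℕ) (v : Fin n × Fin (D + 1) → R) :
    degree (∑ i : Fin n, if (i : ℕ) < e then
    C (∑ t : Fin (D + 1), C (v (i, t)) * X ^ (t : ℕ)) * X ^ (i : ℕ) else 0 : R[X][X]) < e := by
  rw [← mem_degreeLT]
  refine Submodule.sum_mem _ fun i _ => ?_
  rw [mem_degreeLT]
  split_ifs with h
  · exact (degree_C_mul_X_pow_le _ _).trans_lt (by exact_mod_cast h)
  · rw [degree_zero]; exact WithBot.bot_lt_coe _

lemma gen_monic (n D e : ℕ) (v : Fin n × Fin (D + 1) → R) : (gen n D e v).Monic :=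
  monic_X_pow_add (gen_rest n D e v)

lemma gen_natDegree [Nontrivial R] (n D e : ℕ) (v : Fin n × Fin (D + 1) → R) :
    (gen n D e v).natDegree = e := by
  apply natDegree_eq_of_degree_eq_some
  rw [gen, degree_add_eq_left_of_degree_lt]
  · rw [degree_X_pow]
  · rw [degree_X_pow]; exact gen_rest n D e v

lemma gen_eq {U : R[X][X]} (hU : U.Monic) {n D : ℕ} (hn : U.natDegree ≤ n)
    (hD : ∀ i, (U.coeff i).natDegree ≤ D) :
    gen n D U.natDegree (fun it => (U.coeff it.1).coeff it.2) = U := by
  conv_rhs => rw [hU.as_sum]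
  rw [gen]
  congr 1
  have h1 : ∀ i, (∑ t : Fin (D + 1), C ((U.coeff i).coeff t) * X ^ (t : ℕ)) = U.coeff i := by
    intro i
    rw [Fin.sum_univ_eq_sum_range (fun t => C ((U.coeff i).coeff t) * X ^ t) (D + 1)]
    exact ((U.coeff i).as_sum_range_C_mul_X_pow' (by have := hD i; omega)).symm
  simp only [h1]
  rw [Fin.sum_univ_eq_sum_range (fun i => if i < U.natDegree then
    C (U.coeff i) * X ^ i else 0) n, ← Finset.sum_filter]
  apply Finset.sum_congr
  · ext i
    simp only [Finset.mem_filter, Finset.mem_range]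
    omega
  · intro i _; rfl

end gen

section BN

variable {A : Type} [CommRing A] [IsDomain A]

theorem bertini_noether (Ψ : A[X][X]) (hΨ : Ψ.Monic)
    (hP : ∀ (κ : Type) [Field κ] (e : A →+* κ), Function.Injective e →
      (∀ u : κ, ∃ p : A[X], p ≠ 0 ∧ eval₂ e u p = 0) →
      ∀ U V : κ[X][X], U.Monic → V.Monic → Ψ.map (mapRingHom e) = U * V → U = 1 ∨ V = 1) :
    ∃ a : A, a ≠ 0 ∧ ∀ (F : Type) [Field F] (ψ : A →+* F), ψ a ≠ 0 →
      ∀ U V : F[X][X], U.Monic → V.Monic → Ψ.map (mapRingHom ψ) = U * V → U = 1 ∨ V = 1 := by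
  classical
  set n := Ψ.natDegree with hn
  set D := (Finset.range (n + 1)).sup (fun i => (Ψ.coeff i).natDegree) with hD
  have hDle : ∀ i, (Ψ.coeff i).natDegree ≤ D := by
    intro i
    by_cases hi : i ∈ Finset.range (n + 1)
    · exact Finset.le_sup (f := fun i => (Ψ.coeff i).natDegree) hi
    · rw [Finset.mem_range] at hi
      rw [coeff_eq_zero_of_natDegree_lt (by omega)]
      simp
  let σ := Bool × Fin n × Fin (D + 1)
  let MA := MvPolynomial σ A
  let W : ℕ → MA[X][X] := fun e => gen n D e (fun it => (MvPolynomial.X (true, it) : MA)) *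
    gen n D (n - e) (fun it => (MvPolynomial.X (false, it) : MA)) -
      Ψ.map (mapRingHom (MvPolynomial.C (σ := σ) (R := A)))
  let J : ℕ → Ideal MA := fun e =>
    Ideal.span (Set.range fun ij : ℕ × ℕ => ((W e).coeff ij.1).coeff ij.2)
  have hW : ∀ (e : ℕ) {B : Type} [CommRing B] (ev : MA →+* B),
      (W e).map (mapRingHom ev) =
      gen n D e (fun it => ev (MvPolynomial.X (true, it))) *
      gen n D (n - e) (fun it => ev (MvPolynomial.X (false, it))) -
      Ψ.map (mapRingHom (ev.comp MvPolynomial.C)) := by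
    intro e B _ ev
    simp only [W]
    rw [Polynomial.map_sub, Polynomial.map_mul, gen_map, gen_map, Polynomial.map_map]
    congr 2
    ext : 2 <;> simp
  have hJ : ∀ (e : ℕ) {B : Type} [CommRing B] (ev : MA →+* B),
      (∀ r ∈ J e, ev r = 0) ↔ (W e).map (mapRingHom ev) = 0 := by
    intro e B _ ev
    constructor
    · intro h
      ext i t
      rw [coeff_map, coe_mapRingHom, coeff_map, coeff_zero, coeff_zero]
      exact h _ (Ideal.subset_span ⟨(i, t), rfl⟩)
    · intro h r hr
      induction hr using Submodule.span_induction with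
      | mem x hx =>
        obtain ⟨⟨i, t⟩, rfl⟩ := hx
        have h1 := congrArg (fun q => (q.coeff i).coeff t) h
        simp only [coeff_map, coe_mapRingHom, coeff_zero] at h1
        exact h1
      | zero => exact map_zero _
      | add x y _ _ hx hy => rw [map_add, hx, hy, add_zero]
      | smul a x _ hx => rw [smul_eq_mul, map_mul, hx, mul_zero]
  -- each `J e` meets `A`
  have key : ∀ e, 0 < e → e < n → ∃ a : A, a ≠ 0 ∧ MvPolynomial.C a ∈ J e := by
    intro e he0 hen
    by_contra hcon
    push Not at hcon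
    let 𝔽 := FractionRing A
    let _ : Algebra MA (MvPolynomial σ 𝔽) := MvPolynomial.algebraMvPolynomial
    have hloc : IsLocalization ((nonZeroDivisors A).map (MvPolynomial.C (σ := σ)))
      (MvPolynomial σ 𝔽) := MvPolynomial.isLocalization (nonZeroDivisors A) 𝔽
    have hne : (J e).map (algebraMap MA (MvPolynomial σ 𝔽)) ≠ ⊤ := by
      rw [IsLocalization.map_algebraMap_ne_top_iff_disjoint
        ((nonZeroDivisors A).map (MvPolynomial.C (σ := σ))), Set.disjoint_left]
      rintro _ ⟨a, ha, rfl⟩ h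
      exact hcon a (nonZeroDivisors.ne_zero ha) h
    obtain ⟨𝔪, h𝔪, hle⟩ := Ideal.exists_le_maximal _ hne
    let κ := MvPolynomial σ 𝔽 ⧸ 𝔪
    let _ : Field κ := Ideal.Quotient.field 𝔪
    have hfin : Module.Finite 𝔽 κ := finite_of_finite_type_of_isJacobsonRing 𝔽 κ
    let ev : MA →+* κ := (Ideal.Quotient.mk 𝔪).comp (algebraMap MA (MvPolynomial σ 𝔽))
    have hevJ : ∀ r ∈ J e, ev r = 0 := by
      intro r hr
      exact Ideal.Quotient.eq_zero_iff_mem.2 (hle (Ideal.mem_map_of_mem _ hr))
    have hevC : ev.comp MvPolynomial.C = (algebraMap 𝔽 κ).comp (algebraMap A 𝔽) := by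
      ext a
      show Ideal.Quotient.mk 𝔪 (MvPolynomial.map (algebraMap A 𝔽) (MvPolynomial.C a)) = _
      rw [MvPolynomial.map_C]
      rfl
    have hinj : Function.Injective (ev.comp (MvPolynomial.C (σ := σ) (R := A))) := by
      rw [hevC]
      exact (algebraMap 𝔽 κ).injective.comp (IsFractionRing.injective A 𝔽)
    have halg : ∀ u : κ, ∃ p : A[X], p ≠ 0 ∧
        eval₂ (ev.comp (MvPolynomial.C (σ := σ) (R := A))) u p = 0 := by
      intro u
      have h1 : IsAlgebraic 𝔽 u := Algebra.IsAlgebraic.isAlgebraic u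
      obtain ⟨p, hp0, hp⟩ := (IsFractionRing.isAlgebraic_iff A 𝔽 κ).2 h1
      refine ⟨p, hp0, ?_⟩
      rw [hevC, ← IsScalarTower.algebraMap_eq A 𝔽 κ]
      exact hp
    have h2 := (hJ e ev).1 hevJ
    rw [hW] at h2
    have h3 := hP κ _ hinj halg _ _ (gen_monic _ _ _ _) (gen_monic _ _ _ _) (sub_eq_zero.1 h2).symm
    rcases h3 with h3 | h3
    · have := congrArg natDegree h3
      rw [gen_natDegree, natDegree_one] at this
      omega
    · have := congrArg natDegree h3
      rw [gen_natDegree, natDegree_one] at this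
      omega
  have key' : ∀ e, ∃ a : A, a ≠ 0 ∧ (0 < e → e < n → MvPolynomial.C a ∈ J e) := by
    intro e
    by_cases h : 0 < e ∧ e < n
    · obtain ⟨a, ha, h'⟩ := key e h.1 h.2
      exact ⟨a, ha, fun _ _ => h'⟩
    · exact ⟨1, one_ne_zero, fun h1 h2 => absurd ⟨h1, h2⟩ h⟩
  choose a ha hamem using key'
  refine ⟨∏ e ∈ Finset.range n, a e, Finset.prod_ne_zero_iff.2 fun e _ => ha e, ?_⟩
  intro F _ ψ hψ U V hU hV hUV
  by_contra hcon
  push Not at hcon
  have hdeg : U.natDegree + V.natDegree = n := by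
    rw [← hU.natDegree_mul hV, ← hUV, hΨ.natDegree_map]
  have hU0 : U.natDegree ≠ 0 := fun h => hcon.1 (hU.natDegree_eq_zero.1 h)
  have hV0 : V.natDegree ≠ 0 := fun h => hcon.2 (hV.natDegree_eq_zero.1 h)
  have hbd : ∀ i, ((U * V).coeff i).natDegree ≤ D := by
    intro i
    rw [← hUV, coeff_map, coe_mapRingHom]
    exact natDegree_map_le.trans (hDle i)
  have hUD := deg_bound hU hV hbd
  have hVD := deg_bound hV hU (by rw [mul_comm]; exact hbd)
  let v : σ → F := fun x => if x.1 then (U.coeff x.2.1).coeff x.2.2 else (V.coeff x.2.1).coeff x.2.2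
  let ev : MA →+* F := MvPolynomial.eval₂Hom ψ v
  have hevC : ev.comp MvPolynomial.C = ψ := by
    ext a; exact MvPolynomial.eval₂Hom_C ψ v a
  have h1 : (W U.natDegree).map (mapRingHom ev) = 0 := by
    rw [hW, hevC, hUV, sub_eq_zero]
    have e1 : (fun it : Fin n × Fin (D + 1) => ev (MvPolynomial.X (true, it)))
        = fun it => (U.coeff it.1).coeff it.2 := by
      funext it
      exact (MvPolynomial.eval₂Hom_X' ψ v (true, it)).trans (by simp [v])
    have e2 : (fun it : Fin n × Fin (D + 1) => ev (MvPolynomial.X (false, it)))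
        = fun it => (V.coeff it.1).coeff it.2 := by
      funext it
      exact (MvPolynomial.eval₂Hom_X' ψ v (false, it)).trans (by simp [v])
    rw [e1, e2, gen_eq hU (by omega) hUD]
    have e3 : n - U.natDegree = V.natDegree := by omega
    rw [e3, gen_eq hV (by omega) hVD]
  have h2 := (hJ _ ev).2 h1 _ (hamem U.natDegree (by omega) (by omega))
  have h3 : ψ (a U.natDegree) = 0 := by
    rw [← hevC]; exact h2
  apply hψ
  rw [map_prod]
  exact Finset.prod_eq_zero (Finset.mem_range.2 (by omega : U.natDegree < n)) h3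

end BN

end Pool.Agent.H47.Patch
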