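import Pool.Agent.H47.Patch.AlgCl
import Pool.Agent.H47.Patch.BN

/-! Specialising the patched data to the constant field. -/

set_option linter.unusedSectionVars false

namespace Pool.Agent.H47.Patch

open Polynomial

section lifts

variable {R S : Type*} [CommRing R] [CommRing S]

lemma lift_poly1 (i : R →+* S) (P : S[X]) (h : ∀ j, ∃ r, i r = P.coeff j) :
    ∃ Q : R[X], Q.map i = P := by
  have : P ∈ Polynomial.lifts i := by
    rw [lifts_iff_coeff_lifts]; exact h
  exact (Polynomial.mem_lifts P).1 this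

lemma lift_poly2 (i : R →+* S) (P : S[X][X]) (h : ∀ j l, ∃ r, i r = (P.coeff j).coeff l) :
    ∃ Q : R[X][X], Q.map (mapRingHom i) = P :=
  lift_poly1 (mapRingHom i) P fun j => by
    obtain ⟨Q, hQ⟩ := lift_poly1 i (P.coeff j) (h j)
    exact ⟨Q, hQ⟩

lemma lift_poly2_monic [Nontrivial S] (i : R →+* S) (P : S[X][X]) (hP : P.Monic)
    (h : ∀ j l, ∃ r, i r = (P.coeff j).coeff l) :
    ∃ Q : R[X][X], Q.map (mapRingHom i) = P ∧ Q.Monic := by
  have : P ∈ Polynomial.lifts (mapRingHom i) := by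
    rw [lifts_iff_coeff_lifts]
    intro j
    obtain ⟨Q, hQ⟩ := lift_poly1 i (P.coeff j) (h j)
    exact ⟨Q, hQ⟩
  obtain ⟨Q, h1, _, h2⟩ := lifts_and_natDegree_eq_and_monic this hP
  exact ⟨Q, h1, h2⟩

lemma finite_coeffs1 (P : S[X]) : (Set.range fun j => P.coeff j).Finite := by
  classical
  refine (((P.support.image P.coeff) ∪ {0} : Finset S).finite_toSet).subset ?_
  rintro _ ⟨j, rfl⟩
  by_cases hj : j ∈ P.support
  · exact Finset.mem_union_left _ (Finset.mem_image_of_mem _ hj)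
  · rw [notMem_support_iff] at hj
    show P.coeff j ∈ _
    rw [hj]
    simp

lemma finite_coeffs2 (P : S[X][X]) :
    (Set.range fun jl : ℕ × ℕ => (P.coeff jl.1).coeff jl.2).Finite := by
  refine (Set.Finite.biUnion (finite_coeffs1 P) (t := fun q => Set.range fun l => q.coeff l)
    (fun q _ => finite_coeffs1 q)).subset ?_
  rintro _ ⟨⟨j, l⟩, rfl⟩
  simp only [Set.mem_iUnion]
  exact ⟨P.coeff j, ⟨j, rfl⟩, ⟨l, rfl⟩⟩

end lifts

lemma embed_alg {A κ Ω : Type*} [CommRing A] [IsDomain A] [Field κ] [Field Ω] [IsAlgClosed Ω]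
    (e : A →+* κ) (he : Function.Injective e)
    (halg : ∀ u : κ, ∃ p : A[X], p ≠ 0 ∧ eval₂ e u p = 0) (j : A →+* Ω)
    (hj : Function.Injective j) : ∃ L : κ →+* Ω, L.comp e = j := by
  let _ : Algebra A κ := e.toAlgebra
  let _ : Algebra A Ω := j.toAlgebra
  have hκ' : Module.IsTorsionFree A κ := Module.isTorsionFree_iff_algebraMap_injective.2 he
  have hΩ' : Module.IsTorsionFree A Ω := Module.isTorsionFree_iff_algebraMap_injective.2 hj
  have halgi : Algebra.IsAlgebraic A κ := ⟨fun u => halg u⟩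
  let L : κ →ₐ[A] Ω := IsAlgClosed.lift
  exact ⟨L, by ext x; exact L.commutes x⟩

/-- `k` is existentially closed in `k((z))`, in the form used here. -/
def AmpleIn (k : Type) [Field k] : Prop :=
  ∀ A : Subalgebra k (PowerSeries k), A.FG → ∀ a : A, a ≠ 0 → ∃ φ : A →ₐ[k] k, φ a ≠ 0

section tensor

open TensorProduct

variable {k0 k : Type} [Field k0] [Field k] [Algebra k0 k]

/-- inclusion of constants on power series, as algebra homomorphism -/
noncomputable def psInc (k0 k : Type) [Field k0] [Field k] [Algebra k0 k] :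
    PowerSeries k0 →ₐ[k0] PowerSeries k :=
  { PowerSeries.map (algebraMap k0 k) with
    commutes' := by
      intro r
      show PowerSeries.map (algebraMap k0 k) (algebraMap k0 (PowerSeries k0) r) = _
      rw [PowerSeries.algebraMap_apply, PowerSeries.map_C, PowerSeries.algebraMap_apply]; rfl }

lemma psInc_coeff (u : PowerSeries k0) (n : ℕ) :
    PowerSeries.coeff n (psInc k0 k u) = algebraMap k0 k (PowerSeries.coeff n u) :=
  PowerSeries.coeff_map _ _ _

/-- constants -/
noncomputable def psC (k0 k : Type) [Field k0] [Field k] [Algebra k0 k] :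
    k →ₐ[k0] PowerSeries k :=
  { PowerSeries.C (R := k) with
    commutes' := by
      intro r
      show PowerSeries.C (algebraMap k0 k r) = _
      rw [PowerSeries.algebraMap_apply] }

lemma psC_apply (x : k) : psC k0 k x = PowerSeries.C x := rfl

variable (A0 : Subalgebra k0 (PowerSeries k0))

/-- the structure map -/
noncomputable def tI (k : Type) [Field k] [Algebra k0 k] : A0 ⊗[k0] k →ₐ[k0] PowerSeries k :=
  Algebra.TensorProduct.lift ((psInc k0 k).comp A0.val) (psC k0 k) (fun _ _ => mul_comm _ _)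

lemma tI_tmul (x : A0) (y : k) : tI A0 k (x ⊗ₜ y) = psInc k0 k x * PowerSeries.C y := by
  rw [tI, Algebra.TensorProduct.lift_tmul]; rfl

/-- specialisation -/
noncomputable def tPhi (k : Type) [Field k] [Algebra k0 k] {A0 : Subalgebra k0 (PowerSeries k0)}
    (φ0 : A0 →ₐ[k0] k0) : A0 ⊗[k0] k →ₐ[k0] k :=
  Algebra.TensorProduct.lift ((Algebra.ofId k0 k).comp φ0) (AlgHom.id k0 k)
    (fun _ _ => mul_comm _ _)

lemma tPhi_tmul {A0 : Subalgebra k0 (PowerSeries k0)} (φ0 : A0 →ₐ[k0] k0) (x : A0) (y : k) :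
    tPhi k φ0 (x ⊗ₜ y) = algebraMap k0 k (φ0 x) * y := by
  rw [tPhi, Algebra.TensorProduct.lift_tmul]; rfl

variable {A0} [FiniteDimensional k0 k]

lemma exists_comp (x : A0 ⊗[k0] k) {ι : Type} [Fintype ι] (b : Module.Basis ι k0 k) :
    ∃ a : ι → A0, x = ∑ j, a j ⊗ₜ b j := by
  classical
  induction x using TensorProduct.induction_on with
  | zero => exact ⟨0, by simp⟩
  | tmul x y =>
    refine ⟨fun j => b.repr y j • x, ?_⟩
    conv_lhs => rw [← b.sum_repr y]
    rw [TensorProduct.tmul_sum]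
    apply Finset.sum_congr rfl
    intro j _
    rw [TensorProduct.tmul_smul, TensorProduct.smul_tmul']
  | add x y hx hy =>
    obtain ⟨a, ha⟩ := hx
    obtain ⟨a', ha'⟩ := hy
    refine ⟨a + a', ?_⟩
    rw [ha, ha', ← Finset.sum_add_distrib]
    apply Finset.sum_congr rfl
    intro j _
    rw [Pi.add_apply, TensorProduct.add_tmul]

lemma tI_inj : Function.Injective (tI A0 k) := by
  classical
  rw [injective_iff_map_eq_zero]
  intro x hx
  let b := Module.finBasis k0 k
  obtain ⟨a, ha⟩ := exists_comp x b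
  have h1 : ∀ n, ∑ j, (PowerSeries.coeff n (a j : PowerSeries k0)) • b j = 0 := by
    intro n
    have h2 := congrArg (PowerSeries.coeff n) hx
    rw [ha, map_sum, map_sum, map_zero] at h2
    rw [← h2]
    apply Finset.sum_congr rfl
    intro j _
    rw [tI_tmul, PowerSeries.coeff_mul_C, psInc_coeff, Algebra.smul_def]
  have h3 : ∀ j, a j = 0 := by
    intro j
    apply Subtype.ext
    ext n
    exact (Fintype.linearIndependent_iff.1 b.linearIndependent _ (h1 n)) j
  rw [ha]
  apply Finset.sum_eq_zero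
  intro j _
  rw [h3, TensorProduct.zero_tmul]

theorem exists_model (hample : AmpleIn k0) (T : Set (PowerSeries k)) (hT : T.Finite) :
    ∃ (A : Type) (_ : CommRing A) (i : A →+* PowerSeries k) (kA : k →+* A),
      Function.Injective i ∧ (∀ u ∈ T, ∃ x, i x = u) ∧ (∀ x, i (kA x) = PowerSeries.C x) ∧
      ∀ a : A, a ≠ 0 → ∃ φ : A →+* k, φ a ≠ 0 ∧ (∀ x, φ (kA x) = x) ∧
        (∀ σ : k →+* k, (∀ t : k0, σ (algebraMap k0 k t) = algebraMap k0 k t) →
        ∃ l : A →+* A, (∀ x, i (l x) = PowerSeries.map σ (i x)) ∧ ∀ x, φ (l x) = σ (φ x)) := by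
  classical
  let b := Module.finBasis k0 k
  let cmp : PowerSeries k → Fin (Module.finrank k0 k) → PowerSeries k0 := fun u j =>
    PowerSeries.mk fun n => b.repr (PowerSeries.coeff n u) j
  have hcmp : ∀ u, u = ∑ j, psInc k0 k (cmp u j) * PowerSeries.C (b j) := by
    intro u
    ext n
    rw [map_sum]
    conv_lhs => rw [← b.sum_repr (PowerSeries.coeff n u)]
    apply Finset.sum_congr rfl
    intro j _
    rw [PowerSeries.coeff_mul_C, psInc_coeff, PowerSeries.coeff_mk, Algebra.smul_def]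
  let T0 : Set (PowerSeries k0) := ⋃ j, (fun u => cmp u j) '' T
  have hT0 : T0.Finite := Set.finite_iUnion fun j => hT.image _
  let A0 : Subalgebra k0 (PowerSeries k0) := Algebra.adjoin k0 T0
  have hAfg : A0.FG := Subalgebra.fg_def.2 ⟨T0, hT0, rfl⟩
  have hTA0 : ∀ u ∈ T, ∀ j, cmp u j ∈ A0 := fun u hu j =>
    Algebra.subset_adjoin (Set.mem_iUnion.2 ⟨j, ⟨u, hu, rfl⟩⟩)
  refine ⟨A0 ⊗[k0] k, inferInstance, (tI A0 k).toRingHom,
    (Algebra.TensorProduct.includeRight : k →ₐ[k0] A0 ⊗[k0] k).toRingHom, tI_inj, ?_, ?_, ?_⟩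
  · intro u hu
    refine ⟨∑ j, TensorProduct.tmul k0 ⟨cmp u j, hTA0 u hu j⟩ (b j), ?_⟩
    show tI A0 k _ = u
    rw [map_sum]
    conv_rhs => rw [hcmp u]
    apply Finset.sum_congr rfl
    intro j _
    rw [tI_tmul]
  · intro x
    show tI A0 k (1 ⊗ₜ x) = _
    rw [tI_tmul]
    show psInc k0 k 1 * _ = _
    rw [map_one, one_mul]
  · intro a ha
    obtain ⟨aa, haa⟩ := exists_comp a b
    obtain ⟨j0, hj0⟩ : ∃ j, aa j ≠ 0 := by
      by_contra hcon
      push Not at hcon
      apply ha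
      rw [haa]
      apply Finset.sum_eq_zero
      intro j _
      rw [hcon, TensorProduct.zero_tmul]
    obtain ⟨φ0, hφ0⟩ := hample A0 hAfg (aa j0) hj0
    refine ⟨(tPhi k φ0).toRingHom, ?_, ?_, ?_⟩
    · intro h0
      apply hφ0
      have h3 : ∑ j, (φ0 (aa j)) • b j = 0 := by
        have h4 : tPhi k φ0 a = 0 := h0
        rw [← h4, haa, map_sum]
        apply Finset.sum_congr rfl
        intro j _
        rw [tPhi_tmul, Algebra.smul_def]
      exact (Fintype.linearIndependent_iff.1 b.linearIndependent _ h3) j0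
    · intro x
      show tPhi k φ0 (1 ⊗ₜ x) = _
      rw [tPhi_tmul, map_one, map_one, one_mul]
    · intro σ hσ
      let σ' : k →ₐ[k0] k := { σ with commutes' := hσ }
      let l : A0 ⊗[k0] k →ₐ[k0] A0 ⊗[k0] k := Algebra.TensorProduct.map (AlgHom.id k0 A0) σ'
      have hl : ∀ (x : A0) (y : k), l (x ⊗ₜ y) = x ⊗ₜ (σ y) :=
        fun x y => Algebra.TensorProduct.map_tmul _ _ _ _
      refine ⟨l.toRingHom, ?_, ?_⟩
      · intro x
        show tI A0 k (l x) = PowerSeries.map σ (tI A0 k x)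
        induction x using TensorProduct.induction_on with
        | zero => simp
        | tmul x y =>
          rw [hl, tI_tmul, tI_tmul, map_mul, PowerSeries.map_C]
          congr 1
          ext n
          rw [PowerSeries.coeff_map, psInc_coeff, hσ]
        | add x y hx hy => rw [map_add, map_add, map_add, hx, hy, map_add]
      · intro x
        show tPhi k φ0 (l x) = σ (tPhi k φ0 x)
        induction x using TensorProduct.induction_on with
        | zero => simp
        | tmul x y => rw [hl, tPhi_tmul, tPhi_tmul, map_mul, hσ]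
        | add x y hx hy => rw [map_add, map_add, map_add, hx, hy, map_add]

end tensor

theorem spec_data {k0 k : Type} [Field k0] [Field k] [CharZero k] [Algebra k0 k]
    [FiniteDimensional k0 k] (hample : AmpleIn k0)
    {G : Type*} [Finite G] {N : Type*} [Fintype N]
    (f : N → PowerSeries (RatFunc k)) (hinj : Function.Injective f)
    (Φ : Polynomial (Polynomial (PowerSeries k))) (hΦm : Φ.Monic)
    (hΦ : Φ.map (iot k) = ∏ m, (X - C (f m)))
    (hirr0 : ∀ (S : Finset N) (b : Polynomial (PowerSeries k)), b ≠ 0 →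
      (∀ j, ∃ P, iot k P = iot k b * (∏ m ∈ S, (X - C (f m))).coeff j) →
        S = ∅ ∨ S = Finset.univ)
    (Δ : G → Polynomial (PowerSeries k)) (hΔ : ∀ g, Δ g ≠ 0)
    (Λ : G → Polynomial (Polynomial (PowerSeries k))) :
    ∃ (A : Type) (_ : CommRing A) (_ : IsDomain A) (i : A →+* PowerSeries k) (kA : k →+* A)
      (φ : A →+* k) (ΦA : A[X][X]) (ΔA : G → A[X]) (ΛA : G → A[X][X]),
      Function.Injective i ∧ (∀ x, i (kA x) = PowerSeries.C x) ∧ (∀ x, φ (kA x) = x) ∧
      ΦA.Monic ∧ ΦA.map (mapRingHom i) = Φ ∧ (∀ g, (ΔA g).map i = Δ g) ∧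
      (∀ g, (ΛA g).map (mapRingHom i) = Λ g) ∧ (∀ g, (ΔA g).map φ ≠ 0) ∧
      (∀ σ : k →+* k, (∀ t : k0, σ (algebraMap k0 k t) = algebraMap k0 k t) →
        ∃ l : A →+* A, (∀ x, i (l x) = PowerSeries.map σ (i x)) ∧ ∀ x, φ (l x) = σ (φ x)) ∧
      ∀ (F : Type) [Field F] (ψ : k →+* F), ∀ U V : F[X][X], U.Monic → V.Monic →
        ΦA.map (mapRingHom (ψ.comp φ)) = U * V → U = 1 ∨ V = 1 := by
  classical
  have := Fintype.ofFinite G
  let T : Set (PowerSeries k) := (Set.range fun jl : ℕ × ℕ => (Φ.coeff jl.1).coeff jl.2) ∪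
    ((⋃ g, Set.range fun j => (Δ g).coeff j) ∪
      (⋃ g, Set.range fun jl : ℕ × ℕ => ((Λ g).coeff jl.1).coeff jl.2))
  have hT : T.Finite := (finite_coeffs2 Φ).union
    ((Set.finite_iUnion fun g => finite_coeffs1 _).union
      (Set.finite_iUnion fun g => finite_coeffs2 _))
  obtain ⟨A, _, i, kA, hi, hTA, hikA, hmod⟩ := exists_model hample T hT
  have hdom : IsDomain A := hi.isDomain i
  obtain ⟨ΦA, hΦA, hΦAm⟩ := lift_poly2_monic i Φ hΦm (fun j l =>
    hTA ((Φ.coeff j).coeff l) (Or.inl ⟨(j, l), rfl⟩))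
  have h1 : ∀ g, ∃ Q : A[X], Q.map i = Δ g := fun g => lift_poly1 i (Δ g) (fun j =>
    hTA ((Δ g).coeff j) (Or.inr (Or.inl (Set.mem_iUnion.2 ⟨g, ⟨j, rfl⟩⟩))))
  have h2 : ∀ g, ∃ Q : A[X][X], Q.map (mapRingHom i) = Λ g := fun g => lift_poly2 i (Λ g) (fun j l =>
    hTA (((Λ g).coeff j).coeff l) (Or.inr (Or.inr (Set.mem_iUnion.2 ⟨g, ⟨(j, l), rfl⟩⟩))))
  choose ΔA hΔA using h1
  choose ΛA hΛA using h2
  have hBN : ∀ (κ : Type) [Field κ] (e : A →+* κ), Function.Injective e →
      (∀ u : κ, ∃ p : A[X], p ≠ 0 ∧ eval₂ e u p = 0) →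
      ∀ U V : κ[X][X], U.Monic → V.Monic → ΦA.map (mapRingHom e) = U * V → U = 1 ∨ V = 1 := by
    intro κ _ e he halg U V hU hV hUV
    let KK := FractionRing (PowerSeries k)
    let Ω := AlgebraicClosure KK
    let eΩ : PowerSeries k →+* Ω := algebraMap (PowerSeries k) Ω
    have heΩ : Function.Injective eΩ := by
      show Function.Injective (algebraMap (PowerSeries k) Ω)
      rw [IsScalarTower.algebraMap_eq (PowerSeries k) KK Ω]
      exact (algebraMap KK Ω).injective.comp (IsFractionRing.injective _ _)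
    have halgΩ : ∀ u : Ω, ∃ p : (PowerSeries k)[X], p ≠ 0 ∧ eval₂ eΩ u p = 0 := by
      intro u
      have h3 : IsAlgebraic KK u := Algebra.IsAlgebraic.isAlgebraic u
      have h4 : IsAlgebraic (PowerSeries k) u := (IsFractionRing.isAlgebraic_iff (PowerSeries k) KK Ω).2 h3
      obtain ⟨p, hp, hp'⟩ := h4
      exact ⟨p, hp, by rw [aeval_def] at hp'; exact hp'⟩
    obtain ⟨L, hL⟩ := embed_alg e he halg (eΩ.comp i) (heΩ.comp hi)
    have hLi : Function.Injective L := L.injective
    have hfac : Φ.map (mapRingHom eΩ) = U.map (mapRingHom L) *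
        V.map (mapRingHom L) := by
      rw [← Polynomial.map_mul, ← hUV, ← hΦA, Polynomial.map_map, Polynomial.map_map,
        mapRingHom_comp, mapRingHom_comp, hL]
    have hmi : Function.Injective (Polynomial.map (mapRingHom L)) := by
      apply Polynomial.map_injective
      exact Polynomial.map_injective _ hLi
    rcases geom_irred eΩ heΩ halgΩ f hinj Φ hΦ hirr0 _ _ (hU.map _) (hV.map _) hfac with h | h
    · left
      apply hmi
      rw [h, Polynomial.map_one]
    · right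
      apply hmi
      rw [h, Polynomial.map_one]
  obtain ⟨a, ha, hF⟩ := bertini_noether ΦA hΦAm hBN
  have hΔA0 : ∀ g, ΔA g ≠ 0 := by
    intro g h0
    apply hΔ g
    rw [← hΔA, h0, Polynomial.map_zero]
  have hane : a * ∏ g, (ΔA g).leadingCoeff ≠ 0 := mul_ne_zero ha
    (Finset.prod_ne_zero_iff.2 fun g _ => leadingCoeff_ne_zero.2 (hΔA0 g))
  obtain ⟨φ, hφ, hφk, hl⟩ := hmod _ hane
  rw [map_mul, map_prod] at hφ
  have hφa : φ a ≠ 0 := left_ne_zero_of_mul hφ
  have hφΔ : ∀ g, φ ((ΔA g).leadingCoeff) ≠ 0 := fun g =>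
    Finset.prod_ne_zero_iff.1 (right_ne_zero_of_mul hφ) g (Finset.mem_univ g)
  refine ⟨A, inferInstance, hdom, i, kA, φ, ΦA, ΔA, ΛA, hi, hikA, hφk,
    hΦAm, hΦA, hΔA, hΛA, ?_, hl, ?_⟩
  · intro g h0
    apply hφΔ g
    have := congrArg (fun q => q.coeff (ΔA g).natDegree) h0
    simp only [coeff_map, coeff_zero] at this
    exact this
  · intro F _ ψ U V hU hV hUV
    refine hF F (ψ.comp φ) ?_ U V hU hV hUV
    rw [RingHom.comp_apply, Ne, map_eq_zero]
    exact hφa

end Pool.Agent.H47.Patch
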