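import Pool.Agent.H47.Patch.Main

/-! Semilinear actions on the patched ring. -/

set_option linter.unusedSectionVars false

namespace Pool.Agent.H47.Patch

open Polynomial

section general

variable {k A : Type*} [Field k] [CharZero k] [CommRing A] [IsDomain A] [Algebra k A]
variable {I N : Type*} [Group N]
variable {AA : Subring A} {B : I → Subring A} {g : I → N} {ζ : I → k} {y : I → A}

lemma TR_act (σ : A →+* A) (κ : k →+* k) (r : ℕ) (e : N → N) (τ : I → I)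
    (hAA : ∀ u ∈ AA, σ u ∈ AA) (hB : ∀ i, ∀ u ∈ B (τ i), σ u ∈ B i)
    (hy : ∀ i, σ (y (τ i)) = y i) (hζ : ∀ i, κ (ζ (τ i)) ^ r = ζ i)
    (hk : ∀ c : k, σ (algebraMap k A c) = algebraMap k A (κ c))
    (he : ∀ i m (l : ℕ), e (m * g i ^ l) = e m * g (τ i) ^ (r * l))
    {u : N → A} (hu : u ∈ TR AA B g ζ y) : (fun m => σ (u (e m))) ∈ TR AA B g ζ y := by
  refine ⟨fun m => hAA _ (hu.1 _), fun i m => ?_⟩
  obtain ⟨Q, hQ⟩ := hu.2 (τ i) (e m)
  let σ' : B (τ i) →+* B i := (σ.comp (B (τ i)).subtype).codRestrict (B i) (fun x => hB i x x.2)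
  refine ⟨Q.map σ', fun l => ?_⟩
  show σ (u (e (m * g i ^ l))) = _
  rw [he, hQ (r * l), eval₂_map, Polynomial.hom_eval₂, map_mul, hk, hy, map_pow, pow_mul, hζ]
  rfl

end general

section rat

variable {k : Type*} [Field k]

lemma Oc_inv {c : k} {u : RatFunc k} (hu : u ∈ Oc c) (h : evc c ⟨u, hu⟩ ≠ 0) : u⁻¹ ∈ Oc c := by
  obtain ⟨p, q, hq, hpq⟩ := hu
  rw [evc_eq (u := ⟨u, _⟩) hq hpq] at h
  have hp : p.eval c ≠ 0 := by
    intro h0; rw [h0, zero_div] at h; exact h rfl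
  refine ⟨q, p, hp, ?_⟩
  have hp0 : p ≠ 0 := by rintro rfl; simp at hp
  have hu0 : u ≠ 0 := by
    rintro rfl
    rw [zero_mul] at hpq
    have := hpq.symm
    rw [map_eq_zero_iff _ algebraMap_injective'] at this
    exact hp0 this
  rw [← hpq, ← mul_assoc, inv_mul_cancel₀ hu0, one_mul]

lemma algebraMap_mem_Oc (c a : k) : algebraMap k (RatFunc k) a ∈ Oc c := by
  refine ⟨C a, 1, by simp, ?_⟩
  rw [map_one, mul_one]
  simp [RatFunc.algebraMap_eq_C]

lemma evc_algebraMap (c a : k) : evc c ⟨algebraMap k (RatFunc k) a, algebraMap_mem_Oc c a⟩ = a := by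
  have h : (algebraMap k (RatFunc k) a) * algebraMap k[X] (RatFunc k) 1
      = algebraMap k[X] (RatFunc k) (C a) := by
    rw [map_one, mul_one]
    simp [RatFunc.algebraMap_eq_C]
  rw [evc_eq (p := C a) (q := 1) (by simp) h]
  simp

/-- A ring hom of `k(x)` over `k` mapping `w'` to `w` maps the local ring at the pole of `w'` to the
local ring at the pole of `w`. -/
lemma Oc_map {c c' : k} {w w' : RatFunc k} {r r' : k[X]} (hd : r'.natDegree ≤ 1)
    (hr : r.eval c ≠ 0) (hr' : r'.eval c' ≠ 0)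
    (hw : w * algebraMap k[X] (RatFunc k) (X - C c) = algebraMap k[X] (RatFunc k) r)
    (hw' : w' * algebraMap k[X] (RatFunc k) (X - C c') = algebraMap k[X] (RatFunc k) r')
    (σ : RatFunc k →+* RatFunc k) (κ : k →+* k)
    (hσk : ∀ a : k, σ (algebraMap k _ a) = algebraMap k _ (κ a))
    (hσ : σ w' = w) : ∀ u ∈ Oc c', σ u ∈ Oc c := by
  set P := placeAt c w r hr hw with hP
  have hw0 : w ≠ 0 := P.w_ne
  have hwi : w⁻¹ ∈ Oc c := P.inv_mem
  have hwe : evc c ⟨w⁻¹, hwi⟩ = 0 := P.ev_inv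
  have hC : ∀ a : k, algebraMap k[X] (RatFunc k) (C a) = algebraMap k (RatFunc k) a := by
    intro a; rw [RatFunc.algebraMap_C, RatFunc.algebraMap_eq_C]
  set α := r'.eval c'
  set β := r'.coeff 1
  set x := algebraMap k[X] (RatFunc k) X with hx
  -- (x - c') (w' - β) = α
  have h1 : (x - algebraMap k _ c') * (w' - algebraMap k _ β) = algebraMap k _ α := by
    have h2 := hw'
    rw [r_eq hd c', map_add, map_mul, hC, hC, map_sub, hC] at h2
    linear_combination h2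
  have h2 : (σ x - algebraMap k _ (κ c')) * (w - algebraMap k _ (κ β)) = algebraMap k _ (κ α) := by
    have := congrArg σ h1
    rwa [map_mul, map_sub, map_sub, hσ, hσk, hσk, hσk] at this
  have h3 : (σ x - algebraMap k _ (κ c')) * (1 - algebraMap k _ (κ β) * w⁻¹)
      = algebraMap k _ (κ α) * w⁻¹ := by
    have h4 : (1 - algebraMap k (RatFunc k) (κ β) * w⁻¹) = (w - algebraMap k _ (κ β)) * w⁻¹ := by
      rw [sub_mul, mul_inv_cancel₀ hw0]
    rw [h4, ← mul_assoc, h2]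
  have hmem1 : (1 - algebraMap k (RatFunc k) (κ β) * w⁻¹) ∈ Oc c :=
    sub_mem (one_mem _) (mul_mem (algebraMap_mem_Oc _ _) hwi)
  have hev1 : evc c ⟨_, hmem1⟩ = 1 := by
    have h5 : (⟨_, hmem1⟩ : Oc c) = 1 - ⟨algebraMap k (RatFunc k) (κ β), algebraMap_mem_Oc c (κ β)⟩ *
        ⟨w⁻¹, hwi⟩ := rfl
    rw [h5, map_sub, map_mul, hwe, mul_zero, map_one, sub_zero]
  have hinv1 : (1 - algebraMap k (RatFunc k) (κ β) * w⁻¹)⁻¹ ∈ Oc c :=
    Oc_inv hmem1 (by rw [hev1]; exact one_ne_zero)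
  have hne1 : (1 - algebraMap k (RatFunc k) (κ β) * w⁻¹) ≠ 0 := by
    intro h0
    have : (⟨_, hmem1⟩ : Oc c) = 0 := Subtype.ext h0
    rw [this, map_zero] at hev1
    exact zero_ne_one hev1
  have hσx : σ x = algebraMap k _ (κ c') + algebraMap k _ (κ α) * w⁻¹ *
      (1 - algebraMap k (RatFunc k) (κ β) * w⁻¹)⁻¹ := by
    rw [← h3, mul_assoc, mul_inv_cancel₀ hne1, mul_one]; ring
  have hσxm : σ x ∈ Oc c := by
    rw [hσx]
    exact add_mem (algebraMap_mem_Oc _ _) (mul_mem (mul_mem (algebraMap_mem_Oc _ _) hwi) hinv1)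
  have hσxe : evc c ⟨σ x, hσxm⟩ = κ c' := by
    have h5 : (⟨σ x, hσxm⟩ : Oc c) = ⟨algebraMap k (RatFunc k) (κ c'), algebraMap_mem_Oc c (κ c')⟩ +
        ⟨algebraMap k (RatFunc k) (κ α), algebraMap_mem_Oc c (κ α)⟩ * ⟨w⁻¹, hwi⟩ * ⟨_, hinv1⟩ :=
      Subtype.ext hσx
    rw [h5, map_add, map_mul, map_mul, hwe, evc_algebraMap, mul_zero, zero_mul, add_zero]
  -- polynomials
  have hpoly : ∀ p : k[X], ∃ hp : σ (algebraMap k[X] _ p) ∈ Oc c,
      evc c ⟨_, hp⟩ = κ (p.eval c') := by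
    intro p
    induction p using Polynomial.induction_on' with
    | add p q hp hq =>
      obtain ⟨hp, hp'⟩ := hp
      obtain ⟨hq, hq'⟩ := hq
      refine ⟨by rw [map_add, map_add]; exact add_mem hp hq, ?_⟩
      rw [eval_add, map_add κ, ← hp', ← hq', ← map_add (evc c)]
      congr 1
      apply Subtype.ext
      show σ _ = σ _ + σ _
      rw [map_add, map_add]
    | monomial e a =>
      have h6 : σ (algebraMap k[X] _ (monomial e a)) = algebraMap k _ (κ a) * σ x ^ e := by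
        rw [← C_mul_X_pow_eq_monomial, map_mul, map_mul, map_pow, map_pow, hC, hσk]
      refine ⟨by rw [h6]; exact mul_mem (algebraMap_mem_Oc _ _) (pow_mem hσxm _), ?_⟩
      have h7 : ∀ h, (⟨σ (algebraMap k[X] _ (monomial e a)), h⟩ : Oc c) =
          ⟨algebraMap k (RatFunc k) (κ a), algebraMap_mem_Oc c (κ a)⟩ * ⟨σ x, hσxm⟩ ^ e :=
        fun h => Subtype.ext h6
      rw [h7, map_mul, map_pow, hσxe, evc_algebraMap, eval_monomial, map_mul, map_pow]
  intro u hu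
  obtain ⟨p, q, hq, hpq⟩ := hu
  obtain ⟨hp1, hp2⟩ := hpoly p
  obtain ⟨hq1, hq2⟩ := hpoly q
  have hqi : (σ (algebraMap k[X] _ q))⁻¹ ∈ Oc c := Oc_inv hq1 (by
    rw [hq2, Ne, map_eq_zero]; exact hq)
  have hq0 : σ (algebraMap k[X] _ q) ≠ 0 := by
    intro h0
    have : (⟨_, hq1⟩ : Oc c) = 0 := Subtype.ext h0
    rw [this, map_zero] at hq2
    exact hq ((map_eq_zero κ).1 hq2.symm)
  have h8 : σ u = σ (algebraMap k[X] _ p) * (σ (algebraMap k[X] _ q))⁻¹ := by
    rw [← hpq, map_mul, mul_assoc, mul_inv_cancel₀ hq0, mul_one]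
  rw [h8]
  exact mul_mem hp1 hqi

end rat

section map

variable {R : Type*} [Field R]

lemma PS_map {S S' : Subring R} (σ : R →+* R) (h : ∀ u ∈ S, σ u ∈ S') {u : PowerSeries R}
    (hu : u ∈ PS S) : PowerSeries.map σ u ∈ PS S' := by
  intro r
  rw [PowerSeries.coeff_map]
  exact h _ (hu r)

lemma Bd_map {O O' : Subring R} {s s' : R} {hs : s ∈ O} {hs' : s' ∈ O'} (σ : R →+* R)
    (h : ∀ u ∈ O, σ u ∈ O') (hss : σ s = s') {u : PowerSeries R} (hu : u ∈ Bd O s hs) :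
    PowerSeries.map σ u ∈ Bd O' s' hs' := by
  obtain ⟨D, hD⟩ := hu
  refine ⟨D, ?_⟩
  have := PS_map σ h hD
  rwa [map_mul, PowerSeries.map_C, map_pow, hss] at this

end map

end Pool.Agent.H47.Patch
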