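import Pool.Agent.H47.Patch.Const

/-! `Frac k[[z]]` is algebraically closed in `Frac k(x)[[z]]`, and geometric irreducibility. -/

set_option linter.unusedSectionVars false

namespace Pool.Agent.H47.Patch

open Polynomial

section ac

variable {k R : Type*} [Field k] [Field R] [Algebra k R]

lemma const_algebraic {v : PowerSeries R} (hv : IsAlgebraic (PowerSeries k) v) :
    IsAlgebraic k (PowerSeries.constantCoeff v) := by
  classical
  obtain ⟨p, hp0, hp⟩ := hv
  have hex : ∃ n i, PowerSeries.coeff n (p.coeff i) ≠ 0 := by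
    by_contra h
    push Not at h
    apply hp0
    ext i n
    simp [h n i]
  have hn := Nat.find_spec hex
  have hmin : ∀ m < Nat.find hex, ∀ i, PowerSeries.coeff m (p.coeff i) = 0 := by
    intro m hm i
    by_contra h
    exact Nat.find_min hex hm ⟨i, h⟩
  set n := Nat.find hex
  obtain ⟨i0, hi0⟩ := hn
  refine ⟨∑ i ∈ Finset.range (p.natDegree + 1), C (PowerSeries.coeff n (p.coeff i)) * X ^ i, ?_, ?_⟩
  · intro h0
    have h1 := congrArg (fun q => q.coeff i0) h0
    simp only [finsetSum_coeff, coeff_C_mul, coeff_X_pow, coeff_zero] at h1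
    have hi : i0 ∈ Finset.range (p.natDegree + 1) := by
      rw [Finset.mem_range]
      by_contra h
      apply hi0
      rw [coeff_eq_zero_of_natDegree_lt (by omega), map_zero]
    rw [Finset.sum_eq_single i0] at h1
    · simp at h1; exact hi0 h1
    · intro b _ hb; rw [if_neg (Ne.symm hb), mul_zero]
    · intro h; exact absurd hi h
  · rw [map_sum]
    have h1 := congrArg (PowerSeries.coeff n) hp
    rw [aeval_eq_sum_range, map_sum, map_zero] at h1
    rw [← h1]
    apply Finset.sum_congr rfl
    intro i _
    rw [map_mul, aeval_C, map_pow, aeval_X, Algebra.smul_def]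
    have h2 : algebraMap (PowerSeries k) (PowerSeries R) (p.coeff i)
        = PowerSeries.map (algebraMap k R) (p.coeff i) := rfl
    rw [h2, PowerSeries.coeff_mul, Finset.sum_eq_single (n, 0)]
    · rw [PowerSeries.coeff_map, PowerSeries.coeff_zero_eq_constantCoeff_apply, map_pow]
    · rintro ⟨a, b⟩ hab hne
      rw [Finset.HasAntidiagonal.mem_antidiagonal] at hab
      simp only at hab ⊢
      rw [PowerSeries.coeff_map]
      have hb : a ≠ n := by
        rintro rfl
        apply hne
        have : b = 0 := by omega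
        rw [this]
      rw [hmin a (by omega), map_zero, zero_mul]
    · intro h
      exact absurd (Finset.HasAntidiagonal.mem_antidiagonal.2 (by simp)) h

lemma tl_algebraic {v : PowerSeries R} (hv : IsAlgebraic (PowerSeries k) v) {c : k}
    (hc : PowerSeries.constantCoeff v = algebraMap k R c) : IsAlgebraic (PowerSeries k) (tl v) := by
  have h1 := eq_tl v
  rw [hc] at h1
  have h2 : (PowerSeries.C (algebraMap k R c) : PowerSeries R)
      = algebraMap (PowerSeries k) (PowerSeries R) (PowerSeries.C c) := by
    show _ = PowerSeries.map (algebraMap k R) (PowerSeries.C c)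
    rw [PowerSeries.map_C]
  have h3 : (PowerSeries.X : PowerSeries R)
      = algebraMap (PowerSeries k) (PowerSeries R) PowerSeries.X := by
    show _ = PowerSeries.map (algebraMap k R) PowerSeries.X
    rw [PowerSeries.map_X]
  have h4 : PowerSeries.X * tl v = v - algebraMap (PowerSeries k) (PowerSeries R) (PowerSeries.C c) := by
    rw [← h2]; rw [eq_sub_iff_add_eq, add_comm]; exact h1.symm
  apply IsAlgebraic.of_mul (y := (PowerSeries.X : PowerSeries R))
    (mem_nonZeroDivisors_of_ne_zero PowerSeries.X_ne_zero)
  · rw [h3]; exact isAlgebraic_algebraMap _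
  · rw [h4]; exact hv.sub (isAlgebraic_algebraMap _)

lemma coeff_mem_range (hkR : ∀ u : R, IsAlgebraic k u → ∃ c, algebraMap k R c = u) (n : ℕ) :
    ∀ {v : PowerSeries R}, IsAlgebraic (PowerSeries k) v →
      ∃ c, algebraMap k R c = PowerSeries.coeff n v := by
  induction n with
  | zero =>
    intro v hv
    rw [PowerSeries.coeff_zero_eq_constantCoeff_apply]
    exact hkR _ (const_algebraic hv)
  | succ n ih =>
    intro v hv
    obtain ⟨c, hc⟩ := hkR _ (const_algebraic hv)
    obtain ⟨d, hd⟩ := ih (tl_algebraic hv hc.symm)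
    exact ⟨d, by rw [hd, tl, PowerSeries.coeff_mk]⟩

lemma exists_of_algebraic (hkR : ∀ u : R, IsAlgebraic k u → ∃ c, algebraMap k R c = u)
    {v : PowerSeries R} (hv : IsAlgebraic (PowerSeries k) v) :
    ∃ a : PowerSeries k, algebraMap (PowerSeries k) (PowerSeries R) a = v := by
  choose c hc using fun n => coeff_mem_range hkR n hv
  refine ⟨PowerSeries.mk c, ?_⟩
  ext n
  show PowerSeries.coeff n (PowerSeries.map (algebraMap k R) (PowerSeries.mk c)) = _
  rw [PowerSeries.coeff_map, PowerSeries.coeff_mk, hc]

lemma map_ps_injective : Function.Injective (algebraMap (PowerSeries k) (PowerSeries R)) := by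
  intro a b h
  ext n
  have h1 := congrArg (PowerSeries.coeff n) h
  change PowerSeries.coeff n (PowerSeries.map (algebraMap k R) a)
    = PowerSeries.coeff n (PowerSeries.map (algebraMap k R) b) at h1
  rw [PowerSeries.coeff_map, PowerSeries.coeff_map] at h1
  exact (algebraMap k R).injective h1

lemma frac_algebraic (hkR : ∀ u : R, IsAlgebraic k u → ∃ c, algebraMap k R c = u)
    {u : FractionRing (PowerSeries R)} (hu : IsAlgebraic (PowerSeries k) u) :
    ∃ a b : PowerSeries k, b ≠ 0 ∧ algebraMap (PowerSeries k) (FractionRing (PowerSeries R)) b * u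
      = algebraMap (PowerSeries k) (FractionRing (PowerSeries R)) a := by
  obtain ⟨p, q, hq, rfl⟩ := IsFractionRing.div_surjective (A := PowerSeries R) u
  have hq0 : q ≠ 0 := nonZeroDivisors.ne_zero hq
  obtain ⟨n, hn⟩ := IsDiscreteValuationRing.associated_pow_irreducible hq0
    (PowerSeries.X_prime (R := R)).irreducible
  obtain ⟨ε, hε⟩ := hn
  have hqF : algebraMap (PowerSeries R) (FractionRing (PowerSeries R)) q ≠ 0 := by
    rw [Ne, map_eq_zero_iff _ (IsFractionRing.injective (PowerSeries R) _)]; exact hq0
  have hXn : algebraMap (PowerSeries k) (FractionRing (PowerSeries R)) (PowerSeries.X ^ n)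
      = algebraMap (PowerSeries R) (FractionRing (PowerSeries R)) (PowerSeries.X ^ n) := by
    rw [IsScalarTower.algebraMap_apply (PowerSeries k) (PowerSeries R)
      (FractionRing (PowerSeries R))]
    congr 1
    show PowerSeries.map (algebraMap k R) (PowerSeries.X ^ n) = _
    rw [map_pow, PowerSeries.map_X]
  have h1 : algebraMap (PowerSeries k) (FractionRing (PowerSeries R)) (PowerSeries.X ^ n) *
      (algebraMap (PowerSeries R) (FractionRing (PowerSeries R)) p /
        algebraMap (PowerSeries R) (FractionRing (PowerSeries R)) q)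
      = algebraMap (PowerSeries R) (FractionRing (PowerSeries R)) (ε * p) := by
    rw [hXn, ← hε, map_mul, map_mul]
    field_simp
  have h2 : IsAlgebraic (PowerSeries k) (ε * p : PowerSeries R) := by
    have h3 := (isAlgebraic_algebraMap (R := PowerSeries k)
      (A := FractionRing (PowerSeries R)) (PowerSeries.X ^ n)).mul hu
    rw [h1] at h3
    exact (isAlgebraic_algebraMap_iff (IsFractionRing.injective (PowerSeries R)
      (FractionRing (PowerSeries R)))).1 h3
  obtain ⟨a, ha⟩ := exists_of_algebraic hkR h2
  refine ⟨a, PowerSeries.X ^ n, pow_ne_zero _ PowerSeries.X_ne_zero, ?_⟩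
  rw [h1, ← ha, ← IsScalarTower.algebraMap_apply]

end ac

lemma ratFunc_algebraic {k : Type*} [Field k] (u : RatFunc k) (hu : IsAlgebraic k u) :
    ∃ c, algebraMap k (RatFunc k) c = u := by
  by_contra h
  have h1 := RatFunc.transcendental_of_ne_C u (by
    rintro ⟨c, rfl⟩
    exact h ⟨c, by rw [RatFunc.algebraMap_eq_C]⟩)
  exact h1 hu

lemma ratFunc_X_ne {k : Type*} [Field k] (c : k) : algebraMap k (RatFunc k) c ≠ RatFunc.X := by
  intro h
  have h1 : algebraMap k[X] (RatFunc k) (C c) = algebraMap k[X] (RatFunc k) X := by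
    rw [RatFunc.algebraMap_C, RatFunc.algebraMap_X, ← h, RatFunc.algebraMap_eq_C]
  have h2 := congrArg (fun p => p.coeff 1) (RatFunc.algebraMap_injective k h1)
  simp at h2

/-- **Geometric irreducibility.** -/
theorem geom_irred {k : Type} [Field k] [CharZero k] {κ : Type} [Field κ]
    (eκ : PowerSeries k →+* κ) (heκ : Function.Injective eκ)
    (halg : ∀ u : κ, ∃ p : (PowerSeries k)[X], p ≠ 0 ∧ eval₂ eκ u p = 0)
    {N : Type*} [Fintype N] (f : N → PowerSeries (RatFunc k)) (hinj : Function.Injective f)
    (Φ : Polynomial (Polynomial (PowerSeries k)))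
    (hΦ : Φ.map (iot k) = ∏ m, (X - C (f m)))
    (hirr0 : ∀ (S : Finset N) (b : Polynomial (PowerSeries k)), b ≠ 0 →
      (∀ j, ∃ P, iot k P = iot k b * (∏ m ∈ S, (X - C (f m))).coeff j) →
        S = ∅ ∨ S = Finset.univ)
    (U V : Polynomial (Polynomial κ)) (hU : U.Monic) (hV : V.Monic)
    (h : Φ.map (mapRingHom eκ) = U * V) : U = 1 ∨ V = 1 := by
  classical
  let _ : Algebra (PowerSeries k) κ := eκ.toAlgebra
  have halgi : Algebra.IsAlgebraic (PowerSeries k) κ := ⟨fun u => halg u⟩
  have hfs : FaithfulSMul (PowerSeries k) κ := (faithfulSMul_iff_algebraMap_injective _ _).2 heκ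
  let FF := FractionRing (PowerSeries (RatFunc k))
  let Ω := AlgebraicClosure FF
  have hinjR : Function.Injective (algebraMap (PowerSeries (RatFunc k)) FF) :=
    IsFractionRing.injective _ _
  have hchar : CharZero FF := charZero_of_injective_ringHom
    (f := (algebraMap (PowerSeries (RatFunc k)) FF).comp
      ((PowerSeries.C (R := RatFunc k)).comp (algebraMap k (RatFunc k))))
    (hinjR.comp (PowerSeries.C_injective.comp (algebraMap k (RatFunc k)).injective))
  have hinjΩ : Function.Injective (algebraMap (PowerSeries (RatFunc k)) Ω) := by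
    rw [IsScalarTower.algebraMap_eq (PowerSeries (RatFunc k)) FF Ω]
    exact (algebraMap FF Ω).injective.comp hinjR
  have hkinj : Function.Injective (algebraMap (PowerSeries k) Ω) := by
    rw [IsScalarTower.algebraMap_eq (PowerSeries k) (PowerSeries (RatFunc k)) Ω]
    exact hinjΩ.comp map_ps_injective
  have hfs2 : FaithfulSMul (PowerSeries k) Ω := (faithfulSMul_iff_algebraMap_injective _ _).2 hkinj
  let hκ : κ →ₐ[PowerSeries k] Ω := IsAlgClosed.lift
  have hκinj : Function.Injective hκ := hκ.toRingHom.injective
  set xR : PowerSeries (RatFunc k) := PowerSeries.C RatFunc.X with hxR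
  set xΩ : Ω := algebraMap (PowerSeries (RatFunc k)) Ω xR with hxΩ
  let θ : κ[X] →+* Ω := eval₂RingHom hκ.toRingHom xΩ
  have hθ : θ.comp (mapRingHom eκ) = (algebraMap (PowerSeries (RatFunc k)) Ω).comp (iot k) := by
    apply Polynomial.ringHom_ext
    · intro a
      simp only [θ, RingHom.comp_apply, coe_mapRingHom, map_C, coe_eval₂RingHom, eval₂_C, iot_C]
      have h1 : hκ.toRingHom (eκ a) = algebraMap (PowerSeries k) Ω a := hκ.commutes a
      rw [h1, IsScalarTower.algebraMap_apply (PowerSeries k) (PowerSeries (RatFunc k)) Ω]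
      rfl
    · simp only [θ, RingHom.comp_apply, coe_mapRingHom, map_X, coe_eval₂RingHom, eval₂_X, iot_X]
      rfl
  -- transcendence of x
  have htr : Transcendental (PowerSeries k) xΩ := by
    intro hx
    have h1 : IsAlgebraic (PowerSeries k) xR :=
      (isAlgebraic_algebraMap_iff hinjΩ).1 hx
    obtain ⟨a, ha⟩ := exists_of_algebraic ratFunc_algebraic h1
    have h2 := congrArg (PowerSeries.coeff 0) ha
    change PowerSeries.coeff 0 (PowerSeries.map (algebraMap k (RatFunc k)) a) = _ at h2
    rw [PowerSeries.coeff_map, hxR, PowerSeries.coeff_zero_C] at h2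
    exact ratFunc_X_ne _ h2
  have htr' : Transcendental (Subalgebra.algebraicClosure (PowerSeries k) Ω) xΩ :=
    htr.extendScalars _
  have hκalg : ∀ u, IsAlgebraic (PowerSeries k) (hκ u) := fun u =>
    (halgi.isAlgebraic u).algHom hκ
  -- Claim A
  have claimA : ∀ (u : κ[X]) (v : PowerSeries (RatFunc k)),
      θ u = algebraMap (PowerSeries (RatFunc k)) Ω v →
      ∀ e, ∃ a b : PowerSeries k, b ≠ 0 ∧ eκ b * u.coeff e = eκ a := by
    intro u v huv e
    have hfix : ∀ τ : Ω ≃ₐ[FF] Ω, τ (hκ (u.coeff e)) = hκ (u.coeff e) := by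
      intro τ
      have hτalg : ∀ z, IsAlgebraic (PowerSeries k) z → IsAlgebraic (PowerSeries k) (τ z) := by
        intro z hz
        exact IsAlgebraic.algHom ((τ : Ω →ₐ[FF] Ω).restrictScalars (PowerSeries k)) hz
      let dd : ℕ → Subalgebra.algebraicClosure (PowerSeries k) Ω := fun i =>
        ⟨τ (hκ (u.coeff i)) - hκ (u.coeff i), (hτalg _ (hκalg _)).sub (hκalg _)⟩
      let W : (Subalgebra.algebraicClosure (PowerSeries k) Ω)[X] :=
        ∑ i ∈ Finset.range (u.natDegree + 1), C (dd i) * X ^ i
      have hW : aeval xΩ W = 0 := by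
        simp only [W, map_sum, map_mul, aeval_C, map_pow, aeval_X]
        have h1 : ∀ i, algebraMap (Subalgebra.algebraicClosure (PowerSeries k) Ω) Ω (dd i)
          = τ (hκ (u.coeff i)) - hκ (u.coeff i) := fun i => rfl
        simp only [h1, sub_mul, Finset.sum_sub_distrib]
        have h2 : θ u = ∑ i ∈ Finset.range (u.natDegree + 1), hκ (u.coeff i) * xΩ ^ i := by
          simp only [θ, coe_eval₂RingHom]
          rw [eval₂_eq_sum_range]
          rfl
        have hτv : ∀ v : PowerSeries (RatFunc k), τ (algebraMap (PowerSeries (RatFunc k)) Ω v)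
            = algebraMap (PowerSeries (RatFunc k)) Ω v := by
          intro v
          rw [IsScalarTower.algebraMap_apply (PowerSeries (RatFunc k)) FF Ω]
          exact τ.commutes _
        have h3 : τ (θ u) = ∑ i ∈ Finset.range (u.natDegree + 1), τ (hκ (u.coeff i)) * xΩ ^ i := by
          rw [h2, map_sum]
          apply Finset.sum_congr rfl
          intro i _
          rw [map_mul, map_pow, hxΩ, hτv]
        rw [← h2, ← h3, huv, hτv, sub_self]
      have hW0 : W = 0 := (transcendental_iff.1 htr') W hW
      have h4 := congrArg (fun q => q.coeff e) hW0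
      simp only [W, finsetSum_coeff, coeff_C_mul, coeff_X_pow, coeff_zero] at h4
      by_cases he : e ∈ Finset.range (u.natDegree + 1)
      · rw [Finset.sum_eq_single e] at h4
        · rw [if_pos rfl, mul_one] at h4
          exact sub_eq_zero.1 (congrArg Subtype.val h4)
        · intro b _ hb; rw [if_neg (Ne.symm hb), mul_zero]
        · intro h; exact absurd he h
      · rw [Finset.mem_range] at he
        rw [coeff_eq_zero_of_natDegree_lt (by omega), map_zero, map_zero]
    have h5 : hκ (u.coeff e) ∈ Set.range (algebraMap FF Ω) :=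
      (InfiniteGalois.mem_range_algebraMap_iff_fixed _).2 hfix
    obtain ⟨y, hy⟩ := h5
    have h6 : IsAlgebraic (PowerSeries k) y := by
      refine (isAlgebraic_algebraMap_iff (algebraMap FF Ω).injective).1 ?_
      rw [hy]; exact hκalg _
    obtain ⟨a, b, hb, hab⟩ := frac_algebraic ratFunc_algebraic h6
    refine ⟨a, b, hb, ?_⟩
    apply hκinj
    have h7 := congrArg (algebraMap FF Ω) hab
    rw [map_mul, hy, ← IsScalarTower.algebraMap_apply, ← IsScalarTower.algebraMap_apply] at h7
    rw [map_mul]
    have h8 : ∀ a, hκ (eκ a) = algebraMap (PowerSeries k) Ω a := fun a => hκ.commutes a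
    rw [h8, h8]
    exact h7
  -- factorization over Ω
  let f' : N → Ω := fun m => algebraMap (PowerSeries (RatFunc k)) Ω (f m)
  have hf'inj : Function.Injective f' := hinjΩ.comp hinj
  have hprod : U.map θ * V.map θ = ∏ m, (X - C (f' m)) := by
    rw [← Polynomial.map_mul, ← h, Polynomial.map_map, hθ, ← Polynomial.map_map, hΦ,
      Polynomial.map_prod]
    simp [f']
  have hU' : (U.map θ).Monic := hU.map _
  have hV' : (V.map θ).Monic := hV.map _
  let S : Finset N := Finset.univ.filter (fun m => f' m ∈ (U.map θ).roots)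
  have hroots : (U.map θ * V.map θ).roots = Finset.univ.val.map f' := by
    rw [hprod, ← Polynomial.roots_multiset_prod_X_sub_C (Finset.univ.val.map f')]
    congr 1
    rw [Multiset.map_map]
    rfl
  have hle : (U.map θ).roots ≤ Finset.univ.val.map f' := by
    rw [← hroots, Polynomial.roots_mul (mul_ne_zero hU'.ne_zero hV'.ne_zero)]
    exact Multiset.le_add_right _ _
  have hnd : (Finset.univ.val.map f' : Multiset Ω).Nodup :=
    Multiset.Nodup.map hf'inj Finset.univ.nodup
  have hrS : (U.map θ).roots = S.val.map f' := by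
    have hnd1 := Multiset.nodup_of_le hle hnd
    have hnd2 : (S.val.map f').Nodup := Multiset.Nodup.map hf'inj S.nodup
    rw [Multiset.Nodup.ext hnd1 hnd2]
    intro a
    constructor
    · intro ha
      have h1 := Multiset.mem_of_le hle ha
      rw [Multiset.mem_map] at h1 ⊢
      obtain ⟨m, _, rfl⟩ := h1
      exact ⟨m, Finset.mem_filter.2 ⟨Finset.mem_univ _, ha⟩, rfl⟩
    · intro ha
      rw [Multiset.mem_map] at ha
      obtain ⟨m, hm, rfl⟩ := ha
      have : m ∈ S := hm
      simp only [S, Finset.mem_filter] at this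
      exact this.2
  have hUS : U.map θ = (∏ m ∈ S, (X - C (f m))).map (algebraMap (PowerSeries (RatFunc k)) Ω) := by
    rw [(IsAlgClosed.splits (U.map θ)).eq_prod_roots_of_monic hU', hrS, Polynomial.map_prod,
      Multiset.map_map]
    simp only [Polynomial.map_sub, map_X, map_C]
    rfl
  have hcoef : ∀ j, θ (U.coeff j) = algebraMap (PowerSeries (RatFunc k)) Ω
      ((∏ m ∈ S, (X - C (f m))).coeff j) := by
    intro j
    rw [← coeff_map, hUS, coeff_map]
  -- common denominator
  choose a b hb hab using fun j e => claimA (U.coeff j) _ (hcoef j) e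
  let J := Finset.range (U.natDegree + 1)
  let D := J.sup fun j => (U.coeff j).natDegree
  let E := Finset.range (D + 1)
  let B : PowerSeries k := ∏ j ∈ J, ∏ e ∈ E, b j e
  have hB : B ≠ 0 := Finset.prod_ne_zero_iff.2 fun j _ => Finset.prod_ne_zero_iff.2 fun e _ => hb j e
  have hBc : ∀ j e, ∃ a', eκ B * (U.coeff j).coeff e = eκ a' := by
    intro j e
    by_cases hj : j ∈ J
    · by_cases he : e ∈ E
      · refine ⟨(∏ j' ∈ J.erase j, ∏ e ∈ E, b j' e) * (∏ e' ∈ E.erase e, b j e') * a j e, ?_⟩
        rw [map_mul, ← hab, ← mul_assoc, ← map_mul]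
        congr 2
        simp only [B]
        rw [← Finset.mul_prod_erase J _ hj, ← Finset.mul_prod_erase E _ he]
        ring
      · refine ⟨0, ?_⟩
        have h1 : (U.coeff j).natDegree ≤ D := Finset.le_sup (f := fun j => (U.coeff j).natDegree) hj
        rw [coeff_eq_zero_of_natDegree_lt, mul_zero, map_zero]
        simp only [E, Finset.mem_range] at he
        omega
    · refine ⟨0, ?_⟩
      simp only [J, Finset.mem_range] at hj
      rw [coeff_eq_zero_of_natDegree_lt (p := U) (by omega), coeff_zero, mul_zero, map_zero]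
  choose a' ha' using hBc
  have hfin := hirr0 S (C B) (C_ne_zero.2 hB) (by
    intro j
    refine ⟨∑ e ∈ Finset.range ((U.coeff j).natDegree + 1), C (a' j e) * X ^ e, ?_⟩
    apply hinjΩ
    have h1 : ∀ P, algebraMap (PowerSeries (RatFunc k)) Ω (iot k P) = θ (P.map eκ) := by
      intro P
      have := congrArg (fun ψ => ψ P) hθ
      simp only [RingHom.comp_apply, coe_mapRingHom] at this
      exact this.symm
    rw [map_mul, ← hcoef, h1, h1, ← map_mul]
    congr 1
    rw [Polynomial.map_sum, map_C]
    simp only [Polynomial.map_mul, map_C, Polynomial.map_pow, map_X, ← ha']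
    conv_rhs => rw [(U.coeff j).as_sum_range_C_mul_X_pow, Finset.mul_sum]
    apply Finset.sum_congr rfl
    intro e _
    rw [C_mul, mul_assoc])
  have hdegU : U.natDegree = S.card := by
    rw [← hU.natDegree_map θ, hUS, Polynomial.map_prod,
      natDegree_prod_of_monic _ _ fun m _ => by
        rw [Polynomial.map_sub, map_X, map_C]; exact monic_X_sub_C _]
    simp only [Polynomial.map_sub, map_X, map_C, natDegree_X_sub_C, Finset.sum_const,
      smul_eq_mul, mul_one]
  rcases hfin with hS | hS
  · left
    rw [hS, Finset.card_empty] at hdegU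
    exact hU.natDegree_eq_zero.1 hdegU
  · right
    have h1 : (U.map θ * V.map θ).natDegree = Fintype.card N := by
      rw [hprod, natDegree_prod_of_monic _ _ fun m _ => monic_X_sub_C _]
      simp only [natDegree_X_sub_C, Finset.sum_const, Finset.card_univ, smul_eq_mul, mul_one]
    rw [hU'.natDegree_mul hV', hU.natDegree_map, hV.natDegree_map, hdegU, hS,
      Finset.card_univ] at h1
    exact hV.natDegree_eq_zero.1 (by omega)

end Pool.Agent.H47.Patch
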