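import Mathlib

/-! Power series with coefficients in a subring, contraction principle, finite Fourier transform,
binomial roots. -/

set_option linter.unusedSectionVars false

namespace Pool.Agent.H47.Patch

open PowerSeries

section PS

variable {R : Type*} [CommRing R]

/-- power series with all coefficients in a subring -/
def PS (S : Subring R) : Subring R⟦X⟧ where
  carrier := {u | ∀ r, coeff r u ∈ S}
  mul_mem' := by
    intro a b ha hb r
    rw [coeff_mul]
    exact sum_mem fun x _ => mul_mem (ha _) (hb _)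
  one_mem' := by
    intro r
    rw [coeff_one]
    split_ifs
    · exact one_mem _
    · exact zero_mem _
  add_mem' := by
    intro a b ha hb r
    rw [map_add]
    exact add_mem (ha r) (hb r)
  zero_mem' := by
    intro r
    rw [map_zero]
    exact zero_mem _
  neg_mem' := by
    intro a ha r
    rw [map_neg]
    exact neg_mem (ha r)

lemma mem_PS {S : Subring R} {u : R⟦X⟧} : u ∈ PS S ↔ ∀ r, coeff r u ∈ S := Iff.rfl

lemma PS_mono {S S' : Subring R} (h : S ≤ S') : PS S ≤ PS S' := fun _ hu r => h (hu r)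

lemma C_mem_PS {S : Subring R} {c : R} (hc : c ∈ S) : C c ∈ PS S := by
  intro r
  rw [coeff_C]
  split_ifs
  · exact hc
  · exact zero_mem _

lemma X_mem_PS {S : Subring R} : (X : R⟦X⟧) ∈ PS S := by
  intro r
  rw [coeff_X]
  split_ifs
  · exact one_mem _
  · exact zero_mem _

/-- A power series with constant term `1` minus `1`, divided by `X`. -/
noncomputable def tl (u : R⟦X⟧) : R⟦X⟧ := mk fun n => coeff (n + 1) u

lemma eq_tl (u : R⟦X⟧) : u = C (constantCoeff u) + X * tl u := by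
  ext n
  cases n with
  | zero => simp
  | succ n => simp [coeff_succ_X_mul, tl]

lemma tl_mem {S : Subring R} {u : R⟦X⟧} (hu : u ∈ PS S) : tl u ∈ PS S := by
  intro r
  rw [tl, coeff_mk]
  exact hu _

theorem exists_fix {N : Type*} (T : (N → R⟦X⟧) → (N → R⟦X⟧))
    (hT : ∀ r f g, (∀ m t, t ≤ r → coeff t (f m) = coeff t (g m)) →
      ∀ m t, t ≤ r → coeff t (T f m) = coeff t (T g m)) (f0 : N → R⟦X⟧) :
    ∃ f : N → R⟦X⟧, ∀ m, f m = f0 m + X * T f m := by
  let F : ℕ → N → R⟦X⟧ := fun n => Nat.rec f0 (fun _ g m => f0 m + X * T g m) n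
  have hF0 : F 0 = f0 := rfl
  have hFs : ∀ n, F (n + 1) = fun m => f0 m + X * T (F n) m := fun n => rfl
  have h1 : ∀ n m t, t ≤ n → coeff t (F (n + 1) m) = coeff t (F n m) := by
    intro n
    induction n with
    | zero =>
      intro m t ht
      obtain rfl : t = 0 := by omega
      rw [hFs, hF0]
      simp
    | succ n ih =>
      intro m t ht
      rw [hFs (n + 1), hFs n]
      simp only [map_add]
      congr 1
      cases t with
      | zero => simp
      | succ t =>
        rw [coeff_succ_X_mul, coeff_succ_X_mul]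
        have h2 : ∀ m t, t ≤ n → coeff t (F (n + 1) m) = coeff t (F n m) := ih
        have h3 := hT n (F (n + 1)) (F n) h2 m t (by omega)
        rw [hFs n] at h3
        exact h3
  have h2 : ∀ n m t, t ≤ n → coeff t (F n m) = coeff t (F t m) := by
    intro n
    induction n with
    | zero => intro m t ht; obtain rfl : t = 0 := by omega
              rfl
    | succ n ih =>
      intro m t ht
      rcases Nat.lt_or_ge t (n + 1) with h | h
      · rw [h1 n m t (by omega), ih m t (by omega)]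
      · obtain rfl : t = n + 1 := by omega
        rfl
  refine ⟨fun m => mk fun t => coeff t (F t m), ?_⟩
  intro m
  ext t
  rw [coeff_mk, map_add]
  cases t with
  | zero => rw [hF0]; simp
  | succ t =>
    rw [hFs]
    simp only [map_add]
    congr 1
    rw [coeff_succ_X_mul, coeff_succ_X_mul]
    refine hT t _ _ ?_ m t le_rfl
    intro m' t' ht'
    rw [coeff_mk, h2 t m' t' ht']

end PS

section DFT

variable {k V : Type*} [Field k] [AddCommGroup V] [Module k V]

lemma geom_root {ζ : k} {n : ℕ} (hζ : IsPrimitiveRoot ζ n) (hn : 0 < n) (a b : ℕ) :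
    ∑ j ∈ Finset.range n, ζ ^ (j * a) * (ζ ^ (j * b))⁻¹ = if a % n = b % n then (n : k) else 0 := by
  have hz : ζ ≠ 0 := hζ.ne_zero hn.ne'
  have h1 : ∀ j, ζ ^ (j * a) * (ζ ^ (j * b))⁻¹ = (ζ ^ a * (ζ ^ b)⁻¹) ^ j := by
    intro j
    rw [mul_pow, inv_pow, ← pow_mul, ← pow_mul, mul_comm a j, mul_comm b j]
  simp only [h1]
  split_ifs with h
  · have h2 : ζ ^ a * (ζ ^ b)⁻¹ = 1 := by
      have : ζ ^ a = ζ ^ b := by
        rw [← pow_mod_orderOf, ← hζ.eq_orderOf, h, hζ.eq_orderOf, pow_mod_orderOf]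
      rw [this, mul_inv_cancel₀ (pow_ne_zero _ hz)]
    rw [h2]; simp
  · have h2 : ζ ^ a * (ζ ^ b)⁻¹ ≠ 1 := by
      intro h3
      apply h
      have h4 : ζ ^ a = ζ ^ b := by
        have := congrArg (· * ζ ^ b) h3
        simpa [mul_assoc, inv_mul_cancel₀ (pow_ne_zero b hz)] using this
      apply hζ.pow_inj (Nat.mod_lt _ hn) (Nat.mod_lt _ hn)
      have h5 : ∀ c, ζ ^ (c % n) = ζ ^ c := by
        intro c
        conv_rhs => rw [← pow_mod_orderOf, ← hζ.eq_orderOf]
      rw [h5, h5, h4]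
    have h3 : (ζ ^ a * (ζ ^ b)⁻¹) ^ n = 1 := by
      rw [mul_pow, inv_pow, ← pow_mul, ← pow_mul, mul_comm a n, mul_comm b n, pow_mul, pow_mul,
        hζ.pow_eq_one]
      simp
    have h4 := geom_sum_eq h2 n
    rw [h4, h3, sub_self, zero_div]

lemma sum_range_shift {φ : ℕ → V} {n : ℕ} (hφ : ∀ l, φ (l + n) = φ l) (a : ℕ) :
    ∑ l ∈ Finset.range n, φ (l + a) = ∑ l ∈ Finset.range n, φ l := by
  induction a with
  | zero => simp
  | succ a ih =>
    rw [← ih]
    have h1 := Finset.sum_range_succ (fun l => φ (l + a)) n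
    have h2 := Finset.sum_range_succ' (fun l => φ (l + a)) n
    rw [h1] at h2
    have h3 : φ (n + a) = φ (0 + a) := by rw [zero_add, add_comm n a, hφ]
    rw [h3] at h2
    have h4 := add_right_cancel h2
    rw [h4]
    apply Finset.sum_congr rfl
    intro l _
    congr 1
    omega

/-- finite Fourier transform of an `n`-periodic sequence -/
noncomputable def dft (ζ : k) (n : ℕ) (φ : ℕ → V) (j : ℕ) : V :=
  (n : k)⁻¹ • ∑ l ∈ Finset.range n, (ζ ^ (j * l))⁻¹ • φ l

lemma dft_inv [CharZero k] {ζ : k} {n : ℕ} (hζ : IsPrimitiveRoot ζ n) (hn : 0 < n) {φ : ℕ → V}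
    (hφ : ∀ l, φ (l + n) = φ l) (l : ℕ) :
    ∑ j ∈ Finset.range n, ζ ^ (j * l) • dft ζ n φ j = φ l := by
  have hper : φ (l % n) = φ l := by
    have : ∀ q r, φ (r + q * n) = φ r := by
      intro q
      induction q with
      | zero => intro r; simp
      | succ q ih => intro r; rw [show r + (q + 1) * n = (r + q * n) + n by ring, hφ, ih]
    conv_rhs => rw [← Nat.mod_add_div l n, mul_comm n]
    rw [this]
  simp only [dft, Finset.smul_sum, smul_smul]
  rw [Finset.sum_comm]
  have h1 : ∀ l' ∈ Finset.range n, ∑ j ∈ Finset.range n,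
      (ζ ^ (j * l) * ((n : k)⁻¹ * (ζ ^ (j * l'))⁻¹)) • φ l'
      = if l' = l % n then φ l' else 0 := by
    intro l' hl'
    rw [Finset.mem_range] at hl'
    rw [← Finset.sum_smul]
    have h2 : ∑ j ∈ Finset.range n, ζ ^ (j * l) * ((n : k)⁻¹ * (ζ ^ (j * l'))⁻¹)
        = (n : k)⁻¹ * ∑ j ∈ Finset.range n, ζ ^ (j * l) * (ζ ^ (j * l'))⁻¹ := by
      rw [Finset.mul_sum]
      apply Finset.sum_congr rfl
      intro j _; ring
    rw [h2, geom_root hζ hn, Nat.mod_eq_of_lt hl']
    have hn' : (n : k) ≠ 0 := by exact_mod_cast hn.ne'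
    by_cases h : l % n = l'
    · rw [if_pos h, if_pos h.symm, inv_mul_cancel₀ hn', one_smul]
    · rw [if_neg h, if_neg (fun h' => h h'.symm), mul_zero, zero_smul]
  rw [Finset.sum_congr rfl h1, Finset.sum_ite_eq' (Finset.range n) (l % n)]
  rw [if_pos (Finset.mem_range.2 (Nat.mod_lt _ hn)), hper]

lemma dft_shift [CharZero k] {ζ : k} {n : ℕ} (hζ : IsPrimitiveRoot ζ n) (hn : 0 < n) {φ : ℕ → V}
    (hφ : ∀ l, φ (l + n) = φ l) (a j : ℕ) :
    dft ζ n (fun l => φ (l + a)) j = ζ ^ (j * a) • dft ζ n φ j := by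
  have hz : ζ ≠ 0 := hζ.ne_zero hn.ne'
  rw [dft, dft, smul_comm (ζ ^ (j * a)) ((n : k)⁻¹)]
  congr 1
  have h1 := sum_range_shift (φ := fun l => (ζ ^ (j * l))⁻¹ • φ l) (n := n) (by
    intro l
    rw [hφ, mul_add, pow_add, mul_comm j n, pow_mul ζ n j, hζ.pow_eq_one, one_pow, mul_one]) a
  rw [← h1, Finset.smul_sum]
  apply Finset.sum_congr rfl
  intro l _
  rw [smul_smul, mul_add, pow_add, mul_inv, mul_comm _ (ζ ^ (j * a))⁻¹, ← mul_assoc,
    mul_inv_cancel₀ (pow_ne_zero _ hz), one_mul]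

lemma dft_dft [CharZero k] {ζ : k} {n : ℕ} (hζ : IsPrimitiveRoot ζ n) (hn : 0 < n) {β : ℕ → V}
    (j : ℕ) (hj : j < n) :
    dft ζ n (fun l => ∑ i ∈ Finset.range n, ζ ^ (i * l) • β i) j = β j := by
  have hz : ζ ≠ 0 := hζ.ne_zero hn.ne'
  simp only [dft, Finset.smul_sum, smul_smul]
  rw [Finset.sum_comm]
  have h1 : ∀ i ∈ Finset.range n, ∑ l ∈ Finset.range n,
      ((n : k)⁻¹ * ((ζ ^ (j * l))⁻¹ * ζ ^ (i * l))) • β i = if i = j then β i else 0 := by
    intro i hi
    rw [Finset.mem_range] at hi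
    rw [← Finset.sum_smul]
    have h2 : ∑ l ∈ Finset.range n, (n : k)⁻¹ * ((ζ ^ (j * l))⁻¹ * ζ ^ (i * l))
        = (n : k)⁻¹ * ∑ l ∈ Finset.range n, ζ ^ (l * i) * (ζ ^ (l * j))⁻¹ := by
      rw [Finset.mul_sum]
      apply Finset.sum_congr rfl
      intro l _; rw [mul_comm j l, mul_comm i l]; ring
    rw [h2, geom_root hζ hn, Nat.mod_eq_of_lt hi, Nat.mod_eq_of_lt hj]
    have hn' : (n : k) ≠ 0 := by exact_mod_cast hn.ne'
    by_cases h : i = j
    · rw [if_pos h, if_pos h, inv_mul_cancel₀ hn', one_smul]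
    · rw [if_neg h, if_neg h, mul_zero, zero_smul]
  rw [Finset.sum_congr rfl h1, Finset.sum_ite_eq' (Finset.range n) j,
    if_pos (Finset.mem_range.2 hj)]

end DFT

section root

variable {R : Type*} [Field R] [CharZero R]

/-- `(1 + w z)^r` as a power series in `z` -/
noncomputable def bin (r : ℚ) (w : R) : R⟦X⟧ := rescale w (binomialSeries R r)

lemma bin_add (r s : ℚ) (w : R) : bin (r + s) w = bin r w * bin s w := by
  rw [bin, binomialSeries_add, map_mul]; rfl

lemma bin_zero (w : R) : bin 0 w = 1 := by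
  rw [bin, binomialSeries_zero, map_one]

lemma bin_nat (n : ℕ) (w : R) : bin (n : ℚ) w = (1 + C w * X) ^ n := by
  rw [bin, binomialSeries_nat, map_pow, map_add, map_one, rescale_X]

lemma bin_pow (r : ℚ) (w : R) (n : ℕ) : bin r w ^ n = bin (n * r) w := by
  induction n with
  | zero => simp [bin_zero]
  | succ n ih =>
    rw [pow_succ, ih, ← bin_add]
    congr 1
    push_cast; ring

/-- the `n`-th root of `1 + w z` -/
noncomputable def rt (n : ℕ) (w : R) : R⟦X⟧ := bin (1 / n : ℚ) w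

/-- its inverse -/
noncomputable def rt' (n : ℕ) (w : R) : R⟦X⟧ := bin (-(1 / n : ℚ)) w

lemma rt_pow {n : ℕ} (hn : 0 < n) (w : R) : rt n w ^ n = 1 + C w * X := by
  have hn' : (n : ℚ) ≠ 0 := by exact_mod_cast hn.ne'
  have := bin_nat 1 w
  rw [pow_one] at this
  rw [rt, bin_pow, ← this]
  congr 1
  push_cast
  field_simp

lemma rt_mul_rt' (n : ℕ) (w : R) : rt n w * rt' n w = 1 := by
  rw [rt, rt', ← bin_add, add_neg_cancel, bin_zero]

lemma constantCoeff_bin (r : ℚ) (w : R) : constantCoeff (bin r w) = 1 := by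
  rw [← coeff_zero_eq_constantCoeff_apply, bin, coeff_rescale, binomialSeries_coeff]
  simp

lemma bin_mem (r : ℚ) (w : R) {S : Subring R} (hw : w ∈ S) (hq : ∀ q : ℚ, (q : R) ∈ S) :
    bin r w ∈ PS S := by
  intro t
  rw [bin, coeff_rescale, binomialSeries_coeff]
  refine mul_mem (pow_mem hw _) ?_
  rw [Rat.smul_def, mul_one]
  exact hq _

lemma bin_map {R' : Type*} [Field R'] [CharZero R'] (σ : R →+* R') (r : ℚ) (w : R) :
    PowerSeries.map σ (bin r w) = bin r (σ w) := by
  ext t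
  rw [coeff_map, bin, bin, coeff_rescale, coeff_rescale, binomialSeries_coeff,
    binomialSeries_coeff, map_mul, map_pow, Rat.smul_def, Rat.smul_def, mul_one, mul_one,
    map_ratCast]

end root

end Pool.Agent.H47.Patch
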