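import Pool.Agent.H47.Patch.PlaceRat

/-! Constants of the patched ring are polynomials in `x` over `k[[z]]`, up to a denominator. -/

set_option linter.unusedSectionVars false

namespace Pool.Agent.H47.Patch

open Polynomial

variable {k : Type*} [Field k] {I : Type*} [Fintype I] {c : I → k} {w : I → RatFunc k}
  {r : I → k[X]}

/-- `∏ (x - c_i)` -/
noncomputable def qq (c : I → k) : k[X] := ∏ i, (X - C (c i))

lemma qq_natDegree (c : I → k) : (qq c).natDegree = Fintype.card I := by
  rw [qq, natDegree_prod_of_monic _ _ (fun i _ => monic_X_sub_C _)]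
  simp

lemma qq_monic (c : I → k) : (qq c).Monic := monic_prod_of_monic _ _ fun i _ => monic_X_sub_C _

lemma qq_ne_zero (c : I → k) : qq c ≠ 0 := (qq_monic c).ne_zero

lemma qqR_ne_zero (c : I → k) : algebraMap k[X] (RatFunc k) (qq c) ≠ 0 := by
  rw [Ne, map_eq_zero_iff _ algebraMap_injective']; exact qq_ne_zero c

lemma w_mul_qq [DecidableEq I]
    (hw : ∀ i, w i * algebraMap k[X] (RatFunc k) (X - C (c i)) = algebraMap k[X] (RatFunc k) (r i))
    (i : I) : w i * algebraMap k[X] (RatFunc k) (qq c)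
      = algebraMap k[X] (RatFunc k) (r i * ∏ j ∈ Finset.univ.erase i, (X - C (c j))) := by
  rw [qq, ← Finset.mul_prod_erase _ _ (Finset.mem_univ i), map_mul, ← mul_assoc, hw, map_mul]

lemma AI_poly (hd : ∀ i, (r i).natDegree ≤ 1)
    (hw : ∀ i, w i * algebraMap k[X] (RatFunc k) (X - C (c i)) = algebraMap k[X] (RatFunc k) (r i))
    {u : RatFunc k} (hu : u ∈ AI k w) :
    ∃ (M : ℕ) (p : k[X]), u * algebraMap k[X] (RatFunc k) (qq c) ^ M
      = algebraMap k[X] (RatFunc k) p ∧ p.natDegree ≤ M * Fintype.card I := by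
  classical
  rw [mem_AI] at hu
  induction hu using Algebra.adjoin_induction with
  | mem x hx =>
    obtain ⟨i, rfl⟩ := hx
    refine ⟨1, _, by rw [pow_one]; exact w_mul_qq hw i, ?_⟩
    refine (natDegree_mul_le).trans ?_
    have h1 : (∏ j ∈ Finset.univ.erase i, (X - C (c j))).natDegree = Fintype.card I - 1 := by
      rw [natDegree_prod_of_monic _ _ (fun i _ => monic_X_sub_C _)]
      simp
    have h2 : 0 < Fintype.card I := Fintype.card_pos_iff.2 ⟨i⟩
    have h3 := hd i
    omega
  | algebraMap a =>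
    refine ⟨0, C a, ?_, by simp⟩
    rw [pow_zero, mul_one]
    simp [RatFunc.algebraMap_eq_C]
  | add x y _ _ hx hy =>
    obtain ⟨M, p, h, hp⟩ := hx
    obtain ⟨M', p', h', hp'⟩ := hy
    refine ⟨M + M', p * qq c ^ M' + p' * qq c ^ M, ?_, ?_⟩
    · rw [map_add, map_mul, map_mul, ← h, ← h', map_pow, map_pow]; ring
    · refine (natDegree_add_le _ _).trans (max_le ?_ ?_)
      · refine natDegree_mul_le.trans ?_
        rw [natDegree_pow, qq_natDegree, add_mul]
        omega
      · refine natDegree_mul_le.trans ?_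
        rw [natDegree_pow, qq_natDegree, add_mul]
        omega
  | mul x y _ _ hx hy =>
    obtain ⟨M, p, h, hp⟩ := hx
    obtain ⟨M', p', h', hp'⟩ := hy
    refine ⟨M + M', p * p', ?_, ?_⟩
    · rw [map_mul, ← h, ← h']; ring
    · refine natDegree_mul_le.trans ?_
      rw [add_mul]
      omega

lemma bounded_poly (hc : Function.Injective c) (hd : ∀ i, (r i).natDegree ≤ 1)
    (hr : ∀ i, (r i).eval (c i) ≠ 0)
    (hw : ∀ i, w i * algebraMap k[X] (RatFunc k) (X - C (c i)) = algebraMap k[X] (RatFunc k) (r i))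
    {u : RatFunc k} (hu : u ∈ AI k w) {D : ℕ} (hD : ∀ i, (w i)⁻¹ ^ D * u ∈ Oc (c i)) :
    ∃ (p : k[X]), algebraMap k[X] (RatFunc k) (qq c) ^ D * u
      = algebraMap k[X] (RatFunc k) p ∧ p.natDegree ≤ D * Fintype.card I := by
  classical
  obtain ⟨M0, p0, h0, hp0⟩ := AI_poly hd hw hu
  -- make the exponent at least `D`
  obtain ⟨M, p, hMD, h, hp⟩ : ∃ (M : ℕ) (p : k[X]), D ≤ M ∧
      u * algebraMap k[X] (RatFunc k) (qq c) ^ M = algebraMap k[X] (RatFunc k) p ∧
      p.natDegree ≤ M * Fintype.card I := by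
    refine ⟨M0 + D, p0 * qq c ^ D, by omega, ?_, ?_⟩
    · rw [pow_add, ← mul_assoc, h0, map_mul, map_pow]
    · refine natDegree_mul_le.trans ?_
      rw [natDegree_pow, qq_natDegree, add_mul]
      omega
  have hdiv : ∀ i, (X - C (c i)) ^ (M - D) ∣ p := by
    intro i
    have hri : r i ≠ 0 := by intro h0; have := hr i; rw [h0] at this; simp at this
    have hwi0 : w i ≠ 0 := by
      intro h0
      have := hw i
      rw [h0, zero_mul] at this
      have h1 := this.symm
      rw [map_eq_zero_iff _ algebraMap_injective'] at h1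
      exact hri h1
    have hwi : (w i)⁻¹ * algebraMap k[X] (RatFunc k) (r i)
        = algebraMap k[X] (RatFunc k) (X - C (c i)) := by
      rw [← hw i, ← mul_assoc, inv_mul_cancel₀ hwi0, one_mul]
    obtain ⟨p', v, hv, h'⟩ := hD i
    set Q := ∏ j ∈ Finset.univ.erase i, (X - C (c j)) with hQ
    have hqq : qq c = (X - C (c i)) * Q := by
      rw [qq, ← Finset.mul_prod_erase _ _ (Finset.mem_univ i)]
    -- p (x-c)^D v = p' r^D q^M
    have h1 : algebraMap k[X] (RatFunc k) (p * ((X - C (c i)) ^ D * v))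
        = algebraMap k[X] (RatFunc k) (p' * r i ^ D * qq c ^ M) := by
      have h2 : (w i)⁻¹ ^ D * algebraMap k[X] (RatFunc k) (r i) ^ D
          = algebraMap k[X] (RatFunc k) (X - C (c i)) ^ D := by rw [← mul_pow, hwi]
      rw [map_mul, map_mul, map_pow, map_mul, map_mul, map_pow, map_pow, ← h, ← h', ← h2]
      ring
    have h2 := algebraMap_injective' h1
    have h3 : (X - C (c i)) ^ D * (p * v) = (X - C (c i)) ^ D * ((X - C (c i)) ^ (M - D) *
        (p' * r i ^ D * Q ^ M)) := by
      calc (X - C (c i)) ^ D * (p * v) = p * ((X - C (c i)) ^ D * v) := by ring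
        _ = p' * r i ^ D * ((X - C (c i)) ^ (D + (M - D)) * Q ^ M) := by
            rw [h2, hqq, mul_pow, Nat.add_sub_cancel' hMD]
        _ = _ := by rw [pow_add]; ring
    have h4 := mul_left_cancel₀ (pow_ne_zero _ (X_sub_C_ne_zero (c i))) h3
    exact X_sub_C_pow_dvd hv (by rw [h4]; exact dvd_mul_right _ _)
  have hprod : qq c ^ (M - D) ∣ p := by
    rw [qq, ← Finset.prod_pow]
    apply Finset.prod_dvd_of_coprime
    · intro i _ j _ hij
      apply IsCoprime.pow
      exact pairwise_coprime_X_sub_C hc hij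
    · intro i _
      exact hdiv i
  obtain ⟨p', hp'⟩ := hprod
  refine ⟨p', ?_, ?_⟩
  · have h1 : algebraMap k[X] (RatFunc k) (qq c) ^ (M - D) *
        (algebraMap k[X] (RatFunc k) (qq c) ^ D * u)
        = algebraMap k[X] (RatFunc k) (qq c) ^ (M - D) * algebraMap k[X] (RatFunc k) p' := by
      rw [← map_pow _ _ (M - D), ← map_mul, ← hp', ← h, ← mul_assoc, map_pow, ← pow_add,
        Nat.sub_add_cancel hMD, mul_comm]
    exact mul_left_cancel₀ (pow_ne_zero _ (qqR_ne_zero c)) h1
  · by_cases hp0 : p' = 0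
    · rw [hp0]; simp
    · rw [hp', natDegree_mul (pow_ne_zero _ (qq_ne_zero c)) hp0, natDegree_pow, qq_natDegree] at hp
      have : M * Fintype.card I = (M - D) * Fintype.card I + D * Fintype.card I := by
        rw [← add_mul, Nat.sub_add_cancel hMD]
      omega

/-- the embedding `k[[z]][x] → k(x)[[z]]` -/
noncomputable def iot (k : Type*) [Field k] : Polynomial (PowerSeries k) →+* PowerSeries (RatFunc k) :=
  eval₂RingHom (PowerSeries.map (algebraMap k (RatFunc k))) (PowerSeries.C RatFunc.X)

lemma iot_C (u : PowerSeries k) : iot k (C u) = PowerSeries.map (algebraMap k (RatFunc k)) u := by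
  simp [iot]

lemma iot_X : iot k X = PowerSeries.C RatFunc.X := by
  simp [iot]

lemma coeff_iot (P : Polynomial (PowerSeries k)) (r : ℕ) :
    PowerSeries.coeff r (iot k P)
      = algebraMap k[X] (RatFunc k) (P.sum fun e a => C (PowerSeries.coeff r a) * X ^ e) := by
  induction P using Polynomial.induction_on' with
  | add p q hp hq =>
    rw [map_add, map_add, hp, hq, ← map_add]
    congr 1
    rw [sum_add_index]
    · intro i; simp
    · intro i a b; simp [add_mul]
  | monomial e a =>
    rw [sum_monomial_index _ _ (by simp), ← C_mul_X_pow_eq_monomial, map_mul, map_pow, iot_C, iot_X,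
      ← map_pow, PowerSeries.coeff_mul_C, PowerSeries.coeff_map, map_mul, map_pow,
      RatFunc.algebraMap_C, RatFunc.algebraMap_X, RatFunc.algebraMap_eq_C]

lemma iot_injective : Function.Injective (iot k) := by
  rw [injective_iff_map_eq_zero]
  intro P hP
  ext e r
  have h1 := congrArg (PowerSeries.coeff r) hP
  rw [coeff_iot, map_zero, map_eq_zero_iff _ algebraMap_injective'] at h1
  have h2 := congrArg (fun p => p.coeff e) h1
  simp only [coeff_zero, Polynomial.sum, finset_sum_coeff, coeff_C_mul, coeff_X_pow] at h2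
  rw [Finset.sum_eq_single e] at h2
  · simpa using h2
  · intro b _ hb
    rw [if_neg (Ne.symm hb), mul_zero]
  · intro he
    rw [notMem_support_iff.1 he]
    simp

lemma iot_poly (p : k[X]) : iot k (p.map (PowerSeries.C)) = PowerSeries.C (algebraMap k[X] (RatFunc k) p) := by
  induction p using Polynomial.induction_on' with
  | add p q hp hq => rw [Polynomial.map_add, map_add, hp, hq, map_add, map_add]
  | monomial e a =>
    rw [Polynomial.map_monomial, ← C_mul_X_pow_eq_monomial, map_mul, map_pow, iot_C, iot_X,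
      ← C_mul_X_pow_eq_monomial, map_mul, map_mul, map_pow, map_pow, RatFunc.algebraMap_X]
    congr 1
    rw [PowerSeries.map_C, RatFunc.algebraMap_C, RatFunc.algebraMap_eq_C]

theorem const_poly (hc : Function.Injective c) (hd : ∀ i, (r i).natDegree ≤ 1)
    (hr : ∀ i, (r i).eval (c i) ≠ 0)
    (hw : ∀ i, w i * algebraMap k[X] (RatFunc k) (X - C (c i)) = algebraMap k[X] (RatFunc k) (r i))
    {u : PowerSeries (RatFunc k)} (hu : u ∈ PS (AI k w))
    (hB : ∀ i, u ∈ (placeAt (c i) (w i) (r i) (hr i) (hw i)).B) :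
    ∃ D, ∀ D' ≥ D, ∃ P : Polynomial (PowerSeries k),
      iot k P = PowerSeries.C (algebraMap k[X] (RatFunc k) (qq c) ^ D') * u := by
  choose E hE using hB
  have hwinv : ∀ i, (w i)⁻¹ ∈ Oc (c i) := fun i =>
    (placeAt (c i) (w i) (r i) (hr i) (hw i)).inv_mem
  refine ⟨Finset.univ.sup E, ?_⟩
  intro D' hD'
  have h1 : ∀ t i, (w i)⁻¹ ^ D' * PowerSeries.coeff t u ∈ Oc (c i) := by
    intro t i
    have h2 := hE i t
    rw [PowerSeries.coeff_C_mul] at h2
    have h3 : E i ≤ D' := (Finset.le_sup (Finset.mem_univ i)).trans hD'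
    rw [← Nat.sub_add_cancel h3, pow_add, mul_assoc]
    exact mul_mem (pow_mem (hwinv i) _) h2
  choose p hp hpd using fun t => bounded_poly hc hd hr hw (hu t) (h1 t)
  refine ⟨∑ e ∈ Finset.range (D' * Fintype.card I + 1),
    C (PowerSeries.mk fun t => (p t).coeff e) * X ^ e, ?_⟩
  ext t
  rw [PowerSeries.coeff_C_mul, hp t, coeff_iot]
  congr 1
  have h2 : ∀ (N : ℕ), (∑ e ∈ Finset.range N,
      C (PowerSeries.mk fun t => (p t).coeff e) * X ^ e : Polynomial (PowerSeries k)).sum
        (fun e a => C (PowerSeries.coeff t a) * X ^ e)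
      = ∑ e ∈ Finset.range N, C ((p t).coeff e) * X ^ e := by
    intro N
    induction N with
    | zero => simp [Polynomial.sum]
    | succ N ih =>
      rw [Finset.sum_range_succ, Finset.sum_range_succ, sum_add_index, ih,
        C_mul_X_pow_eq_monomial, sum_monomial_index, PowerSeries.coeff_mk]
      · simp
      · intro i; simp
      · intro i a b; simp [add_mul]
  rw [h2]
  exact ((p t).as_sum_range_C_mul_X_pow' (by have := hpd t; omega)).symm

end Pool.Agent.H47.Patch
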