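import Pool.Agent.H47.Patch.LI

/-! Places of `k(x)`, and power series over `k(x)` with bounded poles. -/

set_option linter.unusedSectionVars false

namespace Pool.Agent.H47.Patch

open Polynomial

variable {k : Type*} [Field k]

/-- the local ring of `k(x)` at `c` -/
def Oc (c : k) : Subring (RatFunc k) where
  carrier := {u | ∃ p q : k[X], q.eval c ≠ 0 ∧
    u * algebraMap k[X] (RatFunc k) q = algebraMap k[X] (RatFunc k) p}
  mul_mem' := by
    rintro a b ⟨p, q, hq, h⟩ ⟨p', q', hq', h'⟩
    refine ⟨p * p', q * q', by rw [eval_mul]; exact mul_ne_zero hq hq', ?_⟩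
    rw [map_mul, map_mul, ← h, ← h']; ring
  one_mem' := ⟨1, 1, by simp, by simp⟩
  add_mem' := by
    rintro a b ⟨p, q, hq, h⟩ ⟨p', q', hq', h'⟩
    refine ⟨p * q' + p' * q, q * q', by rw [eval_mul]; exact mul_ne_zero hq hq', ?_⟩
    rw [map_mul, map_add, map_mul, map_mul, ← h, ← h']; ring
  zero_mem' := ⟨0, 1, by simp, by simp⟩
  neg_mem' := by
    rintro a ⟨p, q, hq, h⟩
    exact ⟨-p, q, hq, by rw [map_neg, ← h]; ring⟩

lemma algebraMap_injective' : Function.Injective (algebraMap k[X] (RatFunc k)) :=
  RatFunc.algebraMap_injective k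

lemma ev_aux {c : k} {u : RatFunc k} {p q : k[X]} (hq : q.eval c ≠ 0)
    (h : u * algebraMap k[X] (RatFunc k) q = algebraMap k[X] (RatFunc k) p) :
    RatFunc.eval (RingHom.id k) c u = p.eval c / q.eval c := by
  have hq0 : q ≠ 0 := by rintro rfl; simp at hq
  have hqR : algebraMap k[X] (RatFunc k) q ≠ 0 := by
    rwa [Ne, map_eq_zero_iff _ algebraMap_injective']
  have hu : u = algebraMap k[X] (RatFunc k) p / algebraMap k[X] (RatFunc k) q := by
    rw [← h, mul_div_cancel_right₀ _ hqR]
  have h1 : u.num * q = p * u.denom := (RatFunc.num_mul_eq_mul_denom_iff hq0).2 hu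
  have h2 : u.denom ∣ q := by rw [hu]; exact RatFunc.denom_div_dvd p q
  have h3 : u.denom.eval c ≠ 0 := by
    intro h0
    obtain ⟨d, rfl⟩ := h2
    rw [eval_mul, h0, zero_mul] at hq
    exact hq rfl
  have h4 := congrArg (fun r => r.eval c) h1
  simp only [eval_mul] at h4
  rw [RatFunc.eval]
  simp only [← Polynomial.eval_map, Polynomial.map_id]
  rw [div_eq_div_iff h3 hq, h4]

/-- evaluation at `c` -/
noncomputable def evc (c : k) : Oc c →+* k where
  toFun u := RatFunc.eval (RingHom.id k) c u
  map_one' := by simp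
  map_zero' := by simp
  map_mul' := by
    rintro ⟨a, p, q, hq, h⟩ ⟨b, p', q', hq', h'⟩
    show RatFunc.eval (RingHom.id k) c (a * b) = _
    have h1 : (a * b) * algebraMap k[X] (RatFunc k) (q * q')
        = algebraMap k[X] (RatFunc k) (p * p') := by
      rw [map_mul, map_mul, ← h, ← h']; ring
    rw [ev_aux (by rw [eval_mul]; exact mul_ne_zero hq hq') h1, ev_aux hq h, ev_aux hq' h',
      eval_mul, eval_mul]
    field_simp
  map_add' := by
    rintro ⟨a, p, q, hq, h⟩ ⟨b, p', q', hq', h'⟩
    show RatFunc.eval (RingHom.id k) c (a + b) = _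
    have h1 : (a + b) * algebraMap k[X] (RatFunc k) (q * q')
        = algebraMap k[X] (RatFunc k) (p * q' + p' * q) := by
      rw [map_mul, map_add, map_mul, map_mul, ← h, ← h']; ring
    rw [ev_aux (by rw [eval_mul]; exact mul_ne_zero hq hq') h1, ev_aux hq h, ev_aux hq' h',
      eval_mul, eval_add, eval_mul, eval_mul]
    field_simp

lemma evc_eq {c : k} {u : Oc c} {p q : k[X]} (hq : q.eval c ≠ 0)
    (h : (u : RatFunc k) * algebraMap k[X] (RatFunc k) q = algebraMap k[X] (RatFunc k) p) :
    evc c u = p.eval c / q.eval c := ev_aux hq h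

lemma X_sub_C_pow_dvd {c : k} {M : ℕ} {p v : k[X]} (hv : v.eval c ≠ 0)
    (h : (X - C c) ^ M ∣ p * v) : (X - C c) ^ M ∣ p := by
  refine (IsCoprime.pow_left ?_).dvd_of_dvd_mul_right h
  rw [Polynomial.isCoprime_iff_aeval_ne_zero_of_isAlgClosed (k := k) (K := AlgebraicClosure k)]
  intro a
  by_cases ha : aeval a (X - C c) = 0
  · right
    simp only [map_sub, aeval_X, aeval_C, sub_eq_zero] at ha
    rw [ha, aeval_algebraMap_apply, coe_aeval_eq_eval, Ne, map_eq_zero_iff _
      (algebraMap k (AlgebraicClosure k)).injective]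
    exact hv
  · left; exact ha

lemma X_sub_C_ne (c : k) : (X - C c : k[X]) ≠ 0 := X_sub_C_ne_zero c

/-- the place at `c` with local parameter `1/w` -/
noncomputable def placeAt (c : k) (w : RatFunc k) (r : k[X]) (hr : r.eval c ≠ 0)
    (hw : w * algebraMap k[X] (RatFunc k) (X - C c) = algebraMap k[X] (RatFunc k) r) :
    Place k (RatFunc k) w := by
  have hr0 : r ≠ 0 := by rintro rfl; simp at hr
  have hrR : algebraMap k[X] (RatFunc k) r ≠ 0 := by
    rwa [Ne, map_eq_zero_iff _ algebraMap_injective']
  have hXR : algebraMap k[X] (RatFunc k) (X - C c) ≠ 0 := by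
    rw [Ne, map_eq_zero_iff _ algebraMap_injective']; exact X_sub_C_ne c
  have hw0 : w ≠ 0 := by
    rintro rfl
    rw [zero_mul] at hw
    exact hrR hw.symm
  have hwi : w⁻¹ * algebraMap k[X] (RatFunc k) r = algebraMap k[X] (RatFunc k) (X - C c) := by
    rw [← hw, ← mul_assoc, inv_mul_cancel₀ hw0, one_mul]
  have hinv : w⁻¹ ∈ Oc c := ⟨X - C c, r, hr, hwi⟩
  exact
    { O := Oc c
      ev := evc c
      w_ne := hw0
      inv_mem := hinv
      ev_inv := by
        rw [evc_eq hr hwi]
        simp
      alg_mem := by
        intro a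
        refine ⟨C a, 1, by simp, ?_⟩
        rw [map_one, mul_one]
        simp [RatFunc.algebraMap_eq_C]
      div := by
        rintro ⟨u, p, q, hq, h⟩ hu
        rw [evc_eq hq h, div_eq_zero_iff] at hu
        have hp : p.eval c = 0 := hu.resolve_right hq
        obtain ⟨p1, hp1⟩ := dvd_iff_isRoot.2 hp
        refine ⟨r * p1, q, hq, ?_⟩
        show u * w * algebraMap k[X] (RatFunc k) q = _
        calc u * w * algebraMap k[X] (RatFunc k) q
            = w * (u * algebraMap k[X] (RatFunc k) q) := by ring
          _ = (w * algebraMap k[X] (RatFunc k) (X - C c)) * algebraMap k[X] (RatFunc k) p1 := by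
              rw [h, hp1, map_mul]; ring
          _ = _ := by rw [hw, map_mul]
      fin := by
        rintro u ⟨p, q, hq, h⟩ hu0
        have hp0 : p ≠ 0 := by
          rintro rfl
          rw [map_zero, mul_eq_zero] at h
          rcases h with h | h
          · exact hu0 h
          · rw [map_eq_zero_iff _ algebraMap_injective'] at h
            rw [h] at hq; simp at hq
        refine ⟨rootMultiplicity c p + 1, ?_⟩
        rintro ⟨p', q', hq', h'⟩
        set N := rootMultiplicity c p + 1
        have h1 : algebraMap k[X] (RatFunc k) (p * (r ^ N * q'))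
            = algebraMap k[X] (RatFunc k) ((X - C c) ^ N * (p' * q)) := by
          have h2 : w ^ N * algebraMap k[X] (RatFunc k) (X - C c) ^ N
              = algebraMap k[X] (RatFunc k) r ^ N := by rw [← mul_pow, hw]
          rw [map_mul, map_mul, map_pow, map_mul, map_mul, map_pow, ← h, ← h', ← h2]
          ring
        have h2 := algebraMap_injective' h1
        have h3 : (X - C c) ^ N ∣ p := by
          apply X_sub_C_pow_dvd (v := r ^ N * q')
          · rw [eval_mul, eval_pow]
            exact mul_ne_zero (pow_ne_zero _ hr) hq'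
          · rw [h2]; exact dvd_mul_right _ _
        have h4 := (le_rootMultiplicity_iff hp0).2 h3
        omega
      frac := by
        intro u
        obtain ⟨d, hd, hdv⟩ := exists_eq_pow_rootMultiplicity_mul_and_not_dvd u.denom
          (RatFunc.denom_ne_zero u) c
        set M := rootMultiplicity c u.denom
        refine ⟨M, u.num, r ^ M * d, ?_, ?_⟩
        · rw [eval_mul, eval_pow]
          refine mul_ne_zero (pow_ne_zero _ hr) ?_
          intro h0
          exact hdv (dvd_iff_isRoot.2 h0)
        · have h1 : w⁻¹ ^ M * algebraMap k[X] (RatFunc k) r ^ M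
              = algebraMap k[X] (RatFunc k) ((X - C c) ^ M) := by
            rw [← mul_pow, hwi, map_pow]
          have h2 : u * algebraMap k[X] (RatFunc k) u.denom
              = algebraMap k[X] (RatFunc k) u.num := by
            have h3 : algebraMap k[X] (RatFunc k) u.denom ≠ 0 := by
              rw [Ne, map_eq_zero_iff _ algebraMap_injective']
              exact RatFunc.denom_ne_zero u
            have h4 := RatFunc.num_div_denom u
            rw [div_eq_iff h3] at h4
            exact h4.symm
          rw [map_mul, map_pow]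
          calc w⁻¹ ^ M * u * (algebraMap k[X] (RatFunc k) r ^ M * algebraMap k[X] (RatFunc k) d)
              = u * ((w⁻¹ ^ M * algebraMap k[X] (RatFunc k) r ^ M) *
                algebraMap k[X] (RatFunc k) d) := by ring
            _ = u * algebraMap k[X] (RatFunc k) u.denom := by rw [h1, ← map_mul, ← hd]
            _ = _ := h2 }

@[simp] lemma placeAt_O (c : k) (w : RatFunc k) (r : k[X]) (hr : r.eval c ≠ 0)
    (hw : w * algebraMap k[X] (RatFunc k) (X - C c) = algebraMap k[X] (RatFunc k) r) :
    (placeAt c w r hr hw).O = Oc c := rfl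

end Pool.Agent.H47.Patch
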