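import Pool.Agent.H47.Patch.Moeb
import Pool.Agent.H47.Patch.PlaceRat

/-! Möbius actions on `k(x)` and choice of branch points. -/

set_option linter.unusedSectionVars false

namespace Pool.Agent.H47.Patch

open Polynomial

section lft

variable {k L : Type*} [Field k] [Field L] [Algebra k L]

/-- substitution of a transcendental element -/
noncomputable def lft (t : L) (ht : Transcendental k t) : RatFunc k →ₐ[k] L :=
  IsFractionRing.liftAlgHom (g := (aeval t : k[X] →ₐ[k] L)) (transcendental_iff_injective.1 ht)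

lemma lft_alg (t : L) (ht : Transcendental k t) (p : k[X]) :
    lft t ht (algebraMap k[X] (RatFunc k) p) = aeval t p := by
  rw [lft, IsFractionRing.liftAlgHom_apply]
  exact IsFractionRing.lift_algebraMap _ _

lemma lft_X (t : L) (ht : Transcendental k t) : lft t ht RatFunc.X = t := by
  rw [← RatFunc.algebraMap_X, lft_alg, aeval_X]

lemma ratFunc_hom_ext {φ ψ : RatFunc k →+* L}
    (h : ∀ a : k, φ (algebraMap k _ a) = ψ (algebraMap k _ a))
    (hX : φ RatFunc.X = ψ RatFunc.X) : φ = ψ := by
  have h1 : ∀ p : k[X], φ (algebraMap k[X] _ p) = ψ (algebraMap k[X] _ p) := by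
    intro p
    induction p using Polynomial.induction_on' with
    | add p q hp hq => rw [map_add, map_add, map_add, hp, hq]
    | monomial e c =>
      rw [← C_mul_X_pow_eq_monomial, map_mul, map_pow, RatFunc.algebraMap_X, RatFunc.algebraMap_C,
        ← RatFunc.algebraMap_eq_C, map_mul, map_mul, map_pow, map_pow, h, hX]
  ext r
  obtain ⟨p, q, _, rfl⟩ := IsFractionRing.div_surjective (A := k[X]) r
  rw [map_div₀, map_div₀, h1, h1]

end lft

section S

variable {k K F : Type*} [Field k] [Field K] [Field F] [Algebra K F] [Algebra k F]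
  [FiniteDimensional K F]

theorem exists_S {θ : F} (hθ : Transcendental k θ) (ρ : (F ≃ₐ[K] F) → (k →+* k))
    (hρ : ∀ h z, h (algebraMap k F z) = algebraMap k F (ρ h z)) (a b c d : (F ≃ₐ[K] F) → k)
    (hΔ : ∀ h, a h * d h - b h * c h ≠ 0)
    (hM : ∀ h, h θ * (algebraMap k F (c h) * θ + algebraMap k F (d h))
      = algebraMap k F (a h) * θ + algebraMap k F (b h)) :
    ∃ S : (F ≃ₐ[K] F) →* (RatFunc k ≃+* RatFunc k),
      (∀ h (z : k), S h (algebraMap k _ z) = algebraMap k _ (ρ h z)) ∧
      (∀ h, S h RatFunc.X * (algebraMap k _ (c h) * RatFunc.X + algebraMap k _ (d h))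
        = algebraMap k _ (a h) * RatFunc.X + algebraMap k _ (b h)) ∧
      (∀ h r, lft θ hθ (S h r) = h (lft θ hθ r)) := by
  classical
  have hden : ∀ h, algebraMap k F (c h) * θ + algebraMap k F (d h) ≠ 0 :=
    fun h => den_ne' hθ (hΔ h)
  let uu : (F ≃ₐ[K] F) → RatFunc k := fun h =>
    (algebraMap k _ (a h) * RatFunc.X + algebraMap k _ (b h)) /
      (algebraMap k _ (c h) * RatFunc.X + algebraMap k _ (d h))
  have hj : ∀ h, lft θ hθ (uu h) = h θ := by
    intro h
    simp only [uu, map_div₀, map_add, map_mul, lft_X, AlgHom.commutes]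
    rw [← hM, mul_div_cancel_right₀ _ (hden h)]
  let P0 : (F ≃ₐ[K] F) → (k[X] →+* RatFunc k) := fun h =>
    eval₂RingHom ((algebraMap k (RatFunc k)).comp (ρ h)) (uu h)
  have hP0 : ∀ h p, lft θ hθ (P0 h p) = h (aeval θ p) := by
    intro h p
    have h1 : (lft θ hθ : RatFunc k →+* F).comp (P0 h)
        = (h : F →+* F).comp (aeval θ : k[X] →ₐ[k] F).toRingHom := by
      apply Polynomial.ringHom_ext
      · intro z
        show lft θ hθ (eval₂ ((algebraMap k (RatFunc k)).comp (ρ h)) (uu h) (C z))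
          = h (aeval θ (C z))
        rw [eval₂_C, aeval_C, hρ, RingHom.comp_apply, AlgHom.commutes]
      · show lft θ hθ (eval₂ ((algebraMap k (RatFunc k)).comp (ρ h)) (uu h) X) = h (aeval θ X)
        rw [eval₂_X, aeval_X, hj]
    exact congrArg (fun ψ : k[X] →+* F => ψ p) h1
  have hP0i : ∀ h, Function.Injective (P0 h) := by
    intro h p q hpq
    have h1 := congrArg (lft θ hθ) hpq
    rw [hP0, hP0] at h1
    exact (transcendental_iff_injective.1 hθ) (h.injective h1)
  let Sh : (F ≃ₐ[K] F) → (RatFunc k →+* RatFunc k) := fun h => IsFractionRing.lift (hP0i h)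
  have hSp : ∀ h p, Sh h (algebraMap k[X] (RatFunc k) p) = P0 h p :=
    fun h p => IsFractionRing.lift_algebraMap _ p
  have hSk : ∀ h (z : k), Sh h (algebraMap k _ z) = algebraMap k _ (ρ h z) := by
    intro h z
    have h1 : algebraMap k (RatFunc k) z = algebraMap k[X] (RatFunc k) (C z) := by
      rw [RatFunc.algebraMap_C, RatFunc.algebraMap_eq_C]
    rw [h1, hSp]
    show eval₂ ((algebraMap k (RatFunc k)).comp (ρ h)) (uu h) (C z) = _
    rw [eval₂_C]; rfl
  have hSX : ∀ h, Sh h RatFunc.X = uu h := by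
    intro h
    rw [← RatFunc.algebraMap_X, hSp]
    show eval₂ ((algebraMap k (RatFunc k)).comp (ρ h)) (uu h) X = _
    rw [eval₂_X]
  have hjS : ∀ h r, lft θ hθ (Sh h r) = h (lft θ hθ r) := by
    intro h r
    have h1 : ((lft θ hθ : RatFunc k →+* F).comp (Sh h))
        = ((h : F →+* F).comp (lft θ hθ : RatFunc k →+* F)) := by
      apply ratFunc_hom_ext
      · intro z
        simp only [RingHom.comp_apply, hSk]
        show lft θ hθ (algebraMap k _ (ρ h z)) = h (lft θ hθ (algebraMap k _ z))
        rw [AlgHom.commutes, AlgHom.commutes, hρ]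
      · simp only [RingHom.comp_apply, hSX]
        show lft θ hθ (uu h) = h (lft θ hθ RatFunc.X)
        rw [hj, lft_X]
    exact congrArg (fun ψ : RatFunc k →+* F => ψ r) h1
  have hinj : Function.Injective (lft θ hθ) := (lft θ hθ).toRingHom.injective
  have hmul : ∀ g h r, Sh (g * h) r = Sh g (Sh h r) := by
    intro g h r
    apply hinj
    rw [hjS, hjS, hjS]
    rfl
  have hone : ∀ r, Sh 1 r = r := by
    intro r
    apply hinj
    rw [hjS]; rfl
  refine ⟨MonoidHom.mk' (fun g => RingEquiv.ofRingHom (Sh g) (Sh g⁻¹) ?_ ?_) ?_, ?_, ?_, ?_⟩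
  · refine RingHom.ext fun x => ?_
    rw [RingHom.comp_apply, ← hmul, mul_inv_cancel, hone]; rfl
  · refine RingHom.ext fun x => ?_
    rw [RingHom.comp_apply, ← hmul, inv_mul_cancel, hone]; rfl
  · intro g h
    ext x
    exact hmul g h x
  · exact hSk
  · intro h
    show Sh h RatFunc.X * _ = _
    rw [hSX]
    simp only [uu]
    rw [div_mul_cancel₀]
    intro h0
    apply hden h
    have := congrArg (lft θ hθ) h0
    rw [map_add, map_mul, lft_X, AlgHom.commutes, AlgHom.commutes, map_zero] at this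
    exact this
  · exact hjS

end S

lemma exists_avoid {k0 k : Type*} [Field k0] [Infinite k0] [Field k] [Algebra k0 k]
    {J : Type*} (s : Finset J) (Q : J → k[X]) (hQ : ∀ j ∈ s, Q j ≠ 0) :
    ∃ t : k0, ∀ j ∈ s, (Q j).eval (algebraMap k0 k t) ≠ 0 := by
  by_contra hcon
  push Not at hcon
  have h0 : ∏ j ∈ s, Q j ≠ 0 := Finset.prod_ne_zero_iff.2 hQ
  apply h0
  apply Polynomial.eq_zero_of_infinite_isRoot
  refine Set.Infinite.mono (s := Set.range (algebraMap k0 k)) ?_
    (Set.infinite_range_of_injective (algebraMap k0 k).injective)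
  rintro _ ⟨t, rfl⟩
  obtain ⟨j, hj, hj0⟩ := hcon t
  show IsRoot _ _
  rw [IsRoot.def, eval_prod]
  exact Finset.prod_eq_zero hj hj0

section points

variable {k : Type*} [Field k] {H : Type*} (a b c d : H → k)

/-- the pole of `S h (1/(x - x₀))` -/
noncomputable def pol (h : H) (x0 : k) : k := (x0 * d h - b h) / (a h - x0 * c h)

/-- the numerator -/
noncomputable def rr (h : H) (x0 : k) : k[X] := C (a h - x0 * c h)⁻¹ * (C (c h) * X + C (d h))

lemma rr_natDegree (h : H) (x0 : k) : (rr a c d h x0).natDegree ≤ 1 := by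
  refine (natDegree_C_mul_le _ _).trans ?_
  exact natDegree_linear_le

variable (hΔ : ∀ h, a h * d h - b h * c h ≠ 0)
include hΔ

lemma den_pol {h : H} {x0 : k} (hx : a h - x0 * c h ≠ 0) :
    (c h * pol a b c d h x0 + d h) * (a h - x0 * c h) = a h * d h - b h * c h := by
  have h1 : pol a b c d h x0 * (a h - x0 * c h) = x0 * d h - b h := div_mul_cancel₀ _ hx
  linear_combination c h * h1

lemma den_pol_ne {h : H} {x0 : k} (hx : a h - x0 * c h ≠ 0) :
    c h * pol a b c d h x0 + d h ≠ 0 := by
  intro h0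
  have := den_pol a b c d hΔ hx
  rw [h0, zero_mul] at this
  exact hΔ h this.symm

lemma val_pol {h : H} {x0 : k} (hx : a h - x0 * c h ≠ 0) :
    x0 * (c h * pol a b c d h x0 + d h) = a h * pol a b c d h x0 + b h := by
  have h1 : pol a b c d h x0 * (a h - x0 * c h) = x0 * d h - b h := div_mul_cancel₀ _ hx
  linear_combination -h1

lemma rr_eval {h : H} {x0 : k} (hx : a h - x0 * c h ≠ 0) :
    (rr a c d h x0).eval (pol a b c d h x0) ≠ 0 := by
  rw [rr]
  simp only [eval_mul, eval_C, eval_add, eval_X]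
  exact mul_ne_zero (inv_ne_zero hx) (den_pol_ne a b c d hΔ hx)

omit hΔ in
lemma w_eq (S : H → (RatFunc k ≃+* RatFunc k)) (ρ : H → (k →+* k))
    (hSk : ∀ h (z : k), S h (algebraMap k _ z) = algebraMap k _ (ρ h z))
    (hSX : ∀ h, S h RatFunc.X * (algebraMap k _ (c h) * RatFunc.X + algebraMap k _ (d h))
        = algebraMap k _ (a h) * RatFunc.X + algebraMap k _ (b h))
    {h : H} {x0 : k} (hx : a h - ρ h x0 * c h ≠ 0) :
    S h (algebraMap k[X] (RatFunc k) (X - C x0))⁻¹ *
      algebraMap k[X] (RatFunc k) (X - C (pol a b c d h (ρ h x0)))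
      = algebraMap k[X] (RatFunc k) (rr a c d h (ρ h x0)) := by
  have hC : ∀ a : k, algebraMap k[X] (RatFunc k) (C a) = algebraMap k (RatFunc k) a := by
    intro a; rw [RatFunc.algebraMap_C, RatFunc.algebraMap_eq_C]
  have h0 : algebraMap k[X] (RatFunc k) (X - C x0) ≠ 0 := by
    rw [Ne, map_eq_zero_iff _ algebraMap_injective']; exact X_sub_C_ne_zero _
  have h1 : S h (algebraMap k[X] (RatFunc k) (X - C x0))
      = S h RatFunc.X - algebraMap k _ (ρ h x0) := by
    rw [map_sub, hC, RatFunc.algebraMap_X, map_sub, hSk]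
  have h2 : S h (algebraMap k[X] (RatFunc k) (X - C x0)) ≠ 0 := by
    rwa [Ne, map_eq_zero_iff _ (S h).injective]
  rw [h1] at h2
  have hxR : algebraMap k (RatFunc k) (a h - ρ h x0 * c h) ≠ 0 := by rwa [Ne, map_eq_zero]
  rw [map_inv₀, h1, rr, map_mul, hC, map_inv₀, map_add, map_mul, hC, hC, RatFunc.algebraMap_X,
    map_sub, RatFunc.algebraMap_X, hC]
  have h3 : algebraMap k (RatFunc k) (a h - ρ h x0 * c h) *
      algebraMap k _ (pol a b c d h (ρ h x0))
      = algebraMap k _ (ρ h x0 * d h - b h) := by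
    rw [← map_mul, pol, mul_div_cancel₀ _ hx]
  have h4 := hSX h
  rw [inv_mul_eq_div, inv_mul_eq_div, div_eq_div_iff h2 hxR]
  have h5 : (RatFunc.X - algebraMap k (RatFunc k) (pol a b c d h (ρ h x0))) *
      algebraMap k (RatFunc k) (a h - ρ h x0 * c h)
      = RatFunc.X * algebraMap k (RatFunc k) (a h - ρ h x0 * c h)
        - algebraMap k _ (ρ h x0 * d h - b h) := by
    rw [sub_mul, mul_comm (algebraMap k _ (pol a b c d h (ρ h x0))), h3]
  rw [h5]
  simp only [map_sub, map_mul]
  linear_combination (-1 : RatFunc k) * h4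

theorem exists_points {k0 : Type*} [Field k0] [Infinite k0] [Algebra k0 k] [Finite H]
    (S : H → (RatFunc k ≃+* RatFunc k)) (ρ : H → (k →+* k))
    (hρ0 : ∀ h t, ρ h (algebraMap k0 k t) = algebraMap k0 k t) (μ : k)
    (hμ : ∀ h h', ρ h μ = ρ h' μ → ∀ z, ρ h z = ρ h' z)
    (hSk : ∀ h (z : k), S h (algebraMap k _ z) = algebraMap k _ (ρ h z))
    (hSX : ∀ h, S h RatFunc.X * (algebraMap k _ (c h) * RatFunc.X + algebraMap k _ (d h))
        = algebraMap k _ (a h) * RatFunc.X + algebraMap k _ (b h)) :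
    ∃ pt : ℕ → k, (∀ m h, a h - ρ h (pt m) * c h ≠ 0) ∧
      ∀ m m' h h', pol a b c d h (ρ h (pt m)) = pol a b c d h' (ρ h' (pt m')) →
        m = m' ∧ S h = S h' := by
  classical
  have := Fintype.ofFinite H
  have hC : ∀ a : k, algebraMap k[X] (RatFunc k) (C a) = algebraMap k (RatFunc k) a := by
    intro a; rw [RatFunc.algebraMap_C, RatFunc.algebraMap_eq_C]
  have hden : ∀ h, algebraMap k (RatFunc k) (c h) * RatFunc.X + algebraMap k (RatFunc k) (d h) ≠ 0 := by
    intro h
    exact den_ne' (F := RatFunc k) (θ := RatFunc.X) (RatFunc.transcendental_X) (hΔ h)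
  let pp : H → k[X] := fun h => X ^ 2 + C (ρ h μ) * X
  let x : k0 → k := fun t => algebraMap k0 k t ^ 2 + μ * algebraMap k0 k t
  have hx : ∀ h t, ρ h (x t) = (pp h).eval (algebraMap k0 k t) := by
    intro h t
    simp only [x, pp, map_add, map_mul, map_pow, hρ0, eval_add, eval_mul, eval_pow, eval_X, eval_C]
  let Q1 : H → k[X] := fun h => C (a h) - pp h * C (c h)
  have hQ1 : ∀ h, Q1 h ≠ 0 := by
    intro h h0
    have e0 := congrArg (fun q => q.coeff 0) h0
    have e2 := congrArg (fun q => q.coeff 2) h0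
    simp only [Q1, pp, coeff_sub, coeff_mul_C, coeff_add, coeff_C_mul, coeff_X_pow, coeff_X,
      coeff_C, coeff_zero] at e0 e2
    norm_num at e0 e2
    apply hΔ h
    rw [e0, e2]; ring
  let Q2 : H → H → k[X] := fun h h' =>
    pp h' * (C (c h' * d h - d h' * c h) * pp h + C (d h' * a h - c h' * b h)) -
      (C (a h' * d h - b h' * c h) * pp h + C (b h' * a h - a h' * b h))
  have hQ2 : ∀ h h', S h ≠ S h' → Q2 h h' ≠ 0 := by
    intro h h' hne h0
    apply hne
    have h1 : C (c h' * d h - d h' * c h) * X ^ 4 +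
        C ((c h' * d h - d h' * c h) * (ρ h μ + ρ h' μ)) * X ^ 3 +
        C ((c h' * d h - d h' * c h) * (ρ h μ * ρ h' μ) + (d h' * a h - c h' * b h)
          - (a h' * d h - b h' * c h)) * X ^ 2 +
        C ((d h' * a h - c h' * b h) * ρ h' μ - (a h' * d h - b h' * c h) * ρ h μ) * X +
        C (-(b h' * a h - a h' * b h)) = 0 := by
      rw [← h0]
      simp only [Q2, pp, C_add, C_sub, C_mul, C_neg]
      ring
    have e4 := congrArg (fun q => q.coeff 4) h1
    have e2 := congrArg (fun q => q.coeff 2) h1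
    have e1 := congrArg (fun q => q.coeff 1) h1
    have e0 := congrArg (fun q => q.coeff 0) h1
    simp only [coeff_add, coeff_C_mul, coeff_X_pow, coeff_X, coeff_C, coeff_zero] at e4 e2 e1 e0
    norm_num at e4 e2 e1 e0
    rw [e4, zero_mul, zero_add] at e2
    have hΔ1 := hΔ h
    have hΔ2 := hΔ h'
    set B := d h' * a h - c h' * b h with hB
    have fa : a h' * (a h * d h - b h * c h) = a h * B := by
      linear_combination (-c h) * e0 - a h * e2
    have fb : b h' * (a h * d h - b h * c h) = b h * B := by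
      linear_combination (-d h) * e0 - b h * e2
    have fc : c h' * (a h * d h - b h * c h) = c h * B := by
      linear_combination (a h) * e4
    have fd : d h' * (a h * d h - b h * c h) = d h * B := by
      linear_combination (b h) * e4
    have hB0 : B ≠ 0 := by
      intro hB0
      rw [hB0, mul_zero] at fa fb fc fd
      have ga := (mul_eq_zero.1 fa).resolve_right hΔ1
      have gc := (mul_eq_zero.1 fc).resolve_right hΔ1
      apply hΔ2
      rw [ga, gc]; ring
    have hμμ : ρ h μ = ρ h' μ := by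
      apply mul_left_cancel₀ hB0
      linear_combination (-1 : k) * e1 + (ρ h μ) * e2
    have hρρ := hμ h h' hμμ
    have h2 : S h RatFunc.X = S h' RatFunc.X := by
      apply mul_right_cancel₀ (mul_ne_zero (hden h) (hden h'))
      have hΔR : algebraMap k (RatFunc k) (a h * d h - b h * c h) ≠ 0 := by rwa [Ne, map_eq_zero]
      apply mul_right_cancel₀ hΔR
      have ga := congrArg (algebraMap k (RatFunc k)) fa
      have gb := congrArg (algebraMap k (RatFunc k)) fb
      have gc := congrArg (algebraMap k (RatFunc k)) fc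
      have gd := congrArg (algebraMap k (RatFunc k)) fd
      simp only [map_mul] at ga gb gc gd
      have g1 := hSX h
      have g2 := hSX h'
      linear_combination (algebraMap k (RatFunc k) (c h') * RatFunc.X +
        algebraMap k (RatFunc k) (d h')) * algebraMap k (RatFunc k) (a h * d h - b h * c h) * g1
        - (algebraMap k (RatFunc k) (c h) * RatFunc.X +
        algebraMap k (RatFunc k) (d h)) * algebraMap k (RatFunc k) (a h * d h - b h * c h) * g2
        + (algebraMap k (RatFunc k) (a h) * RatFunc.X + algebraMap k (RatFunc k) (b h)) *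
          (RatFunc.X * gc + gd)
        - (algebraMap k (RatFunc k) (c h) * RatFunc.X + algebraMap k (RatFunc k) (d h)) *
          (RatFunc.X * ga + gb)
    have h3 : (S h : RatFunc k →+* RatFunc k) = (S h' : RatFunc k →+* RatFunc k) := by
      apply ratFunc_hom_ext (k := k)
      · intro z
        show S h (algebraMap k _ z) = S h' (algebraMap k _ z)
        rw [hSk, hSk, hρρ]
      · exact h2
    ext x
    exact congrArg (fun ψ : RatFunc k →+* RatFunc k => ψ x) h3
  let Q3 : k → H → k[X] := fun y h => pp h * C (c h * y + d h) - C (a h * y + b h)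
  have hQ3 : ∀ y h, Q3 y h ≠ 0 := by
    intro y h h0
    have e0 := congrArg (fun q => q.coeff 0) h0
    have e2 := congrArg (fun q => q.coeff 2) h0
    simp only [Q3, pp, coeff_sub, coeff_mul_C, coeff_add, coeff_C_mul, coeff_X_pow, coeff_X,
      coeff_C, coeff_zero] at e0 e2
    norm_num at e0 e2
    apply hΔ h
    linear_combination (a h) * e2 + (c h) * e0
  let P : k → Prop := fun x0 => (∀ h, a h - ρ h x0 * c h ≠ 0) ∧
    ∀ h h', pol a b c d h (ρ h x0) = pol a b c d h' (ρ h' x0) → S h = S h'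
  let rel : k → k → Prop := fun x y => ∀ h h', pol a b c d h (ρ h x) ≠ pol a b c d h' (ρ h' y)
  have hsymm : Std.Symm rel := ⟨fun x y hxy h h' he => hxy h' h he.symm⟩
  obtain ⟨pt, hpt1, hpt2⟩ := exists_seq_of_forall_finset_exists' P rel (by
    intro s hs
    let QQ : H ⊕ ((H × H) ⊕ (s × H × H)) → k[X] := Sum.elim Q1
      (Sum.elim (fun hh => if S hh.1 = S hh.2 then 1 else Q2 hh.1 hh.2)
        (fun yhh => Q3 (pol a b c d yhh.2.2 (ρ yhh.2.2 yhh.1)) yhh.2.1))
    have hQQ : ∀ j ∈ (Finset.univ : Finset (H ⊕ ((H × H) ⊕ (s × H × H)))), QQ j ≠ 0 := by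
      rintro (h | ⟨h, h'⟩ | ⟨y, h, h'⟩) _
      · exact hQ1 h
      · show (if S h = S h' then (1 : k[X]) else Q2 h h') ≠ 0
        split_ifs with hh
        · exact one_ne_zero
        · exact hQ2 h h' hh
      · exact hQ3 _ _
    obtain ⟨t1, ht⟩ := exists_avoid (k0 := k0) (k := k) Finset.univ QQ hQQ
    have hA : ∀ h, a h - ρ h (x t1) * c h ≠ 0 := by
      intro h
      have h1 := ht (Sum.inl h) (Finset.mem_univ _)
      simp only [QQ, Sum.elim_inl, Q1, eval_sub, eval_mul, eval_C] at h1
      rw [hx]; exact h1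
    refine ⟨x t1, ⟨hA, ?_⟩, ?_⟩
    · intro h h' hpp
      by_contra hne
      have h1 := ht (Sum.inr (Sum.inl (h, h'))) (Finset.mem_univ _)
      simp only [QQ, Sum.elim_inl, Sum.elim_inr, if_neg hne] at h1
      apply h1
      simp only [Q2, eval_sub, eval_mul, eval_C, eval_add]
      rw [← hx, ← hx]
      have e1 := val_pol a b c d hΔ (hA h)
      have e2 := val_pol a b c d hΔ (hA h')
      rw [← hpp] at e2
      have e3 : pol a b c d h (ρ h (x t1)) * (a h - ρ h (x t1) * c h)
        = ρ h (x t1) * d h - b h := div_mul_cancel₀ _ (hA h)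
      linear_combination (a h - ρ h (x t1) * c h) * e2 +
        (a h' - ρ h' (x t1) * c h') * e3
    · intro y hy h h' hpp
      have h1 := ht (Sum.inr (Sum.inr (⟨y, hy⟩, h', h))) (Finset.mem_univ _)
      apply h1
      simp only [QQ, Sum.elim_inr, Q3, eval_sub, eval_mul, eval_C]
      rw [← hx, hpp, val_pol a b c d hΔ (hA h'), sub_self])
  refine ⟨pt, fun m h => (hpt1 m).1 h, ?_⟩
  intro m m' h h' hpp
  by_cases hmm : m = m'
  · subst hmm
    exact ⟨rfl, (hpt1 m).2 h h' hpp⟩
  · exact absurd hpp (hpt2 hmm h h')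

end points

end Pool.Agent.H47.Patch
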