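import Pool.Agent.H47.Patch.Basic

/-! Existence of global sections of the patched algebra. -/

set_option linter.unusedSectionVars false

namespace Pool.Agent.H47.Patch

open PowerSeries

variable (k : Type*) {R : Type*} [Field k] [Field R] [Algebra k R]
variable {I : Type*} (w : I → R)

/-- the ring generated by all the `w i` -/
def AI : Subring R := (Algebra.adjoin k (Set.range w)).toSubring

/-- the ring generated by the `w j` with `j ≠ i` -/
def Ai (i : I) : Subring R := (Algebra.adjoin k (w '' {j | j ≠ i})).toSubring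

/-- the ring generated by `w i` -/
def Wi (i : I) : Subring R := (Algebra.adjoin k {w i}).toSubring

lemma mem_AI {u : R} : u ∈ AI k w ↔ u ∈ Algebra.adjoin k (Set.range w) := Iff.rfl
lemma mem_Ai {i : I} {u : R} : u ∈ Ai k w i ↔ u ∈ Algebra.adjoin k (w '' {j | j ≠ i}) := Iff.rfl
lemma mem_Wi {i : I} {u : R} : u ∈ Wi k w i ↔ u ∈ Algebra.adjoin k {w i} := Iff.rfl

lemma Ai_le_AI (i : I) : Ai k w i ≤ AI k w := by
  intro u hu
  rw [mem_AI]
  rw [mem_Ai] at hu
  exact Algebra.adjoin_mono (Set.image_subset_range _ _) hu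

lemma Wi_le_AI (i : I) : Wi k w i ≤ AI k w := by
  intro u hu
  rw [mem_AI]
  rw [mem_Wi] at hu
  exact Algebra.adjoin_mono (by rintro _ rfl; exact ⟨i, rfl⟩) hu

lemma Wi_le_Ai {i j : I} (h : i ≠ j) : Wi k w i ≤ Ai k w j := by
  intro u hu
  rw [mem_Ai]
  rw [mem_Wi] at hu
  exact Algebra.adjoin_mono (by rintro _ rfl; exact ⟨i, h, rfl⟩) hu

lemma algebraMap_mem_Ai (i : I) (c : k) : algebraMap k R c ∈ Ai k w i := by
  rw [mem_Ai]; exact Subalgebra.algebraMap_mem _ _

lemma algebraMap_mem_AI (c : k) : algebraMap k R c ∈ AI k w := by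
  rw [mem_AI]; exact Subalgebra.algebraMap_mem _ _

lemma algebraMap_mem_Wi (i : I) (c : k) : algebraMap k R c ∈ Wi k w i := by
  rw [mem_Wi]; exact Subalgebra.algebraMap_mem _ _

lemma w_mem_Wi (i : I) : w i ∈ Wi k w i := by
  rw [mem_Wi]; exact Algebra.subset_adjoin rfl

section decomp

variable {k w}
variable (hw : ∀ i j, i ≠ j → ∃ a b c : k, w i * w j =
  algebraMap k R a + algebraMap k R b * w i + algebraMap k R c * w j)
include hw

lemma mul_w (i : I) {u : R} (hu : u ∈ Ai k w i) :
    ∃ a ∈ Ai k w i, ∃ c : k, u * w i = a + algebraMap k R c * w i := by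
  rw [mem_Ai] at hu
  induction hu using Algebra.adjoin_induction with
  | mem x hx =>
    obtain ⟨j, hj, rfl⟩ := hx
    obtain ⟨a, b, c, h⟩ := hw i j (fun h => hj h.symm)
    refine ⟨algebraMap k R a + algebraMap k R c * w j, ?_, b, ?_⟩
    · exact add_mem (algebraMap_mem_Ai k w i a) (mul_mem (algebraMap_mem_Ai k w i c)
        (Wi_le_Ai k w hj (w_mem_Wi k w j)))
    · rw [mul_comm, h]; ring
  | algebraMap r => exact ⟨0, zero_mem _, r, by ring⟩
  | add x y _ _ hx hy =>
    obtain ⟨a, ha, c, h⟩ := hx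
    obtain ⟨a', ha', c', h'⟩ := hy
    exact ⟨a + a', add_mem ha ha', c + c', by rw [add_mul, h, h', map_add]; ring⟩
  | mul x y hx' hy' hx hy =>
    obtain ⟨a, ha, c, h⟩ := hx
    obtain ⟨a', ha', c', h'⟩ := hy
    refine ⟨x * a' + algebraMap k R c' * a, ?_, c' * c, ?_⟩
    · exact add_mem (mul_mem hx' ha') (mul_mem (algebraMap_mem_Ai k w i c') ha)
    · rw [mul_assoc, h', map_mul]
      calc x * (a' + algebraMap k R c' * w i) = x * a' + algebraMap k R c' * (x * w i) := by ring
        _ = _ := by rw [h]; ring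

lemma mul_Wi (i : I) {u v : R} (hu : u ∈ Ai k w i) (hv : v ∈ Wi k w i) :
    ∃ v' ∈ Wi k w i, u * v - v' ∈ Ai k w i := by
  rw [mem_Wi] at hv
  induction hv using Algebra.adjoin_induction generalizing u with
  | mem x hx =>
    obtain rfl : x = w i := hx
    obtain ⟨a, ha, c, h⟩ := mul_w hw i hu
    refine ⟨algebraMap k R c * w i, mul_mem (algebraMap_mem_Wi k w i c) (w_mem_Wi k w i), ?_⟩
    rw [h]; simpa using ha
  | algebraMap r =>
    exact ⟨0, zero_mem _, by rw [sub_zero]; exact mul_mem hu (algebraMap_mem_Ai k w i r)⟩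
  | add x y _ _ hx hy =>
    obtain ⟨a, ha, h⟩ := hx hu
    obtain ⟨a', ha', h'⟩ := hy hu
    refine ⟨a + a', add_mem ha ha', ?_⟩
    have := add_mem h h'
    rwa [show u * x - a + (u * y - a') = u * (x + y) - (a + a') by ring] at this
  | mul x y hx' hy' hx hy =>
    obtain ⟨a, ha, h⟩ := hx hu
    obtain ⟨a', ha', h'⟩ := hy h
    refine ⟨a' + a * y, add_mem ha' (mul_mem ha hy'), ?_⟩
    rwa [show (u * x - a) * y - a' = u * (x * y) - (a' + a * y) by ring] at h'

lemma decomp (i : I) {u : R} (hu : u ∈ AI k w) : ∃ v ∈ Wi k w i, u - v ∈ Ai k w i := by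
  rw [mem_AI] at hu
  induction hu using Algebra.adjoin_induction with
  | mem x hx =>
    obtain ⟨j, rfl⟩ := hx
    by_cases h : j = i
    · subst h
      exact ⟨w j, w_mem_Wi k w j, by simp [zero_mem]⟩
    · exact ⟨0, zero_mem _, by rw [sub_zero]; exact Wi_le_Ai k w h (w_mem_Wi k w j)⟩
  | algebraMap r => exact ⟨algebraMap k R r, algebraMap_mem_Wi k w i r, by simp [zero_mem]⟩
  | add x y _ _ hx hy =>
    obtain ⟨a, ha, h⟩ := hx
    obtain ⟨a', ha', h'⟩ := hy
    refine ⟨a + a', add_mem ha ha', ?_⟩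
    have := add_mem h h'
    rwa [show x - a + (y - a') = (x + y) - (a + a') by ring] at this
  | mul x y _ _ hx hy =>
    obtain ⟨a, ha, h⟩ := hx
    obtain ⟨a', ha', h'⟩ := hy
    obtain ⟨b, hb, hb'⟩ := mul_Wi hw i h ha'
    obtain ⟨c, hc, hc'⟩ := mul_Wi hw i h' ha
    refine ⟨b + c + a * a', add_mem (add_mem hb hc) (mul_mem ha ha'), ?_⟩
    have h1 := add_mem (add_mem (mul_mem h h') hb') hc'
    rwa [show (x - a) * (y - a') + ((x - a) * a' - b) + ((y - a') * a - c)
      = x * y - (b + c + a * a') by ring] at h1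

end decomp

section exist

variable {k}
variable {N : Type*} [Group N]

lemma smul_eq_C_mul' (c : k) (u : R⟦X⟧) : c • u = C (algebraMap k R c) * u := by
  ext t
  rw [coeff_C_mul, ← Algebra.smul_def]
  rfl

lemma smul_mem_PS {S : Subring R} (hS : ∀ c : k, algebraMap k R c ∈ S) (c : k) {u : R⟦X⟧}
    (hu : u ∈ PS S) : c • u ∈ PS S := by
  rw [smul_eq_C_mul']
  exact mul_mem (C_mem_PS (hS c)) hu

lemma dft_mem {S : Subring R} (hS : ∀ c : k, algebraMap k R c ∈ S) (ζ : k) (n : ℕ)
    {φ : ℕ → R⟦X⟧} (hφ : ∀ l, φ l ∈ PS S) (j : ℕ) : dft ζ n φ j ∈ PS S := by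
  rw [dft]
  exact smul_mem_PS hS _ (sum_mem fun l _ => smul_mem_PS hS _ (hφ l))

lemma ratCast_mem [CharZero k] [CharZero R] {S : Subring R} (hS : ∀ c : k, algebraMap k R c ∈ S)
    (q : ℚ) : (q : R) ∈ S := by
  have := hS (q : k)
  rwa [map_ratCast] at this

theorem exists_f [CharZero k] [CharZero R] [Fintype I]
    (hw : ∀ i j, i ≠ j → ∃ a b c : k, w i * w j =
      algebraMap k R a + algebraMap k R b * w i + algebraMap k R c * w j)
    (g : I → N) (n : I → ℕ) (hn : ∀ i, 0 < n i) (hg : ∀ i, g i ^ n i = 1)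
    (ζ : I → k) (hζ : ∀ i, IsPrimitiveRoot (ζ i) (n i)) (f0 : N → k) :
    ∃ f : N → R⟦X⟧, (∀ m, f m ∈ PS (AI k w)) ∧
      (∀ m, constantCoeff (f m) = algebraMap k R (f0 m)) ∧
      ∀ i m, ∃ a : ℕ → R⟦X⟧, (∀ j, j < n i → a j ∈ PS (Ai k w i)) ∧
        ∀ l, f (m * g i ^ l) = ∑ j ∈ Finset.range (n i),
          (C (algebraMap k R (ζ i ^ l)) * rt (n i) (w i)) ^ j * a j := by
  classical
  -- the operators
  let D : I → (N → R⟦X⟧) → N → ℕ → R⟦X⟧ := fun i f m j =>
    dft (ζ i) (n i) (fun l => f (m * g i ^ l)) j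
  let U : I → (N → R⟦X⟧) → N → R⟦X⟧ := fun i f m =>
    ∑ j ∈ Finset.range (n i), rt' (n i) (w i) ^ j * D i f m j
  let U' : I → (N → R⟦X⟧) → N → R⟦X⟧ := fun i f m =>
    ∑ j ∈ Finset.range (n i), tl (rt' (n i) (w i) ^ j) * D i f m j
  have hper : ∀ i (f : N → R⟦X⟧) m, ∀ l, (fun l => f (m * g i ^ l)) (l + n i)
      = (fun l => f (m * g i ^ l)) l := by
    intro i f m l
    simp only
    rw [pow_add, hg, mul_one]
  have hc1 : ∀ i j, constantCoeff (rt' (n i) (w i) ^ j) = 1 := by
    intro i j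
    rw [map_pow, rt', constantCoeff_bin, one_pow]
  have hU : ∀ i f m, U i f m = f m + X * U' i f m := by
    intro i f m
    have h1 : ∀ j, rt' (n i) (w i) ^ j = 1 + X * tl (rt' (n i) (w i) ^ j) := by
      intro j
      conv_lhs => rw [eq_tl (rt' (n i) (w i) ^ j), hc1, map_one]
    have h2 : ∑ j ∈ Finset.range (n i), D i f m j = f m := by
      have := dft_inv (φ := fun l => f (m * g i ^ l)) (hζ i) (hn i) (hper i f m) 0
      simpa using this
    simp only [U, U']
    rw [Finset.mul_sum]
    conv_rhs => rw [← h2]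
    rw [← Finset.sum_add_distrib]
    apply Finset.sum_congr rfl
    intro j _
    conv_lhs => rw [h1 j]
    ring
  have hUshift : ∀ i f m l, U i f (m * g i ^ l) = ∑ j ∈ Finset.range (n i),
      ζ i ^ (j * l) • (rt' (n i) (w i) ^ j * D i f m j) := by
    intro i f m l
    apply Finset.sum_congr rfl
    intro j _
    have h1 : D i f (m * g i ^ l) j = ζ i ^ (j * l) • D i f m j := by
      rw [← dft_shift (φ := fun l => f (m * g i ^ l)) (hζ i) (hn i) (hper i f m) l j]
      simp only [D]
      congr 1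
      ext l' : 1
      rw [mul_assoc, ← pow_add, add_comm]
    rw [h1, mul_smul_comm]
  -- choice of the principal parts
  let p : I → R → R := fun i u => if h : u ∈ AI k w then (decomp hw i h).choose else 0
  have hp1 : ∀ i u, p i u ∈ Wi k w i := by
    intro i u
    by_cases h : u ∈ AI k w
    · simp only [p, dif_pos h]
      exact (decomp hw i h).choose_spec.1
    · simp only [p, dif_neg h]
      exact zero_mem _
  have hp2 : ∀ i u, u ∈ AI k w → u - p i u ∈ Ai k w i := by
    intro i u h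
    simp only [p, dif_pos h]
    exact (decomp hw i h).choose_spec.2
  let T : (N → R⟦X⟧) → N → R⟦X⟧ := fun f m =>
    - ∑ i, mk fun t => p i (coeff t (U' i f m))
  have hcong : ∀ r (f f' : N → R⟦X⟧), (∀ m t, t ≤ r → coeff t (f m) = coeff t (f' m)) →
      ∀ i m t, t ≤ r → coeff t (U' i f m) = coeff t (U' i f' m) := by
    intro r f f' h i m t ht
    simp only [U', map_sum]
    apply Finset.sum_congr rfl
    intro j _
    rw [coeff_mul, coeff_mul]
    apply Finset.sum_congr rfl
    rintro ⟨a, b⟩ hab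
    rw [Finset.HasAntidiagonal.mem_antidiagonal] at hab
    simp only at hab ⊢
    congr 1
    simp only [D, dft, smul_eq_C_mul', coeff_C_mul, map_sum]
    congr 1
    apply Finset.sum_congr rfl
    intro l _
    rw [h _ b (by omega)]
  obtain ⟨f, hf⟩ := exists_fix T (by
    intro r f f' h m t ht
    simp only [T, map_neg, map_sum, coeff_mk]
    congr 1
    apply Finset.sum_congr rfl
    intro i _
    rw [hcong r f f' h i m t ht]) (fun m => C (algebraMap k R (f0 m)))
  have hRA : ∀ i j, rt' (n i) (w i) ^ j ∈ PS (AI k w) := by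
    intro i j
    refine pow_mem (bin_mem _ _ ?_ (ratCast_mem (algebraMap_mem_AI k w))) _
    exact Wi_le_AI k w i (w_mem_Wi k w i)
  -- coefficients of f are in AI
  have hfA : ∀ r m, coeff r (f m) ∈ AI k w := by
    intro r
    induction r using Nat.strong_induction_on with
    | _ r ih =>
      intro m
      rw [hf m, map_add]
      apply add_mem
      · exact C_mem_PS (algebraMap_mem_AI k w _) r
      · cases r with
        | zero => rw [coeff_zero_X_mul]; exact zero_mem _
        | succ r =>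
          rw [coeff_succ_X_mul]
          simp only [T, map_neg, map_sum, coeff_mk]
          exact neg_mem (sum_mem fun i _ => Wi_le_AI k w i (hp1 i _))
  have hU'A : ∀ i m, U' i f m ∈ PS (AI k w) := by
    intro i m
    refine sum_mem fun j _ => mul_mem (tl_mem (hRA i j)) ?_
    exact dft_mem (algebraMap_mem_AI k w) _ _ (fun l r => hfA r _) j
  have hUA : ∀ i m, U i f m ∈ PS (Ai k w i) := by
    intro i m r
    cases r with
    | zero =>
      rw [hU, map_add, coeff_zero_X_mul, add_zero, hf m, map_add, coeff_zero_X_mul, add_zero]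
      exact C_mem_PS (algebraMap_mem_Ai k w i _) 0
    | succ r =>
      rw [hU, map_add, coeff_succ_X_mul, hf m, map_add, coeff_succ_X_mul]
      simp only [T, map_neg, map_sum, coeff_mk]
      rw [← Finset.add_sum_erase Finset.univ _ (Finset.mem_univ i)]
      have h1 : coeff (r + 1) (C (algebraMap k R (f0 m)) : R⟦X⟧) = 0 := by
        rw [coeff_C, if_neg (by omega)]
      rw [h1, zero_add]
      have h2 : ∑ i' ∈ Finset.univ.erase i, p i' (coeff r (U' i' f m)) ∈ Ai k w i := by
        refine sum_mem fun i' hi' => ?_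
        exact Wi_le_Ai k w (Finset.ne_of_mem_erase hi') (hp1 i' _)
      have h3 := hp2 i _ (hU'A i m r)
      have h4 := sub_mem h3 h2
      convert h4 using 1
      ring
  refine ⟨f, fun m r => hfA r m, ?_, ?_⟩
  · intro m
    rw [hf m, map_add, constantCoeff_C, map_mul, constantCoeff_X, zero_mul, add_zero]
  · intro i m
    refine ⟨fun j => rt' (n i) (w i) ^ j * D i f m j, ?_, ?_⟩
    · intro j hj
      have h1 := dft_dft (hζ i) (hn i) (β := fun j => rt' (n i) (w i) ^ j * D i f m j) j hj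
      show rt' (n i) (w i) ^ j * D i f m j ∈ _
      rw [← h1]
      apply dft_mem (algebraMap_mem_Ai k w i)
      intro l
      rw [← hUshift]
      exact hUA i _
    · intro l
      have h1 := dft_inv (φ := fun l => f (m * g i ^ l)) (hζ i) (hn i) (hper i f m) l
      rw [← h1]
      apply Finset.sum_congr rfl
      intro j _
      rw [smul_eq_C_mul', mul_pow, ← map_pow, ← map_pow, ← pow_mul, mul_comm l j]
      have h2 : rt (n i) (w i) ^ j * rt' (n i) (w i) ^ j = 1 := by
        rw [← mul_pow, rt_mul_rt', one_pow]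
      calc C (algebraMap k R (ζ i ^ (j * l))) * D i f m j
          = C (algebraMap k R (ζ i ^ (j * l))) * (1 * D i f m j) := by rw [one_mul]
        _ = _ := by rw [← h2]; ring

end exist

end Pool.Agent.H47.Patch
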