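import Mathlib

/-! Möbius transformations over the base field acting on a transcendental element. -/

set_option linter.unusedSectionVars false

namespace Pool.Agent.H47.Patch

open Polynomial

lemma prop_aux {k : Type*} [Field k] {a b c d a' b' c' d' : k} (hΔ : a * d - b * c ≠ 0)
    (E1 : a * c' = a' * c) (E2 : a * d' + b * c' = a' * d + b' * c) (E3 : b * d' = b' * d) :
    ∃ p : k, a' = p * a ∧ b' = p * b ∧ c' = p * c ∧ d' = p * d := by
  have h1 : c' * d = d' * c := by
    apply mul_left_cancel₀ hΔ
    linear_combination (d ^ 2) * E1 - (c * d) * E2 + c ^ 2 * E3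
  have h2 : a' * b = b' * a := by
    apply mul_left_cancel₀ hΔ
    linear_combination (b ^ 2) * E1 - (a * b) * E2 + a ^ 2 * E3
  have h3 : (b * c' - b' * c) * (a * d) = 0 := by
    linear_combination (a * b) * h1 + (a * c) * E3
  have h4 : (b * c' - b' * c) * (b * c) = 0 := by
    have h5 : b * c' - b' * c = a' * d - a * d' := by linear_combination E2
    calc (b * c' - b' * c) * (b * c) = (a' * d - a * d') * (b * c) := by rw [h5]
      _ = - ((b * c' - b' * c) * (a * d)) := by
          linear_combination (d * c) * h2 + (a * b) * h1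
      _ = 0 := by rw [h3, neg_zero]
  have h5 : b * c' - b' * c = 0 := by
    apply mul_left_cancel₀ hΔ
    linear_combination h3 - h4
  refine ⟨(a' * d - b' * c) / (a * d - b * c), ?_, ?_, ?_, ?_⟩
  · rw [div_mul_eq_mul_div, eq_div_iff hΔ]
    linear_combination (-c) * h2
  · rw [div_mul_eq_mul_div, eq_div_iff hΔ]
    linear_combination (-d) * h2
  · rw [div_mul_eq_mul_div, eq_div_iff hΔ]
    linear_combination d * E1 - c * h5
  · rw [div_mul_eq_mul_div, eq_div_iff hΔ]
    linear_combination d * E2 - d * h5 - c * E3

lemma prop_of_transcendental {k F : Type*} [Field k] [Field F] [Algebra k F] {θ : F}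
    (hθ : Transcendental k θ) {a b c d a' b' c' d' : k} (hΔ : a * d - b * c ≠ 0)
    (h : (algebraMap k F a * θ + algebraMap k F b) * (algebraMap k F c' * θ + algebraMap k F d')
      = (algebraMap k F a' * θ + algebraMap k F b') * (algebraMap k F c * θ + algebraMap k F d)) :
    ∃ p : k, a' = p * a ∧ b' = p * b ∧ c' = p * c ∧ d' = p * d := by
  have h1 : (C a * X + C b) * (C c' * X + C d') - (C a' * X + C b') * (C c * X + C d) = 0 := by
    apply (transcendental_iff.1 hθ)
    simp only [map_sub, map_mul, map_add, aeval_C, aeval_X]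
    rw [h, sub_self]
  have h2 : (C (a * c' - a' * c) * X ^ 2 + C (a * d' + b * c' - (a' * d + b' * c)) * X
      + C (b * d' - b' * d) : k[X]) = 0 := by
    rw [← h1]
    simp only [C_sub, C_mul, C_add]
    ring
  have e0 := congrArg (fun q => q.coeff 0) h2
  have e1 := congrArg (fun q => q.coeff 1) h2
  have e2 := congrArg (fun q => q.coeff 2) h2
  simp only [coeff_add, coeff_C_mul, coeff_X_pow, coeff_X, coeff_C, coeff_zero] at e0 e1 e2
  norm_num at e0 e1 e2
  exact prop_aux hΔ (sub_eq_zero.1 e2) (sub_eq_zero.1 e1) (sub_eq_zero.1 e0)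

section twist

variable {k K F : Type*} [Field k] [Field K] [Field F] [Algebra K F] [Algebra k F]
  [FiniteDimensional K F]

lemma den_ne {θ : F} (hθ : Transcendental k θ) {c d : k} (h : c ≠ 0 ∨ d ≠ 0) :
    algebraMap k F c * θ + algebraMap k F d ≠ 0 := by
  intro h0
  have h1 : (C c * X + C d : k[X]) = 0 := by
    apply (transcendental_iff.1 hθ)
    simpa using h0
  have e0 := congrArg (fun q => q.coeff 0) h1
  have e1 := congrArg (fun q => q.coeff 1) h1
  simp at e0 e1
  rcases h with h | h
  · exact h e1
  · exact h e0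

lemma den_ne' {θ : F} (hθ : Transcendental k θ) {a b c d : k} (h : a * d - b * c ≠ 0) :
    algebraMap k F c * θ + algebraMap k F d ≠ 0 := by
  apply den_ne hθ
  by_contra hcon
  push Not at hcon
  apply h
  rw [hcon.1, hcon.2]; ring

theorem exists_twist {θ : F} (hθ : Transcendental k θ) (ρ : (F ≃ₐ[K] F) → (k →+* k))
    (hρ : ∀ h z, h (algebraMap k F z) = algebraMap k F (ρ h z)) (a b c d : (F ≃ₐ[K] F) → k)
    (hΔ : ∀ h, a h * d h - b h * c h ≠ 0)
    (hM : ∀ h, h θ * (algebraMap k F (c h) * θ + algebraMap k F (d h))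
      = algebraMap k F (a h) * θ + algebraMap k F (b h)) :
    ∃ u v : F, θ * v - u ≠ 0 ∧ ∀ h,
      (algebraMap k F (c h) * θ + algebraMap k F (d h)) * h u
        = algebraMap k F (a h) * u + algebraMap k F (b h) * v ∧
      (algebraMap k F (c h) * θ + algebraMap k F (d h)) * h v
        = algebraMap k F (c h) * u + algebraMap k F (d h) * v := by
  classical
  have hden : ∀ h, algebraMap k F (c h) * θ + algebraMap k F (d h) ≠ 0 :=
    fun h => den_ne' hθ (hΔ h)
  have hΔF : ∀ h, algebraMap k F (a h * d h - b h * c h) ≠ 0 := by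
    intro h
    rw [Ne, map_eq_zero]; exact hΔ h
  let co : (F ≃ₐ[K] F) → F := fun h =>
    (algebraMap k F (c h) * θ + algebraMap k F (d h)) ^ 2 * (algebraMap k F (a h * d h - b h * c h))⁻¹
  obtain ⟨z, hz⟩ : ∃ z : F, ∑ h, co h * h z ≠ 0 := by
    by_contra hcon
    push Not at hcon
    have hli : LinearIndependent F (fun h : F ≃ₐ[K] F => (h : F → F)) := by
      have h1 := linearIndependent_monoidHom F F
      have h2 : Function.Injective (fun h : F ≃ₐ[K] F => ((h : F →+* F) : F →* F)) := by
        intro h h' hh
        apply AlgEquiv.ext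
        intro x
        exact congrArg (fun ψ : F →* F => ψ x) hh
      exact h1.comp _ h2
    have h3 := Fintype.linearIndependent_iff.1 hli co (by
      funext z
      simp only [Finset.sum_apply, Pi.smul_apply, smul_eq_mul, Pi.zero_apply]
      exact hcon z) 1
    have h4 : co 1 ≠ 0 := mul_ne_zero (pow_ne_zero _ (hden 1)) (inv_ne_zero (hΔF 1))
    exact h4 h3
  -- composition
  have hcomp : ∀ h' h : F ≃ₐ[K] F, ∃ p : k, p ≠ 0 ∧
      a (h' * h) = p * (ρ h' (a h) * a h' + ρ h' (b h) * c h') ∧
      b (h' * h) = p * (ρ h' (a h) * b h' + ρ h' (b h) * d h') ∧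
      c (h' * h) = p * (ρ h' (c h) * a h' + ρ h' (d h) * c h') ∧
      d (h' * h) = p * (ρ h' (c h) * b h' + ρ h' (d h) * d h') := by
    intro h' h
    have hΔ' : ρ h' (a h) * ρ h' (d h) - ρ h' (b h) * ρ h' (c h) ≠ 0 := by
      rw [← map_mul, ← map_mul, ← map_sub, Ne, map_eq_zero]
      exact hΔ h
    have hdet' : (ρ h' (a h) * a h' + ρ h' (b h) * c h') * (ρ h' (c h) * b h' + ρ h' (d h) * d h') -
        (ρ h' (a h) * b h' + ρ h' (b h) * d h') * (ρ h' (c h) * a h' + ρ h' (d h) * c h') ≠ 0 := by
      have : (ρ h' (a h) * a h' + ρ h' (b h) * c h') * (ρ h' (c h) * b h' + ρ h' (d h) * d h') -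
        (ρ h' (a h) * b h' + ρ h' (b h) * d h') * (ρ h' (c h) * a h' + ρ h' (d h) * c h') =
        (ρ h' (a h) * ρ h' (d h) - ρ h' (b h) * ρ h' (c h)) * (a h' * d h' - b h' * c h') := by ring
      rw [this]
      exact mul_ne_zero hΔ' (hΔ h')
    obtain ⟨p, e1, e2, e3, e4⟩ := prop_of_transcendental (k := k) hθ (a' := a (h' * h))
      (b' := b (h' * h)) (c' := c (h' * h)) (d' := d (h' * h)) hdet' (by
        have e5 := hM (h' * h)
        have e6 : (h' * h) θ = h' (h θ) := rfl
        have e7 := congrArg h' (hM h)
        simp only [map_mul, map_add, hρ] at e7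
        have e8 := hM h'
        have hd1 := hden h'
        rw [e6] at e5
        have e9 : h' (h θ) * (algebraMap k F (ρ h' (c h) * a h' + ρ h' (d h) * c h') * θ
            + algebraMap k F (ρ h' (c h) * b h' + ρ h' (d h) * d h'))
            = algebraMap k F (ρ h' (a h) * a h' + ρ h' (b h) * c h') * θ
            + algebraMap k F (ρ h' (a h) * b h' + ρ h' (b h) * d h') := by
          simp only [map_add, map_mul]
          linear_combination (algebraMap k F (c h') * θ + algebraMap k F (d h')) * e7 +
            (algebraMap k F (ρ h' (a h)) - h' (h θ) * algebraMap k F (ρ h' (c h))) * e8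
        rw [← e9, ← e5]
        ring)
    refine ⟨p, ?_, e1, e2, e3, e4⟩
    rintro rfl
    apply hΔ (h' * h)
    rw [e1, e2, e3, e4]; ring
  let cu : (F ≃ₐ[K] F) → F := fun h =>
    (algebraMap k F (c h) * θ + algebraMap k F (d h)) *
      (algebraMap k F (a h * d h - b h * c h))⁻¹ * algebraMap k F (d h)
  let cv : (F ≃ₐ[K] F) → F := fun h =>
    - ((algebraMap k F (c h) * θ + algebraMap k F (d h)) *
      (algebraMap k F (a h * d h - b h * c h))⁻¹ * algebraMap k F (c h))
  refine ⟨∑ h, cu h * h z, ∑ h, cv h * h z, ?_, ?_⟩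
  · have h1 : θ * ∑ h, cv h * h z - ∑ h, cu h * h z = - ∑ h, co h * h z := by
      rw [Finset.mul_sum, ← Finset.sum_sub_distrib, ← Finset.sum_neg_distrib]
      apply Finset.sum_congr rfl
      intro h _
      simp only [cu, cv, co]
      ring
    rw [h1]
    exact neg_ne_zero.2 hz
  · intro h'
    have key : ∀ h, (algebraMap k F (c h') * θ + algebraMap k F (d h')) * h' (cu h)
          = algebraMap k F (a h') * cu (h' * h) + algebraMap k F (b h') * cv (h' * h) ∧
        (algebraMap k F (c h') * θ + algebraMap k F (d h')) * h' (cv h)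
          = algebraMap k F (c h') * cu (h' * h) + algebraMap k F (d h') * cv (h' * h) := by
      intro h
      obtain ⟨p, hp, e1, e2, e3, e4⟩ := hcomp h' h
      have e8 := hM h'
      have hpF : algebraMap k F p ≠ 0 := by rwa [Ne, map_eq_zero]
      have hD1 : algebraMap k F (ρ h' (a h) * ρ h' (d h) - ρ h' (b h) * ρ h' (c h)) ≠ 0 := by
        rw [← map_mul (ρ h'), ← map_mul (ρ h'), ← map_sub (ρ h'), Ne, map_eq_zero, map_eq_zero]
        exact hΔ h
      have hD2 := hΔF h'
      have hdg : algebraMap k F (c (h' * h)) * θ + algebraMap k F (d (h' * h))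
          = algebraMap k F p * ((algebraMap k F (c h') * θ + algebraMap k F (d h')) *
            (algebraMap k F (ρ h' (c h)) * h' θ + algebraMap k F (ρ h' (d h)))) := by
        rw [e3, e4]
        simp only [map_add, map_mul]
        linear_combination (- algebraMap k F p * algebraMap k F (ρ h' (c h))) * e8
      have hΔg : algebraMap k F (a (h' * h) * d (h' * h) - b (h' * h) * c (h' * h))
          = algebraMap k F p ^ 2 *
            (algebraMap k F (ρ h' (a h) * ρ h' (d h) - ρ h' (b h) * ρ h' (c h)) *
            algebraMap k F (a h' * d h' - b h' * c h')) := by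
        rw [← map_pow, ← map_mul (algebraMap k F), ← map_mul (algebraMap k F), e1, e2, e3, e4]
        congr 1
        ring
      constructor
      · have hcu : h' (cu h) = (algebraMap k F (ρ h' (c h)) * h' θ + algebraMap k F (ρ h' (d h))) *
            (algebraMap k F (ρ h' (a h) * ρ h' (d h) - ρ h' (b h) * ρ h' (c h)))⁻¹ *
            algebraMap k F (ρ h' (d h)) := by
          simp only [cu, map_mul, map_add, map_inv₀, hρ, map_sub]
        rw [hcu]
        simp only [cu, cv]
        rw [hdg, hΔg]
        have h5 : algebraMap k F (a h') * algebraMap k F (d (h' * h))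
            - algebraMap k F (b h') * algebraMap k F (c (h' * h))
            = algebraMap k F p * algebraMap k F (ρ h' (d h)) *
              algebraMap k F (a h' * d h' - b h' * c h') := by
          rw [← map_mul, ← map_mul, ← map_sub, ← map_mul, ← map_mul, e3, e4]
          congr 1
          ring
        field_simp
        linear_combination (-(algebraMap k F (c h') * θ + algebraMap k F (d h')) *
          (algebraMap k F (ρ h' (c h)) * h' θ + algebraMap k F (ρ h' (d h)))) * h5
      · have hcv : h' (cv h) =
            -((algebraMap k F (ρ h' (c h)) * h' θ + algebraMap k F (ρ h' (d h))) *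
            (algebraMap k F (ρ h' (a h) * ρ h' (d h) - ρ h' (b h) * ρ h' (c h)))⁻¹ *
            algebraMap k F (ρ h' (c h))) := by
          simp only [cv, map_mul, map_add, map_inv₀, hρ, map_sub, map_neg]
        rw [hcv]
        simp only [cu, cv]
        rw [hdg, hΔg]
        have h5 : algebraMap k F (c h') * algebraMap k F (d (h' * h))
            - algebraMap k F (d h') * algebraMap k F (c (h' * h))
            = - (algebraMap k F p * algebraMap k F (ρ h' (c h)) *
              algebraMap k F (a h' * d h' - b h' * c h')) := by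
          rw [← map_mul, ← map_mul, ← map_sub, ← map_mul, ← map_mul, ← map_neg, e3, e4]
          congr 1
          ring
        field_simp
        linear_combination (-(algebraMap k F (c h') * θ + algebraMap k F (d h')) *
          (algebraMap k F (ρ h' (c h)) * h' θ + algebraMap k F (ρ h' (d h)))) * h5
    constructor
    · rw [map_sum, Finset.mul_sum, Finset.mul_sum, Finset.mul_sum, ← Finset.sum_add_distrib]
      refine Fintype.sum_equiv (Equiv.mulLeft h') _ _ fun h => ?_
      rw [map_mul, ← mul_assoc, (key h).1, Equiv.coe_mulLeft, AlgEquiv.mul_apply]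
      ring
    · rw [map_sum, Finset.mul_sum, Finset.mul_sum, Finset.mul_sum, ← Finset.sum_add_distrib]
      refine Fintype.sum_equiv (Equiv.mulLeft h') _ _ fun h => ?_
      rw [map_mul, ← mul_assoc, (key h).2, Equiv.coe_mulLeft, AlgEquiv.mul_apply]
      ring

end twist

end Pool.Agent.H47.Patch
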