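import Pool.Agent.H47.Patch.Exist

/-! Local linear independence: the Kummer generator `y` with `y^n = 1 + w z` has degree `n` over the
fraction field of the ring of power series with bounded poles at the pole of `w`. -/

set_option linter.unusedSectionVars false

namespace Pool.Agent.H47.Patch

open PowerSeries

section core

variable {O k : Type*} [CommRing O] [IsDomain O] [Field k]

lemma exists_ord (ev : O →+* k) (s : O) (hdiv : ∀ u, ev u = 0 → s ∣ u)
    (hfin : ∀ u, u ≠ 0 → ∃ N, ¬ s ^ N ∣ u) {b : O⟦X⟧} (hb : b ≠ 0) :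
    ∃ N b', b = C (s ^ N) * b' ∧ PowerSeries.map ev b' ≠ 0 := by
  classical
  obtain ⟨r, hr⟩ : ∃ r, coeff r b ≠ 0 := by
    by_contra h
    push Not at h
    exact hb (PowerSeries.ext (by simpa using h))
  obtain ⟨M, hM⟩ := hfin _ hr
  have hbound : ¬ ∃ b', b = C (s ^ M) * b' := by
    rintro ⟨b', hb'⟩
    apply hM
    rw [hb', coeff_C_mul]
    exact dvd_mul_right _ _
  let P : ℕ → Prop := fun N => ¬ ∃ b', b = C (s ^ N) * b'
  have hP : ∃ N, P N := ⟨M, hbound⟩
  have hN : P (Nat.find hP) := Nat.find_spec hP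
  have h0 : Nat.find hP ≠ 0 := by
    intro h
    rw [h] at hN
    apply hN
    exact ⟨b, by simp⟩
  obtain ⟨N, hN'⟩ := Nat.exists_eq_succ_of_ne_zero h0
  have h1 : ¬ P N := Nat.find_min hP (by omega)
  simp only [P, not_not] at h1
  obtain ⟨b', hb'⟩ := h1
  refine ⟨N, b', hb', ?_⟩
  intro h2
  have h3 : ∀ r, s ∣ coeff r b' := by
    intro r
    apply hdiv
    have := congrArg (coeff r) h2
    rw [coeff_map, map_zero] at this
    exact this
  choose c hc using h3
  apply hN
  rw [hN']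
  refine ⟨mk c, ?_⟩
  have h4 : b' = C s * mk c := by
    ext r
    rw [coeff_C_mul, coeff_mk, hc]
  rw [hb', h4, pow_succ, map_mul, mul_assoc]

lemma li_core (ev : O →+* k) (s : O) (hs : ev s = 0) (hs0 : s ≠ 0) (hdiv : ∀ u, ev u = 0 → s ∣ u)
    (hfin : ∀ u, u ≠ 0 → ∃ N, ¬ s ^ N ∣ u) {a b : O⟦X⟧} {n e : ℕ} (he0 : 0 < e) (hen : e < n)
    (h : b ^ n * (C s + X) ^ e = C (s ^ e) * a ^ n) : b = 0 := by
  by_contra hb
  have hCs : ∀ N, (C (s ^ N) : O⟦X⟧) ≠ 0 := by
    intro N hN
    have := congrArg constantCoeff hN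
    rw [constantCoeff_C, map_zero] at this
    exact pow_ne_zero N hs0 this
  have hX : (C s + X : O⟦X⟧) ≠ 0 := by
    intro hh
    have := congrArg (coeff 1) hh
    rw [map_add, coeff_C, coeff_X, map_zero] at this
    simp at this
  have ha : a ≠ 0 := by
    rintro rfl
    rw [zero_pow (by omega), mul_zero] at h
    exact mul_ne_zero (pow_ne_zero _ hb) (pow_ne_zero _ hX) h
  obtain ⟨N, b', hb', hb1⟩ := exists_ord ev s hdiv hfin hb
  obtain ⟨M, a', ha', ha1⟩ := exists_ord ev s hdiv hfin ha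
  have hmapX : PowerSeries.map ev (C s + X) = X := by
    rw [map_add, map_C, hs, map_zero, map_X, zero_add]
  have h1 : C (s ^ (n * N)) * (b' ^ n * (C s + X) ^ e) = C (s ^ (e + n * M)) * a' ^ n := by
    have h2 := h
    rw [hb', ha', mul_pow, mul_pow, ← map_pow, ← map_pow, ← pow_mul, ← pow_mul, mul_comm N n,
      mul_comm M n] at h2
    rw [pow_add s e, map_mul, mul_assoc]
    rw [mul_assoc] at h2
    exact h2
  rcases lt_trichotomy (n * N) (e + n * M) with hlt | heq | hgt
  · obtain ⟨d, hd⟩ := Nat.exists_eq_add_of_lt hlt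
    rw [hd, show n * N + d + 1 = n * N + (d + 1) by ring, pow_add, map_mul, mul_assoc] at h1
    have h3 := mul_left_cancel₀ (hCs _) h1
    have h4 := congrArg (PowerSeries.map ev) h3
    rw [map_mul, map_pow, map_pow, hmapX, map_mul, map_C, map_pow, hs, zero_pow (by omega),
      map_zero, zero_mul] at h4
    exact mul_ne_zero (pow_ne_zero _ hb1) (pow_ne_zero _ X_ne_zero) h4
  · have h2 : n ∣ e := by
      have h3 : n ∣ e + n * M := by rw [← heq]; exact dvd_mul_right _ _
      exact (Nat.dvd_add_left (dvd_mul_right _ _)).1 h3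
    exact absurd (Nat.le_of_dvd he0 h2) (by omega)
  · obtain ⟨d, hd⟩ := Nat.exists_eq_add_of_lt hgt
    rw [hd, show e + n * M + d + 1 = (e + n * M) + (d + 1) by ring, pow_add _ _ (d + 1), map_mul,
      mul_assoc] at h1
    have h3 := mul_left_cancel₀ (hCs _) h1
    have h4 := congrArg (PowerSeries.map ev) h3
    rw [map_mul, map_C, map_pow, hs, zero_pow (by omega), map_zero, zero_mul, map_pow] at h4
    exact pow_ne_zero _ ha1 h4.symm

end core

/-- A discrete place of `R` over `k` given by its valuation ring, evaluation map, and the inverse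
`w` of a uniformizer. -/
structure Place (k R : Type*) [Field k] [Field R] [Algebra k R] (w : R) where
  O : Subring R
  ev : O →+* k
  w_ne : w ≠ 0
  inv_mem : w⁻¹ ∈ O
  ev_inv : ev ⟨w⁻¹, inv_mem⟩ = 0
  alg_mem : ∀ c : k, algebraMap k R c ∈ O
  div : ∀ u : O, ev u = 0 → (u : R) * w ∈ O
  fin : ∀ u : R, u ∈ O → u ≠ 0 → ∃ N, u * w ^ N ∉ O
  frac : ∀ u : R, ∃ N, w⁻¹ ^ N * u ∈ O

section bd

variable {R : Type*} [Field R]

/-- power series with bounded denominators -/
def Bd (O : Subring R) (s : R) (hs : s ∈ O) : Subring R⟦X⟧ where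
  carrier := {u | ∃ D, C (s ^ D) * u ∈ PS O}
  mul_mem' := by
    rintro a b ⟨D, hD⟩ ⟨E, hE⟩
    refine ⟨D + E, ?_⟩
    have := mul_mem hD hE
    rwa [show C (s ^ D) * a * (C (s ^ E) * b) = C (s ^ (D + E)) * (a * b) by
      rw [pow_add, map_mul]; ring] at this
  one_mem' := ⟨0, by simp [one_mem]⟩
  add_mem' := by
    rintro a b ⟨D, hD⟩ ⟨E, hE⟩
    refine ⟨D + E, ?_⟩
    have h1 := mul_mem (C_mem_PS (pow_mem hs E)) hD
    have h2 := mul_mem (C_mem_PS (pow_mem hs D)) hE
    have := add_mem h1 h2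
    rwa [show C (s ^ E) * (C (s ^ D) * a) + C (s ^ D) * (C (s ^ E) * b)
      = C (s ^ (D + E)) * (a + b) by rw [pow_add, map_mul]; ring] at this
  zero_mem' := ⟨0, by simp [zero_mem]⟩
  neg_mem' := by
    rintro a ⟨D, hD⟩
    refine ⟨D, ?_⟩
    rw [mul_neg]
    exact neg_mem hD

lemma mem_Bd {O : Subring R} {s : R} {hs : s ∈ O} {u : R⟦X⟧} :
    u ∈ Bd O s hs ↔ ∃ D, C (s ^ D) * u ∈ PS O := Iff.rfl

lemma PS_le_Bd {O : Subring R} {s : R} (hs : s ∈ O) : PS O ≤ Bd O s hs := by
  intro u hu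
  exact ⟨0, by simpa using hu⟩

end bd

section li

variable {k R : Type*} [Field k] [Field R] [Algebra k R] {w : R} (P : Place k R w)

/-- bounded poles at the place -/
abbrev Place.B : Subring R⟦X⟧ := Bd P.O w⁻¹ P.inv_mem

include P in
lemma Place.pow_not_mem [CharZero R] {n e : ℕ} (he0 : 0 < e) (hen : e < n) {y : R⟦X⟧}
    (hy : y ^ n = 1 + C w * X) {a b : R⟦X⟧} (ha : a ∈ P.B) (hb : b ∈ P.B)
    (h : b * y ^ e = a) : b = 0 := by
  obtain ⟨D, hD⟩ := ha
  obtain ⟨E, hE⟩ := hb
  set s : P.O := ⟨w⁻¹, P.inv_mem⟩ with hs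
  have hw := P.w_ne
  have ha' : C (w⁻¹ ^ (D + E)) * a ∈ PS P.O := by
    rw [pow_add, mul_comm (w⁻¹ ^ D), map_mul, mul_assoc]
    exact mul_mem (C_mem_PS (pow_mem P.inv_mem _)) hD
  have hb' : C (w⁻¹ ^ (D + E)) * b ∈ PS P.O := by
    rw [pow_add, map_mul, mul_assoc]
    exact mul_mem (C_mem_PS (pow_mem P.inv_mem _)) hE
  set a1 : P.O⟦X⟧ := PowerSeries.mk fun r => ⟨coeff r (C (w⁻¹ ^ (D + E)) * a), ha' r⟩ with ha1
  set b1 : P.O⟦X⟧ := PowerSeries.mk fun r => ⟨coeff r (C (w⁻¹ ^ (D + E)) * b), hb' r⟩ with hb1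
  have hma : PowerSeries.map P.O.subtype a1 = C (w⁻¹ ^ (D + E)) * a := by
    ext r; rw [coeff_map, ha1, coeff_mk]; rfl
  have hmb : PowerSeries.map P.O.subtype b1 = C (w⁻¹ ^ (D + E)) * b := by
    ext r; rw [coeff_map, hb1, coeff_mk]; rfl
  have hinj : Function.Injective (PowerSeries.map P.O.subtype) := by
    intro u v huv
    ext r
    have := congrArg (coeff r) huv
    rw [coeff_map, coeff_map] at this
    exact this
  have hCw : (C w⁻¹ * C w : R⟦X⟧) = 1 := by rw [← map_mul, inv_mul_cancel₀ hw, map_one]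
  have key : b1 ^ n * (C s + X) ^ e = C (s ^ e) * a1 ^ n := by
    apply hinj
    have h1 : P.O.subtype s = w⁻¹ := rfl
    simp only [map_mul, map_pow, map_add, PowerSeries.map_C, PowerSeries.map_X, hma, hmb, h1]
    have h2 : (C w⁻¹ + X : R⟦X⟧) = C w⁻¹ * y ^ n := by
      rw [hy, mul_add, mul_one, ← mul_assoc, hCw, one_mul]
    rw [h2, ← h]
    ring
  have hb0 : b1 = 0 := by
    refine li_core P.ev s P.ev_inv ?_ ?_ ?_ he0 hen key
    · intro h0
      have := congrArg (fun z : P.O => (z : R)) h0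
      exact inv_ne_zero hw this
    · intro u hu
      refine ⟨⟨u * w, P.div u hu⟩, ?_⟩
      apply Subtype.ext
      show (u : R) = w⁻¹ * (u * w)
      rw [mul_comm, mul_assoc, mul_inv_cancel₀ hw, mul_one]
    · intro u hu
      obtain ⟨N, hN⟩ := P.fin u u.2 (fun h0 => hu (Subtype.ext h0))
      refine ⟨N, ?_⟩
      rintro ⟨v, hv⟩
      apply hN
      have h1 : (u : R) = w⁻¹ ^ N * v := by
        have := congrArg (fun z : P.O => (z : R)) hv
        exact this
      rw [h1, mul_right_comm, ← mul_pow, inv_mul_cancel₀ hw, one_pow, one_mul]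
      exact v.2
  rw [hb0, map_zero] at hmb
  have h3 : (C (w⁻¹ ^ (D + E)) : R⟦X⟧) ≠ 0 := by
    intro hh
    have := congrArg constantCoeff hh
    rw [constantCoeff_C, map_zero] at this
    exact pow_ne_zero _ (inv_ne_zero hw) this
  exact (mul_eq_zero.1 hmb.symm).resolve_left h3

lemma Place.C_mem (c : k) : C (algebraMap k R c) ∈ P.B :=
  PS_le_Bd _ (C_mem_PS (P.alg_mem c))

lemma Place.w_mem : C w ∈ P.B := by
  refine ⟨1, ?_⟩
  rw [pow_one, ← map_mul, inv_mul_cancel₀ P.w_ne, map_one]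
  exact one_mem _

theorem Place.conj [CharZero R] {n : ℕ} (hn : 0 < n) {ζ : k} (hζ : IsPrimitiveRoot ζ n) {y : R⟦X⟧}
    (hy : y ^ n = 1 + C w * X) (Q : Polynomial P.B) (hQ : Q.eval₂ P.B.subtype y = 0) (l : ℕ) :
    Q.eval₂ P.B.subtype (C (algebraMap k R (ζ ^ l)) * y) = 0 := by
  classical
  let F := FractionRing R⟦X⟧
  let φ : P.B →+* F := (algebraMap R⟦X⟧ F).comp P.B.subtype
  let KK : Subfield F := Subfield.closure (Set.range φ)
  have hφ : ∀ u, φ u ∈ KK := fun u => Subfield.subset_closure ⟨u, rfl⟩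
  let ψ : P.B →+* KK := φ.codRestrict KK.toSubring hφ
  let Y : F := algebraMap R⟦X⟧ F y
  let θ : P.B := ⟨1 + C w * X, add_mem (one_mem _) (mul_mem P.w_mem (PS_le_Bd _ X_mem_PS))⟩
  have hY : Y ^ n = algebraMap KK F (ψ θ) := by
    show Y ^ n = algebraMap R⟦X⟧ F (1 + C w * X)
    rw [← hy, map_pow]
  let z : KK := ψ ⟨C (algebraMap k R ζ), P.C_mem ζ⟩
  have hzF : algebraMap KK F z = algebraMap R⟦X⟧ F (C (algebraMap k R ζ)) := rfl
  have hζF : IsPrimitiveRoot (algebraMap KK F z) n := by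
    rw [hzF]
    have h1 : Function.Injective ((algebraMap R⟦X⟧ F).comp ((C : R →+* R⟦X⟧).comp
        (algebraMap k R))) := by
      refine (IsFractionRing.injective R⟦X⟧ F).comp ((?_ : Function.Injective _).comp
        (algebraMap k R).injective)
      exact PowerSeries.C_injective
    exact hζ.map_of_injective h1
  have hYint : IsIntegral KK Y := by
    refine ⟨Polynomial.X ^ n - Polynomial.C (ψ θ), Polynomial.monic_X_pow_sub_C _ hn.ne', ?_⟩
    rw [Polynomial.eval₂_sub, Polynomial.eval₂_pow, Polynomial.eval₂_X, Polynomial.eval₂_C, hY,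
      sub_self]
  have hdvd : minpoly KK Y ∣ Polynomial.X ^ n - Polynomial.C (ψ θ) := by
    apply minpoly.dvd
    rw [Polynomial.aeval_def, Polynomial.eval₂_sub, Polynomial.eval₂_pow, Polynomial.eval₂_X,
      Polynomial.eval₂_C, hY, sub_self]
  have hprod := X_pow_sub_C_eq_prod hζF hn hY
  have hmapdvd : (minpoly KK Y).map (algebraMap KK F) ∣
      ∏ i ∈ Finset.range n, (Polynomial.X - Polynomial.C (algebraMap KK F z ^ i * Y)) := by
    rw [← hprod]
    have := Polynomial.map_dvd (algebraMap KK F) hdvd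
    rwa [Polynomial.map_sub, Polynomial.map_pow, Polynomial.map_X, Polynomial.map_C] at this
  set e := (minpoly KK Y).natDegree with he
  have hepos : 0 < e := minpoly.natDegree_pos hYint
  have hYKK : ∃ u ∈ KK, Y ^ e = u := by
    have hm : (minpoly KK Y).Monic := minpoly.monic hYint
    have hs : ((minpoly KK Y).map (algebraMap KK F)).Splits := by
      refine Polynomial.Splits.of_dvd ?_ ?_ hmapdvd
      · exact Polynomial.Splits.prod fun i _ => Polynomial.Splits.X_sub_C _
      · exact Finset.prod_ne_zero_iff.2 fun i _ => Polynomial.X_sub_C_ne_zero _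
    have hroots : ∀ r ∈ ((minpoly KK Y).map (algebraMap KK F)).roots,
        ∃ a, r = algebraMap KK F z ^ a * Y := by
      intro r hr
      have h1 : (∏ i ∈ Finset.range n, (Polynomial.X - Polynomial.C
          (algebraMap KK F z ^ i * Y))).eval r = 0 := by
        obtain ⟨q, hq⟩ := hmapdvd
        rw [hq, Polynomial.eval_mul]
        have := Polynomial.isRoot_of_mem_roots hr
        rw [this.eq_zero, zero_mul]
      rw [Polynomial.eval_prod, Finset.prod_eq_zero_iff] at h1
      obtain ⟨a, _, ha⟩ := h1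
      rw [Polynomial.eval_sub, Polynomial.eval_X, Polynomial.eval_C, sub_eq_zero] at ha
      exact ⟨a, ha⟩
    have hms : ∀ S : Multiset F, (∀ r ∈ S, ∃ a, r = algebraMap KK F z ^ a * Y) →
        ∃ A, S.prod = algebraMap KK F z ^ A * Y ^ (Multiset.card S) := by
      intro S
      induction S using Multiset.induction_on with
      | empty => intro _; exact ⟨0, by simp⟩
      | cons r S ih =>
        intro h
        obtain ⟨a, ha⟩ := h r (Multiset.mem_cons_self _ _)
        obtain ⟨A, hA⟩ := ih (fun r' hr' => h r' (Multiset.mem_cons_of_mem hr'))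
        refine ⟨a + A, ?_⟩
        rw [Multiset.prod_cons, ha, hA, Multiset.card_cons]
        ring
    obtain ⟨A, hA⟩ := hms _ hroots
    have hcz := hs.coeff_zero_eq_prod_roots_of_monic (hm.map _)
    have hcard : Multiset.card ((minpoly KK Y).map (algebraMap KK F)).roots = e := by
      rw [← hs.natDegree_eq_card_roots, hm.natDegree_map]
    rw [hA, hcard, hm.natDegree_map, Polynomial.coeff_map] at hcz
    refine ⟨(-1) ^ e * ((algebraMap KK F z)⁻¹ ^ A * algebraMap KK F ((minpoly KK Y).coeff 0)),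
      ?_, ?_⟩
    · refine mul_mem (pow_mem (neg_mem (one_mem _)) _) (mul_mem (pow_mem (KK.inv_mem z.2) _) ?_)
      exact ((minpoly KK Y).coeff 0).2
    · rw [hcz]
      have hz0 : algebraMap KK F z ≠ 0 := hζF.ne_zero hn.ne'
      have h2 : ((-1 : F) ^ e) * (-1) ^ e = 1 := by
        rw [← mul_pow, neg_one_mul, neg_neg, one_pow]
      calc Y ^ e = ((-1 : F) ^ e * (-1) ^ e) * (((algebraMap KK F z)⁻¹ ^ A *
            algebraMap KK F z ^ A) * Y ^ e) := by
            rw [h2, ← mul_pow, inv_mul_cancel₀ hz0]; simp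
        _ = _ := by ring
  have hen : e = n := by
    have hle : e ≤ n := by
      have h1 := Polynomial.natDegree_le_of_dvd hdvd (Polynomial.monic_X_pow_sub_C _ hn.ne').ne_zero
      rwa [Polynomial.natDegree_X_pow_sub_C] at h1
    by_contra hne
    obtain ⟨u, hu, hYe⟩ := hYKK
    rw [Subfield.mem_closure_iff] at hu
    obtain ⟨a, ha, b, hb, hab⟩ := hu
    have hrange : Subring.closure (Set.range φ) = φ.range := by
      apply le_antisymm
      · rw [Subring.closure_le]; intro x hx; exact hx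
      · intro x hx; exact Subring.subset_closure hx
    rw [hrange] at ha hb
    obtain ⟨a', rfl⟩ := ha
    obtain ⟨b', rfl⟩ := hb
    have hY0 : Y ≠ 0 := by
      intro h0
      rw [h0, zero_pow hn.ne'] at hY
      have h1 : algebraMap R⟦X⟧ F (1 + C w * X) = 0 := hY.symm
      rw [map_eq_zero_iff _ (IsFractionRing.injective R⟦X⟧ F)] at h1
      have := congrArg constantCoeff h1
      simp at this
    have hb0 : φ b' ≠ 0 := by
      intro h0
      rw [h0, div_zero] at hab
      rw [← hab] at hYe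
      exact pow_ne_zero _ hY0 hYe
    have h1 : φ b' * Y ^ e = φ a' := by
      rw [hYe, ← hab, mul_div_cancel₀ _ hb0]
    have h2 : (b' : R⟦X⟧) * y ^ e = a' := by
      apply IsFractionRing.injective R⟦X⟧ F
      rw [map_mul, map_pow]
      exact h1
    have h3 := P.pow_not_mem hepos (lt_of_le_of_ne hle hne) hy a'.2 b'.2 h2
    apply hb0
    show algebraMap R⟦X⟧ F b' = 0
    rw [h3, map_zero]
  -- conclusion
  have hmin : minpoly KK Y = Polynomial.X ^ n - Polynomial.C (ψ θ) := by
    refine (Polynomial.eq_of_monic_of_dvd_of_natDegree_le (minpoly.monic hYint)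
      (Polynomial.monic_X_pow_sub_C _ hn.ne') hdvd ?_).symm
    rw [Polynomial.natDegree_X_pow_sub_C, ← hen]
  have hQ0 : Polynomial.aeval Y (Q.map ψ) = 0 := by
    rw [Polynomial.aeval_def, Polynomial.eval₂_map]
    have h1 : (algebraMap KK F).comp ψ = (algebraMap R⟦X⟧ F).comp P.B.subtype := rfl
    rw [h1]
    have := Polynomial.hom_eval₂ Q P.B.subtype (algebraMap R⟦X⟧ F) y
    rw [← this, hQ, map_zero]
  have hd := minpoly.dvd KK Y hQ0
  rw [hmin] at hd
  obtain ⟨q, hq⟩ := hd
  apply IsFractionRing.injective R⟦X⟧ F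
  rw [map_zero, Polynomial.hom_eval₂]
  have h1 : (algebraMap KK F).comp ψ = (algebraMap R⟦X⟧ F).comp P.B.subtype := rfl
  rw [← h1, ← Polynomial.eval₂_map, hq, Polynomial.eval₂_mul, Polynomial.eval₂_sub,
    Polynomial.eval₂_pow, Polynomial.eval₂_X, Polynomial.eval₂_C, map_mul, mul_pow]
  have h2 : algebraMap R⟦X⟧ F (C (algebraMap k R (ζ ^ l))) ^ n = 1 := by
    rw [← map_pow, ← map_pow, ← map_pow, ← pow_mul, mul_comm, pow_mul, hζ.pow_eq_one, one_pow,
      map_one, map_one, map_one]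
  have h3 : algebraMap R⟦X⟧ F y ^ n = algebraMap KK F (ψ θ) := hY
  rw [h2, h3, one_mul, sub_self, zero_mul]

end li

end Pool.Agent.H47.Patch
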