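import Pool.Agent.H47.Patch.Basic

/-! The patched ring of functions on `N`, its constants, Lagrange interpolation. -/

set_option linter.unusedSectionVars false

namespace Pool.Agent.H47.Patch

open Polynomial

variable {k A : Type*} [Field k] [CharZero k] [CommRing A] [IsDomain A] [Algebra k A]
variable {I N : Type*} [Group N]

/-- The local condition at `i`. -/
def Loc (B : Subring A) (g : N) (ζ : k) (y : A) (h : N → A) : Prop :=
  ∀ m, ∃ Q : Polynomial B, ∀ l : ℕ,
    h (m * g ^ l) = Q.eval₂ B.subtype (algebraMap k A (ζ ^ l) * y)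

/-- The ring of patched functions. -/
def TR (AA : Subring A) (B : I → Subring A) (g : I → N) (ζ : I → k) (y : I → A) :
    Subring (N → A) where
  carrier := {h | (∀ m, h m ∈ AA) ∧ ∀ i, Loc (B i) (g i) (ζ i) (y i) h}
  mul_mem' := by
    rintro a b ⟨ha, ha'⟩ ⟨hb, hb'⟩
    refine ⟨fun m => mul_mem (ha m) (hb m), fun i m => ?_⟩
    obtain ⟨P, hP⟩ := ha' i m
    obtain ⟨Q, hQ⟩ := hb' i m
    refine ⟨P * Q, fun l => ?_⟩
    rw [eval₂_mul, ← hP, ← hQ]; rfl
  one_mem' := ⟨fun m => one_mem _, fun i m => ⟨1, fun l => by simp⟩⟩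
  add_mem' := by
    rintro a b ⟨ha, ha'⟩ ⟨hb, hb'⟩
    refine ⟨fun m => add_mem (ha m) (hb m), fun i m => ?_⟩
    obtain ⟨P, hP⟩ := ha' i m
    obtain ⟨Q, hQ⟩ := hb' i m
    refine ⟨P + Q, fun l => ?_⟩
    rw [eval₂_add, ← hP, ← hQ]; rfl
  zero_mem' := ⟨fun m => zero_mem _, fun i m => ⟨0, fun l => by simp⟩⟩
  neg_mem' := by
    rintro a ⟨ha, ha'⟩
    refine ⟨fun m => neg_mem (ha m), fun i m => ?_⟩
    obtain ⟨P, hP⟩ := ha' i m
    refine ⟨-P, fun l => ?_⟩
    rw [eval₂_neg, ← hP]; rfl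

variable {AA : Subring A} {B : I → Subring A} {g : I → N} {ζ : I → k} {y : I → A}

lemma TR_translate {h : N → A} (hh : h ∈ TR AA B g ζ y) (n : N) :
    (fun m => h (n * m)) ∈ TR AA B g ζ y := by
  refine ⟨fun m => hh.1 _, fun i m => ?_⟩
  obtain ⟨P, hP⟩ := hh.2 i (n * m)
  exact ⟨P, fun l => by rw [← hP, mul_assoc]⟩

lemma mem_B_of_const {B : Subring A} {g : N} {ζ : k} {y : A} {n : ℕ} (hn : 0 < n)
    (hζ : IsPrimitiveRoot ζ n) (hk : ∀ c : k, algebraMap k A c ∈ B) (hy : y ^ n ∈ B) {c : A}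
    (h : Loc B g ζ y (fun _ => c)) : c ∈ B := by
  obtain ⟨Q, hQ⟩ := h 1
  have h1 : ∀ l, c = ∑ j ∈ Q.support, (Q.coeff j : A) * (algebraMap k A (ζ ^ l) * y) ^ j := by
    intro l
    have := hQ l
    rw [eval₂_eq_sum, Polynomial.sum] at this
    exact this
  have hn' : (n : k) ≠ 0 := by exact_mod_cast hn.ne'
  have h2 : (n : A) * c = ∑ j ∈ Q.support, (Q.coeff j : A) *
      (algebraMap k A (if j % n = 0 then (n : k) else 0) * y ^ j) := by
    calc (n : A) * c = ∑ l ∈ Finset.range n, c := by simp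
      _ = ∑ l ∈ Finset.range n, ∑ j ∈ Q.support,
          (Q.coeff j : A) * (algebraMap k A (ζ ^ l) * y) ^ j :=
          Finset.sum_congr rfl fun l _ => h1 l
      _ = ∑ j ∈ Q.support, ∑ l ∈ Finset.range n,
          (Q.coeff j : A) * (algebraMap k A (ζ ^ l) * y) ^ j := Finset.sum_comm
      _ = _ := by
        apply Finset.sum_congr rfl
        intro j _
        have h3 := geom_root hζ hn j 0
        simp only [mul_zero, pow_zero, inv_one, mul_one, Nat.zero_mod] at h3
        have h4 : (if j % n = 0 then (n : k) else 0) = ∑ l ∈ Finset.range n, ζ ^ (l * j) := by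
          rw [h3]
          split_ifs <;> rfl
        rw [h4, map_sum, Finset.sum_mul, Finset.mul_sum]
        apply Finset.sum_congr rfl
        intro l _
        rw [mul_pow, ← map_pow, ← pow_mul]
  have h3 : c = algebraMap k A (n : k)⁻¹ * ((n : A) * c) := by
    have : (n : A) = algebraMap k A (n : k) := by simp
    rw [this, ← mul_assoc, ← map_mul, inv_mul_cancel₀ hn', map_one, one_mul]
  rw [h3, h2]
  refine mul_mem (hk _) (sum_mem fun j _ => mul_mem (Q.coeff j).2 ?_)
  split_ifs with hj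
  · refine mul_mem (hk _) ?_
    obtain ⟨d, hd⟩ := Nat.dvd_of_mod_eq_zero hj
    rw [hd, pow_mul]
    exact pow_mem hy _
  · rw [map_zero, zero_mul]
    exact zero_mem _

section lagrange

variable [Fintype N]
variable {n : I → ℕ} (hn : ∀ i, 0 < n i) (hζ : ∀ i, IsPrimitiveRoot (ζ i) (n i))
  (hk : ∀ i (c : k), algebraMap k A c ∈ B i) (hy : ∀ i, y i ^ n i ∈ B i)

include hn hζ hk hy in
lemma mem_of_const {c : A} (h : (fun _ => c) ∈ TR AA B g ζ y) : c ∈ AA ∧ ∀ i, c ∈ B i :=
  ⟨h.1 1, fun i => mem_B_of_const (hn i) (hζ i) (hk i) (hy i) (h.2 i)⟩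

/-- evaluation at a point -/
def evT (T : Subring (N → A)) (m : N) : T →+* A := (Pi.evalRingHom (fun _ : N => A) m).comp T.subtype

include hn hζ hk hy in
lemma coeff_mem_of_eval {Φ : Polynomial (TR AA B g ζ y)} {Ψ : Polynomial A}
    (h : ∀ m, Φ.map (evT _ m) = Ψ) (j : ℕ) : Ψ.coeff j ∈ AA ∧ ∀ i, Ψ.coeff j ∈ B i := by
  apply mem_of_const (g := g) hn hζ hk hy
  have : (fun _ => Ψ.coeff j) = (Φ.coeff j : N → A) := by
    funext m
    rw [← h m, coeff_map]; rfl
  rw [this]
  exact (Φ.coeff j).2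

/-- the product of all `X - f m` -/
noncomputable def Phi (f : N → A) : Polynomial A := ∏ m, (X - C (f m))

include hn hζ hk hy in
lemma Phi_coeff_mem {f : N → A} (hf : f ∈ TR AA B g ζ y) (j : ℕ) :
    (Phi f).coeff j ∈ AA ∧ ∀ i, (Phi f).coeff j ∈ B i := by
  let fT : N → TR AA B g ζ y := fun n => ⟨fun m => f (n * m), TR_translate hf n⟩
  apply coeff_mem_of_eval (g := g) hn hζ hk hy (Φ := ∏ n, (X - C (fT n)))
  intro m
  rw [Polynomial.map_prod]
  simp only [Polynomial.map_sub, map_X, map_C]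
  exact Fintype.prod_equiv (Equiv.mulRight m) _ _ (fun n => rfl)

/-- product of differences -/
noncomputable def Dif [DecidableEq N] (f : N → A) (m : N) : A := ∏ m' ∈ Finset.univ.erase m, (f m - f m')

lemma Dif_eq [DecidableEq N] (f : N → A) (m : N) :
    Dif f m = ∏ n ∈ Finset.univ.erase (1 : N), (f m - f (n * m)) := by
  rw [Dif]
  refine Finset.prod_bij' (fun m' _ => m' * m⁻¹) (fun n _ => n * m) ?_ ?_ ?_ ?_ ?_
  · intro a ha
    simp only [Finset.mem_erase, Finset.mem_univ, and_true] at ha ⊢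
    intro h
    apply ha
    exact eq_of_mul_inv_eq_one h
  · intro a ha
    simp only [Finset.mem_erase, Finset.mem_univ, and_true] at ha ⊢
    intro h
    apply ha
    exact mul_eq_right.1 h
  · intro a _; group
  · intro a _; group
  · intro a _
    congr 2
    group

lemma Dif_mem [DecidableEq N] {f : N → A} (hf : f ∈ TR AA B g ζ y) :
    Dif f ∈ TR AA B g ζ y := by
  have : Dif f = ∏ n ∈ Finset.univ.erase (1 : N), (f - fun m => f (n * m)) := by
    funext m
    rw [Dif_eq, Finset.prod_apply]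
    rfl
  rw [this]
  exact prod_mem fun n _ => sub_mem hf (TR_translate hf n)

/-- the product of all other values -/
noncomputable def Oth [DecidableEq N] (D : N → A) (m : N) : A := ∏ m' ∈ Finset.univ.erase m, D m'

lemma Oth_mem [DecidableEq N] {D : N → A} (hD : D ∈ TR AA B g ζ y) :
    Oth D ∈ TR AA B g ζ y := by
  have : Oth D = ∏ n ∈ Finset.univ.erase (1 : N), (fun m => D (n * m)) := by
    funext m
    rw [Oth, Finset.prod_apply]
    refine Finset.prod_bij' (fun m' _ => m' * m⁻¹) (fun n _ => n * m) ?_ ?_ ?_ ?_ ?_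
    · intro a ha
      simp only [Finset.mem_erase, Finset.mem_univ, and_true] at ha ⊢
      intro h
      apply ha
      exact eq_of_mul_inv_eq_one h
    · intro a ha
      simp only [Finset.mem_erase, Finset.mem_univ, and_true] at ha ⊢
      intro h
      apply ha
      exact mul_eq_right.1 h
    · intro a _; group
    · intro a _; group
    · intro a _
      congr 1
      group
  rw [this]
  exact prod_mem fun n _ => TR_translate hD n

lemma mul_Oth [DecidableEq N] (D : N → A) (m : N) : D m * Oth D m = ∏ m', D m' := by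
  rw [Oth, Finset.mul_prod_erase _ _ (Finset.mem_univ m)]

include hn hζ hk hy in
lemma lagrange [DecidableEq N] {f u : N → A} (hf : f ∈ TR AA B g ζ y) (hu : u ∈ TR AA B g ζ y) :
    ∃ Λ : Polynomial A, (∀ j, Λ.coeff j ∈ AA ∧ ∀ i, Λ.coeff j ∈ B i) ∧
      ∀ m, (∏ m', Dif f m') * u m = Λ.eval (f m) := by
  set v : N → A := u * Oth (Dif f) with hv
  have hvT : v ∈ TR AA B g ζ y := mul_mem hu (Oth_mem (Dif_mem hf))
  let fT : N → TR AA B g ζ y := fun n => ⟨fun m => f (n * m), TR_translate hf n⟩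
  let vT : N → TR AA B g ζ y := fun n => ⟨fun m => v (n * m), TR_translate hvT n⟩
  let Λ : Polynomial A := ∑ m, C (v m) * ∏ m' ∈ Finset.univ.erase m, (X - C (f m'))
  refine ⟨Λ, ?_, ?_⟩
  · apply coeff_mem_of_eval (g := g) hn hζ hk hy
      (Φ := ∑ n, C (vT n) * ∏ n' ∈ Finset.univ.erase n, (X - C (fT n')))
    intro m
    simp only [Polynomial.map_sum, Polynomial.map_mul, Polynomial.map_prod, Polynomial.map_sub,
      map_X, map_C]
    refine Fintype.sum_equiv (Equiv.mulRight m) _ _ (fun n => ?_)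
    congr 1
    refine Finset.prod_bij' (fun n' _ => n' * m) (fun m' _ => m' * m⁻¹) ?_ ?_ ?_ ?_ ?_
    · intro a ha
      simp only [Finset.mem_erase, Finset.mem_univ, and_true, Equiv.coe_mulRight, ne_eq,
        mul_left_inj] at ha ⊢
      exact ha
    · intro a ha
      simp only [Finset.mem_erase, Finset.mem_univ, and_true, Equiv.coe_mulRight, ne_eq] at ha ⊢
      intro h
      apply ha
      rw [← h]; group
    · intro a _; group
    · intro a _; group
    · intro a _
      rfl
  · intro m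
    have h1 : Λ.eval (f m) = v m * Dif f m := by
      simp only [Λ, eval_finsetSum, eval_mul, eval_C, eval_prod, eval_sub, eval_X]
      rw [Finset.sum_eq_single m]
      · rfl
      · intro b _ hb
        rw [Finset.prod_eq_zero (Finset.mem_erase.2 ⟨hb.symm, Finset.mem_univ m⟩) (sub_self _),
          mul_zero]
      · intro h; exact absurd (Finset.mem_univ m) h
    rw [h1, hv, ← mul_Oth (Dif f) m]
    simp only [Pi.mul_apply]
    ring

end lagrange

/-- Stability of the set of roots of a factor under right multiplication by `g`. -/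
lemma stable {B : Subring A} {g : N} {ζ : k} {y : A} {f : N → A} (hf : Loc B g ζ y f)
    (hinj : Function.Injective f)
    (hconj : ∀ (Q : Polynomial B), Q.eval₂ B.subtype y = 0 → ∀ l : ℕ,
      Q.eval₂ B.subtype (algebraMap k A (ζ ^ l) * y) = 0)
    (S : Finset N) (b : A) (hb0 : b ≠ 0)
    (hb : ∀ j, (C b * ∏ m ∈ S, (X - C (f m))).coeff j ∈ B) {m : N} (hm : m ∈ S) (l : ℕ) :
    m * g ^ l ∈ S := by
  classical
  obtain ⟨P, hP⟩ := hf m
  set U := C b * ∏ m ∈ S, (X - C (f m)) with hU
  obtain ⟨V, hV⟩ : ∃ V : Polynomial B, V.map B.subtype = U := by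
    have h1 : (U.support.image (U.coeff) : Set A) ⊆ B := by
      intro x hx
      simp only [Finset.coe_image, Set.mem_image, Finset.mem_coe] at hx
      obtain ⟨j, _, rfl⟩ := hx
      exact hb j
    refine ⟨∑ j ∈ U.support, C (⟨U.coeff j, hb j⟩ : B) * X ^ j, ?_⟩
    simp only [Polynomial.map_sum, Polynomial.map_mul, map_C, Polynomial.map_pow, map_X]
    conv_rhs => rw [U.as_sum_support_C_mul_X_pow]
    rfl
  have hcomp : ∀ z : A, (V.comp P).eval₂ B.subtype z = U.eval (P.eval₂ B.subtype z) := by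
    intro z
    rw [eval₂_comp, ← hV, eval_map]
  have h0 : (V.comp P).eval₂ B.subtype y = 0 := by
    rw [hcomp]
    have h1 := hP 0
    rw [pow_zero, mul_one, pow_zero, map_one, one_mul] at h1
    rw [← h1, hU, eval_mul, eval_prod, Finset.prod_eq_zero hm (by simp), mul_zero]
  have h2 := hconj _ h0 l
  rw [hcomp, ← hP l, hU, eval_mul, eval_C, eval_prod] at h2
  have h3 := (mul_eq_zero.1 h2).resolve_left hb0
  rw [Finset.prod_eq_zero_iff] at h3
  obtain ⟨m', hm', h4⟩ := h3
  rw [eval_sub, eval_X, eval_C, sub_eq_zero] at h4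
  rw [hinj h4]
  exact hm'

end Pool.Agent.H47.Patch
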