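import Pool.Agent.H47.Patch.Const
import Pool.Agent.H47.Patch.TRing

/-! The patching theorem over `k((z))(x)`, with explicit integral data. -/

set_option linter.unusedSectionVars false

namespace Pool.Agent.H47.Patch

open Polynomial

variable {k : Type*} [Field k] {I : Type*}

/-- power series over `k(x)` with values in `AI` up to a common denominator -/
def AA1 (w : I → RatFunc k) : Subring (PowerSeries (RatFunc k)) where
  carrier := {u | ∃ d ∈ AI k w, d ≠ 0 ∧ PowerSeries.C d * u ∈ PS (AI k w)}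
  mul_mem' := by
    rintro a b ⟨d, hd, hd0, h⟩ ⟨d', hd', hd0', h'⟩
    refine ⟨d * d', mul_mem hd hd', mul_ne_zero hd0 hd0', ?_⟩
    have := mul_mem h h'
    rwa [show PowerSeries.C d * a * (PowerSeries.C d' * b) = PowerSeries.C (d * d') * (a * b) by
      rw [map_mul]; ring] at this
  one_mem' := ⟨1, one_mem _, one_ne_zero, by rw [map_one, one_mul]; exact one_mem _⟩
  add_mem' := by
    rintro a b ⟨d, hd, hd0, h⟩ ⟨d', hd', hd0', h'⟩
    refine ⟨d * d', mul_mem hd hd', mul_ne_zero hd0 hd0', ?_⟩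
    have := add_mem (mul_mem (C_mem_PS hd') h) (mul_mem (C_mem_PS hd) h')
    rwa [show PowerSeries.C d' * (PowerSeries.C d * a) + PowerSeries.C d * (PowerSeries.C d' * b)
      = PowerSeries.C (d * d') * (a + b) by rw [map_mul]; ring] at this
  zero_mem' := ⟨1, one_mem _, one_ne_zero, by rw [mul_zero]; exact zero_mem _⟩
  neg_mem' := by
    rintro a ⟨d, hd, hd0, h⟩
    exact ⟨d, hd, hd0, by rw [mul_neg]; exact neg_mem h⟩

lemma PS_le_AA1 (w : I → RatFunc k) : PS (AI k w) ≤ AA1 w := by
  intro u hu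
  exact ⟨1, one_mem _, one_ne_zero, by rwa [map_one, one_mul]⟩

section data

variable [Fintype I] {c : I → k} {w : I → RatFunc k} {r : I → k[X]}
  (hc : Function.Injective c) (hd : ∀ i, (r i).natDegree ≤ 1)
  (hr : ∀ i, (r i).eval (c i) ≠ 0)
  (hw : ∀ i, w i * algebraMap k[X] (RatFunc k) (X - C (c i)) = algebraMap k[X] (RatFunc k) (r i))

/-- the ring of series with bounded poles at `c i` -/
noncomputable abbrev BB (i : I) : Subring (PowerSeries (RatFunc k)) :=
  (placeAt (c i) (w i) (r i) (hr i) (hw i)).B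

lemma C_mem_BB (i : I) (d : RatFunc k) : PowerSeries.C d ∈ BB hr hw i := by
  obtain ⟨N, hN⟩ := (placeAt (c i) (w i) (r i) (hr i) (hw i)).frac d
  refine ⟨N, ?_⟩
  rw [← map_mul]
  exact C_mem_PS hN

lemma iot_mem_BB (i : I) (P : Polynomial (PowerSeries k)) : iot k P ∈ BB hr hw i := by
  induction P using Polynomial.induction_on' with
  | add p q hp hq => rw [map_add]; exact add_mem hp hq
  | monomial e a =>
    rw [← C_mul_X_pow_eq_monomial, map_mul, map_pow, iot_C, iot_X]
    refine mul_mem (PS_le_Bd _ ?_) (pow_mem (C_mem_BB hr hw i _) _)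
    intro t
    rw [PowerSeries.coeff_map]
    exact (placeAt (c i) (w i) (r i) (hr i) (hw i)).alg_mem _

lemma r_eq {r : k[X]} (hd : r.natDegree ≤ 1) (c : k) :
    r = C (r.eval c) + C (r.coeff 1) * (X - C c) := by
  have h := r.as_sum_range_C_mul_X_pow' (n := 2) (by omega)
  rw [Finset.sum_range_succ, Finset.sum_range_succ, Finset.sum_range_zero, zero_add, pow_zero,
    mul_one, pow_one] at h
  have h1 : r.eval c = r.coeff 0 + r.coeff 1 * c := by
    conv_lhs => rw [h]
    simp
  rw [h1]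
  conv_lhs => rw [h]
  rw [C_add, C_mul]; ring

include hd hr hw in
lemma inv_mem_Wi (i : I) : (algebraMap k[X] (RatFunc k) (X - C (c i)))⁻¹ ∈ Wi k w i := by
  have hX : algebraMap k[X] (RatFunc k) (X - C (c i)) ≠ 0 := by
    rw [Ne, map_eq_zero_iff _ algebraMap_injective']; exact X_sub_C_ne_zero _
  have h1 := hw i
  rw [r_eq (hd i) (c i), map_add, map_mul] at h1
  have ha := hr i
  have haR : algebraMap k (RatFunc k) ((r i).eval (c i)) ≠ 0 := by
    rwa [Ne, map_eq_zero_iff _ (algebraMap k (RatFunc k)).injective]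
  have hC : ∀ a : k, algebraMap k[X] (RatFunc k) (C a) = algebraMap k (RatFunc k) a := by
    intro a; rw [RatFunc.algebraMap_C, RatFunc.algebraMap_eq_C]
  rw [hC, hC] at h1
  have h2 : (algebraMap k[X] (RatFunc k) (X - C (c i)))⁻¹
      = algebraMap k (RatFunc k) ((r i).eval (c i))⁻¹ *
        (w i - algebraMap k (RatFunc k) ((r i).coeff 1)) := by
    rw [map_inv₀]
    field_simp
    rw [mul_sub, mul_comm _ (w i), h1]
    ring
  rw [h2]
  exact mul_mem (algebraMap_mem_Wi k w i _) (sub_mem (w_mem_Wi k w i) (algebraMap_mem_Wi k w i _))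

include hc hd hr hw in
lemma w_mul_w (i j : I) (hij : i ≠ j) : ∃ a b e : k, w i * w j =
    algebraMap k (RatFunc k) a + algebraMap k (RatFunc k) b * w i
      + algebraMap k (RatFunc k) e * w j := by
  have hcij : c i - c j ≠ 0 := sub_ne_zero.2 (fun h => hij (hc h))
  set ai := (r i).eval (c i)
  set aj := (r j).eval (c j)
  set bi := (r i).coeff 1
  set bj := (r j).coeff 1
  have hX : ∀ i, algebraMap k[X] (RatFunc k) (X - C (c i)) ≠ 0 := by
    intro i
    rw [Ne, map_eq_zero_iff _ algebraMap_injective']; exact X_sub_C_ne_zero _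
  have hC : ∀ a : k, algebraMap k[X] (RatFunc k) (C a) = algebraMap k (RatFunc k) a := by
    intro a; rw [RatFunc.algebraMap_C, RatFunc.algebraMap_eq_C]
  have h1 : ∀ i, (w i - algebraMap k (RatFunc k) ((r i).coeff 1)) *
      algebraMap k[X] (RatFunc k) (X - C (c i)) = algebraMap k (RatFunc k) ((r i).eval (c i)) := by
    intro i
    have := hw i
    rw [r_eq (hd i) (c i), map_add, map_mul, hC, hC] at this
    rw [sub_mul, this]; ring
  have hcR : algebraMap k (RatFunc k) (c i - c j) ≠ 0 := by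
    rwa [Ne, map_eq_zero_iff _ (algebraMap k (RatFunc k)).injective]
  have hdiff : algebraMap k[X] (RatFunc k) (X - C (c j)) - algebraMap k[X] (RatFunc k) (X - C (c i))
      = algebraMap k (RatFunc k) (c i - c j) := by
    rw [← map_sub, ← hC]; congr 1; rw [C_sub]; ring
  have key : (w i - algebraMap k (RatFunc k) bi) * (w j - algebraMap k (RatFunc k) bj)
      = algebraMap k (RatFunc k) (aj * (c i - c j)⁻¹) * (w i - algebraMap k (RatFunc k) bi)
      - algebraMap k (RatFunc k) (ai * (c i - c j)⁻¹) * (w j - algebraMap k (RatFunc k) bj) := by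
    have e1 := h1 i
    have e2 := h1 j
    have h2 : algebraMap k (RatFunc k) (c i - c j)⁻¹ * algebraMap k (RatFunc k) (c i - c j) = 1 := by
      rw [← map_mul, inv_mul_cancel₀ hcij, map_one]
    rw [map_mul, map_mul]
    set U := w i - algebraMap k (RatFunc k) bi
    set V := w j - algebraMap k (RatFunc k) bj
    set xi := algebraMap k[X] (RatFunc k) (X - C (c i))
    set xj := algebraMap k[X] (RatFunc k) (X - C (c j))
    have e1' : U * xi = algebraMap k (RatFunc k) ai := e1
    have e2' : V * xj = algebraMap k (RatFunc k) aj := e2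
    rw [← e1', ← e2']
    have h3 : V * xj * algebraMap k (RatFunc k) (c i - c j)⁻¹ * U
        - U * xi * algebraMap k (RatFunc k) (c i - c j)⁻¹ * V
        = U * V * (algebraMap k (RatFunc k) (c i - c j)⁻¹ * (xj - xi)) := by ring
    rw [h3, hdiff, h2, mul_one]
  refine ⟨aj * (c i - c j)⁻¹ * (-bi) + ai * (c i - c j)⁻¹ * bj - bi * bj,
    aj * (c i - c j)⁻¹ + bj, bi - ai * (c i - c j)⁻¹, ?_⟩
  have h4 : w i * w j = (w i - algebraMap k (RatFunc k) bi) * (w j - algebraMap k (RatFunc k) bj)
      + algebraMap k (RatFunc k) bj * w i + algebraMap k (RatFunc k) bi * w j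
      - algebraMap k (RatFunc k) (bi * bj) := by
    rw [map_mul]; ring
  rw [h4, key]
  simp only [map_add, map_sub, map_mul, map_neg]
  ring

include hd hr hw in
lemma poly_mem_AA1 [Nonempty I] (p : k[X]) :
    PowerSeries.C (algebraMap k[X] (RatFunc k) p) ∈ AA1 w := by
  obtain ⟨i⟩ := ‹Nonempty I›
  set v := (algebraMap k[X] (RatFunc k) (X - C (c i)))⁻¹ with hv
  have hvW : v ∈ AI k w := Wi_le_AI k w i (inv_mem_Wi hd hr hw i)
  have hX : algebraMap k[X] (RatFunc k) (X - C (c i)) ≠ 0 := by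
    rw [Ne, map_eq_zero_iff _ algebraMap_injective']; exact X_sub_C_ne_zero _
  have hv0 : v ≠ 0 := inv_ne_zero hX
  have hC : ∀ a : k, algebraMap k[X] (RatFunc k) (C a) = algebraMap k (RatFunc k) a := by
    intro a; rw [RatFunc.algebraMap_C, RatFunc.algebraMap_eq_C]
  have h1 : ∃ e : ℕ, v ^ e * algebraMap k[X] (RatFunc k) p ∈ AI k w := by
    induction p using Polynomial.induction_on with
    | C a => exact ⟨0, by rw [pow_zero, one_mul, hC]; exact algebraMap_mem_AI k w a⟩
    | add p q hp hq =>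
      obtain ⟨e, he⟩ := hp
      obtain ⟨e', he'⟩ := hq
      refine ⟨e + e', ?_⟩
      have := add_mem (mul_mem (pow_mem hvW e') he) (mul_mem (pow_mem hvW e) he')
      rwa [show v ^ e' * (v ^ e * algebraMap k[X] (RatFunc k) p)
        + v ^ e * (v ^ e' * algebraMap k[X] (RatFunc k) q)
        = v ^ (e + e') * algebraMap k[X] (RatFunc k) (p + q) by rw [map_add]; ring] at this
    | monomial n a ih =>
      obtain ⟨e, he⟩ := ih
      refine ⟨e + 1, ?_⟩
      have hx : v * algebraMap k[X] (RatFunc k) X ∈ AI k w := by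
        have : v * algebraMap k[X] (RatFunc k) X = 1 + algebraMap k (RatFunc k) (c i) * v := by
          rw [← hC]
          have h2 : v * algebraMap k[X] (RatFunc k) (X - C (c i)) = 1 := inv_mul_cancel₀ hX
          rw [map_sub, mul_sub] at h2
          linear_combination h2
        rw [this]
        exact add_mem (one_mem _) (mul_mem (algebraMap_mem_AI k w _) hvW)
      have := mul_mem he hx
      rwa [show v ^ e * algebraMap k[X] (RatFunc k) (C a * X ^ n) *
        (v * algebraMap k[X] (RatFunc k) X)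
        = v ^ (e + 1) * algebraMap k[X] (RatFunc k) (C a * X ^ (n + 1)) by
          rw [pow_succ X n, ← mul_assoc (C a), map_mul _ (C a * X ^ n)]; ring] at this
  obtain ⟨e, he⟩ := h1
  refine ⟨v ^ e, pow_mem hvW e, pow_ne_zero _ hv0, ?_⟩
  rw [← map_mul]
  exact C_mem_PS he

include hc hd hr hw in
lemma const_poly' {u : PowerSeries (RatFunc k)} (hu : u ∈ AA1 w) (hB : ∀ i, u ∈ BB hr hw i) :
    ∃ p : k[X], p ≠ 0 ∧ ∃ P : Polynomial (PowerSeries k),
      iot k P = PowerSeries.C (algebraMap k[X] (RatFunc k) p) * u := by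
  obtain ⟨d, hdA, hd0, hdu⟩ := hu
  obtain ⟨M, pd, hpd, _⟩ := AI_poly hd hw hdA
  obtain ⟨D, hD⟩ := const_poly hc hd hr hw hdu (fun i => mul_mem (C_mem_BB hr hw i d) (hB i))
  obtain ⟨P, hP⟩ := hD (D + M) (by omega)
  have hpd0 : pd ≠ 0 := by
    rintro rfl
    rw [map_zero, mul_eq_zero] at hpd
    rcases hpd with h | h
    · exact hd0 h
    · exact pow_ne_zero _ (qqR_ne_zero c) h
  refine ⟨qq c ^ D * pd, mul_ne_zero (pow_ne_zero _ (qq_ne_zero c)) hpd0, P, ?_⟩
  rw [hP, ← mul_assoc, ← map_mul, map_mul (algebraMap k[X] (RatFunc k)), map_pow, ← hpd]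
  congr 2
  rw [pow_add]; ring

include hc hd hr hw in
lemma const_poly_finset {J : Type*} (s : Finset J) (u : J → PowerSeries (RatFunc k))
    (hu : ∀ j, u j ∈ AA1 w) (hB : ∀ j i, u j ∈ BB hr hw i) :
    ∃ p : k[X], p ≠ 0 ∧ ∀ j ∈ s, ∃ P : Polynomial (PowerSeries k),
      iot k P = PowerSeries.C (algebraMap k[X] (RatFunc k) p) * u j := by
  classical
  choose p hp P hP using fun j => const_poly' hc hd hr hw (hu j) (hB j)
  refine ⟨∏ j ∈ s, p j, Finset.prod_ne_zero_iff.2 fun j _ => hp j, ?_⟩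
  intro j hj
  refine ⟨(∏ j' ∈ s.erase j, p j').map PowerSeries.C * P j, ?_⟩
  rw [map_mul, iot_poly, hP, ← mul_assoc, ← map_mul, ← map_mul, mul_comm, mul_comm _ (p j),
    Finset.mul_prod_erase _ _ hj, mul_comm]

end data

end Pool.Agent.H47.Patch
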