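import Pool.Agent.H47.Patch.Patched
import Pool.Agent.H47.Patch.Data

/-! Equivariant patching data over `k((z))(x)`. -/

set_option linter.unusedSectionVars false

namespace Pool.Agent.H47.Patch

open Polynomial

section eN

variable {H G : Type*} [Group H] [Group G] (α : G →* H) (s : H →* G) (hs : ∀ h, α (s h) = h)

/-- the action of `G` on the set `ker α` -/
def eN (g : G) (m : α.ker) : α.ker :=
  ⟨g⁻¹ * m * s (α g), by
    rw [MonoidHom.mem_ker, map_mul, map_mul, hs, map_inv, MonoidHom.mem_ker.1 m.2, mul_one,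
      inv_mul_cancel]⟩

lemma eN_one (m : α.ker) : eN α s hs 1 m = m := by
  apply Subtype.ext
  simp [eN]

lemma eN_mul (g g' : G) (m : α.ker) : eN α s hs g' (eN α s hs g m) = eN α s hs (g * g') m := by
  apply Subtype.ext
  simp only [eN, mul_inv_rev, map_mul]
  group

/-- conjugation -/
def cj (h : H) (n : α.ker) : α.ker :=
  ⟨s h * n * (s h)⁻¹, α.normal_ker.conj_mem n n.2 (s h)⟩

lemma cj_pow (h : H) (n : α.ker) (l : ℕ) : ((cj α s h n ^ l : α.ker) : G)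
    = s h * (n : G) ^ l * (s h)⁻¹ := by
  rw [SubmonoidClass.coe_pow]
  exact conj_pow

lemma orderOf_cj (h : H) (n : α.ker) : orderOf (cj α s h n) = orderOf n := by
  rw [← Subgroup.orderOf_coe, ← Subgroup.orderOf_coe]
  have : ((cj α s h n : α.ker) : G) = MulAut.conj (s h) (n : G) := rfl
  rw [this]
  exact MulEquiv.orderOf_eq (MulAut.conj (s h)) _

end eN

lemma prim_modEq {k : Type*} [Field k] {ζ : k} {n : ℕ} (hζ : IsPrimitiveRoot ζ n) (hn : 0 < n)
    {a b : ℕ} (h : ζ ^ a = ζ ^ b) : a ≡ b [MOD n] := by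
  wlog hab : a ≤ b with H
  · exact (H hζ hn h.symm (le_of_not_ge hab)).symm
  have hz : ζ ≠ 0 := hζ.ne_zero hn.ne'
  rw [Nat.modEq_iff_dvd' hab]
  apply hζ.dvd_of_pow_eq_one
  apply mul_left_cancel₀ (pow_ne_zero a hz)
  rw [← pow_add, Nat.add_sub_cancel' hab, mul_one, h]

lemma pow_of_modEq {G : Type*} [Group G] {x : G} {n a b : ℕ} (hx : orderOf x ∣ n)
    (h : a ≡ b [MOD n]) : x ^ a = x ^ b :=
  pow_eq_pow_iff_modEq.2 (h.of_dvd hx)

theorem patch_data {k0 k : Type} [Field k0] [CharZero k0] [Field k] [CharZero k] [Algebra k0 k]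
    {H G : Type*} [Group H] [Finite H] [Group G] (α : G →* H) [Fintype α.ker]
    {n0 : ℕ} (hn0 : 0 < n0) (hord0 : ∀ n : α.ker, orderOf n ∣ n0) {z0 : k}
    (hz0 : IsPrimitiveRoot z0 n0)
    (s : H →* G) (hs : ∀ h, α (s h) = h)
    (ρ : H →* (k ≃+* k)) (hρ0 : ∀ h t, ρ h (algebraMap k0 k t) = algebraMap k0 k t)
    (μ : k) (hμ : ∀ h h', ρ h μ = ρ h' μ → ∀ z, ρ h z = ρ h' z)
    (S : H →* (RatFunc k ≃+* RatFunc k)) (a b c d : H → k)
    (hΔ : ∀ h, a h * d h - b h * c h ≠ 0)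
    (hSk : ∀ h (z : k), S h (algebraMap k _ z) = algebraMap k _ (ρ h z))
    (hSX : ∀ h, S h RatFunc.X * (algebraMap k _ (c h) * RatFunc.X + algebraMap k _ (d h))
        = algebraMap k _ (a h) * RatFunc.X + algebraMap k _ (b h))
    (hcent : ∀ h, S h = 1 → ∀ n : G, n ∈ α.ker → s h * n = n * s h) :
    ∃ (f : α.ker → PowerSeries (RatFunc k)) (Φ : Polynomial (Polynomial (PowerSeries k))),
      Function.Injective f ∧ Φ.Monic ∧ Φ.natDegree = Fintype.card α.ker ∧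
      Φ.map (iot k) = ∏ m, (X - C (f m)) ∧
      (∀ (T : Finset α.ker) (b : Polynomial (PowerSeries k)), b ≠ 0 →
        (∀ j, ∃ P, iot k P = iot k b * (∏ m ∈ T, (X - C (f m))).coeff j) →
          T = ∅ ∨ T = Finset.univ) ∧
      ∀ g : G, ∃ Δ : Polynomial (PowerSeries k), Δ ≠ 0 ∧
        ∃ Λ : Polynomial (Polynomial (PowerSeries k)),
        ∀ m : α.ker, iot k Δ * PowerSeries.map ((S (α g) : RatFunc k ≃+* RatFunc k) :
          RatFunc k →+* RatFunc k) (f (eN α s hs g m)) = (Λ.map (iot k)).eval (f m) := by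
  classical
  have hinf : Infinite k0 := inferInstance
  obtain ⟨pt, hpt1, hpt2⟩ := exists_points (k0 := k0) a b c d hΔ (fun h => S h)
    (fun h => (ρ h : k →+* k)) hρ0 μ hμ hSk hSX
  let ix : α.ker ↪ ℕ := (Fintype.equivFin α.ker).toEmbedding.trans Fin.valEmbedding
  let Q := H ⧸ S.ker
  have := Fintype.ofFinite Q
  let ou : Q → H := Quotient.out
  have hou : ∀ q : Q, (QuotientGroup.mk (ou q) : Q) = q := fun q => Quotient.out_eq q
  have hS_eq : ∀ h h' : H, (QuotientGroup.mk h : Q) = QuotientGroup.mk h' → S h = S h' := by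
    intro h h' hh
    rw [QuotientGroup.eq, MonoidHom.mem_ker, map_mul, map_inv, inv_mul_eq_one] at hh
    exact hh
  have hcj_eq : ∀ h h' : H, (QuotientGroup.mk h : Q) = QuotientGroup.mk h' → ∀ n,
      cj α s h n = cj α s h' n := by
    intro h h' hh n
    rw [QuotientGroup.eq, MonoidHom.mem_ker] at hh
    have h1 := hcent _ hh n n.2
    rw [map_mul, map_inv] at h1
    apply Subtype.ext
    show s h * n * (s h)⁻¹ = s h' * n * (s h')⁻¹
    rw [mul_inv_eq_iff_eq_mul, eq_comm]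
    calc s h' * ↑n * (s h')⁻¹ * s h = s h * (((s h)⁻¹ * s h') * ↑n) * (s h')⁻¹ * s h := by group
      _ = s h * (↑n * ((s h)⁻¹ * s h')) * (s h')⁻¹ * s h := by rw [h1]
      _ = _ := by group
  -- the cyclotomic character
  have hnz : NeZero n0 := ⟨hn0.ne'⟩
  have hχ : ∀ h : H, ∃ x : ℕ, ρ h z0 = z0 ^ x := by
    intro h
    have h1 : (ρ h z0) ^ n0 = 1 := by rw [← map_pow, hz0.pow_eq_one, map_one]
    obtain ⟨x, _, hx⟩ := hz0.eq_pow_of_pow_eq_one h1
    exact ⟨x, hx.symm⟩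
  choose χ hχ using hχ
  have hχm : ∀ h h', χ h * χ h' ≡ χ (h * h') [MOD n0] := by
    intro h h'
    apply prim_modEq hz0 hn0
    rw [← hχ, map_mul, pow_mul, ← hχ, ← map_pow, ← hχ]
    rfl
  have hχ1 : χ 1 ≡ 1 [MOD n0] := by
    apply prim_modEq hz0 hn0
    rw [← hχ, map_one, pow_one]; rfl
  have hχi : ∀ h, χ h * χ h⁻¹ ≡ 1 [MOD n0] := by
    intro h
    have := hχm h h⁻¹
    rw [mul_inv_cancel] at this
    exact this.trans hχ1
  have hρ_eq : ∀ h h' : H, (QuotientGroup.mk h : Q) = QuotientGroup.mk h' → ∀ z, ρ h⁻¹ z = ρ h'⁻¹ z := by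
    intro h h' hh z
    have h1 := hS_eq _ _ hh
    have h2 : S h⁻¹ = S h'⁻¹ := by rw [map_inv, map_inv, h1]
    have h3 := hSk h⁻¹ z
    rw [h2, hSk] at h3
    exact ((algebraMap k (RatFunc k)).injective h3).symm
  have hχ_eq : ∀ h h' : H, (QuotientGroup.mk h : Q) = QuotientGroup.mk h' →
      χ h⁻¹ ≡ χ h'⁻¹ [MOD n0] := by
    intro h h' hh
    apply prim_modEq hz0 hn0
    rw [← hχ, ← hχ]
    exact hρ_eq h h' hh _
  let gI : H → α.ker → α.ker := fun h n => cj α s h n ^ χ h⁻¹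
  have hgI_eq : ∀ h h' : H, (QuotientGroup.mk h : Q) = QuotientGroup.mk h' → ∀ n,
      gI h n = gI h' n := by
    intro h h' hh n
    show cj α s h n ^ χ h⁻¹ = cj α s h' n ^ χ h'⁻¹
    rw [hcj_eq h h' hh]
    exact pow_of_modEq (hord0 _) (hχ_eq h h' hh)
  have hgI_ord : ∀ h n, orderOf (gI h n) = orderOf n := by
    intro h n
    show orderOf (cj α s h n ^ χ h⁻¹) = _
    have hco : Nat.Coprime (orderOf (cj α s h n)) (χ h⁻¹) := by
      have h1 : χ h * χ h⁻¹ ≡ 1 [MOD orderOf (cj α s h n)] := (hχi h).of_dvd (hord0 _)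
      rw [mul_comm] at h1
      exact (Nat.coprime_of_mul_modEq_one (χ h) h1).symm
    rw [hco.orderOf_pow, orderOf_cj]
  let cc : Q × α.ker → k := fun i => pol a b c d (ou i.1) (ρ (ou i.1) (pt (ix i.2)))
  let ww : Q × α.ker → RatFunc k := fun i =>
    S (ou i.1) (algebraMap k[X] (RatFunc k) (X - C (pt (ix i.2))))⁻¹
  let r : Q × α.ker → k[X] := fun i => rr a c d (ou i.1) (ρ (ou i.1) (pt (ix i.2)))
  let gg : Q × α.ker → α.ker := fun i => gI (ou i.1) i.2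
  have hggd : ∀ i, orderOf (gg i) ∣ n0 := fun i => hord0 _
  let ζ : Q × α.ker → k := fun i => z0 ^ (n0 / orderOf (gg i))
  have hζ : ∀ i, IsPrimitiveRoot (ζ i) (orderOf (gg i)) := fun i =>
    hz0.pow hn0 (Nat.div_mul_cancel (hggd i)).symm
  have hc : Function.Injective cc := by
    rintro ⟨q, n⟩ ⟨q', n'⟩ h
    obtain ⟨h1, h2⟩ := hpt2 _ _ _ _ h
    have h3 : n = n' := ix.injective h1
    have h4 : q = q' := by
      rw [← hou q, ← hou q', QuotientGroup.eq, MonoidHom.mem_ker, map_mul, map_inv,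
        inv_mul_eq_one]
      exact h2
    rw [h3, h4]
  have hd : ∀ i, (r i).natDegree ≤ 1 := fun i => rr_natDegree a c d _ _
  have hr : ∀ i, (r i).eval (cc i) ≠ 0 := fun i => rr_eval a b c d hΔ (hpt1 _ _)
  have hw : ∀ i, ww i * algebraMap k[X] (RatFunc k) (X - C (cc i))
      = algebraMap k[X] (RatFunc k) (r i) :=
    fun i => w_eq a b c d (fun h => S h) (fun h => (ρ h : k →+* k)) hSk hSX (hpt1 _ _)
  obtain ⟨f, hf, hinj, Φ, hΦm, hΦ, hΦd⟩ := exists_patched hc hd hr hw gg ζ hζ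
  have hg : Subgroup.closure (Set.range gg) = ⊤ := by
    rw [eq_top_iff]
    intro n _
    apply Subgroup.subset_closure
    refine ⟨(QuotientGroup.mk 1, n), ?_⟩
    show gI (ou (QuotientGroup.mk 1)) n = n
    rw [hgI_eq (ou (QuotientGroup.mk 1)) 1 (hou _)]
    show cj α s 1 n ^ χ 1⁻¹ = n
    have h1 : cj α s 1 n = n := by
      apply Subtype.ext
      simp [cj]
    rw [h1, inv_one]
    calc n ^ χ 1 = n ^ 1 := pow_of_modEq (hord0 n) hχ1
      _ = n := pow_one n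
  refine ⟨f, Φ, hinj, hΦm, hΦd, hΦ, fun T b hb h => irr0 hr hw gg ζ hζ hg hf hinj T b hb h, ?_⟩
  intro g
  set h := α g with hh
  let τ : Q × α.ker → Q × α.ker := fun i => (QuotientGroup.mk (h⁻¹ * ou i.1), i.2)
  have hτq : ∀ q : Q, (QuotientGroup.mk (ou (QuotientGroup.mk (h⁻¹ * ou q) : Q)) : Q)
      = QuotientGroup.mk (h⁻¹ * ou q) := fun q => hou _
  have hgτ : ∀ i, gg (τ i) = gI (h⁻¹ * ou i.1) i.2 := fun i => hgI_eq _ _ (hτq _) _
  have hord : ∀ i, orderOf (gg (τ i)) = orderOf (gg i) := by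
    intro i
    rw [hgτ, hgI_ord]
    exact (hgI_ord _ _).symm
  have hτs : Function.Surjective τ := by
    rintro ⟨q, n⟩
    refine ⟨(QuotientGroup.mk (h * ou q), n), ?_⟩
    apply Prod.ext
    · show (QuotientGroup.mk (h⁻¹ * ou (QuotientGroup.mk (h * ou q))) : Q) = q
      have h1 := hou (QuotientGroup.mk (h * ou q))
      conv_rhs => rw [← hou q]
      rw [QuotientGroup.eq] at h1 ⊢
      have h2 : (h⁻¹ * ou (QuotientGroup.mk (h * ou q)))⁻¹ * ou q
          = (ou (QuotientGroup.mk (h * ou q) : Q))⁻¹ * (h * ou q) := by group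
      rw [h2]
      exact h1
    · rfl
  refine act_formula hc hd hr hw gg ζ hζ hf hinj _ (ρ h : k →+* k) (χ h⁻¹) (eN α s hs g) τ hτs
    ?_ ?_ hord ?_ ?_
  · intro z; exact hSk h z
  · intro i
    show S h (S (ou (QuotientGroup.mk (h⁻¹ * ou i.1))) _) = S (ou i.1) _
    have h1 : S (ou (QuotientGroup.mk (h⁻¹ * ou i.1) : Q)) = S (h⁻¹ * ou i.1) :=
      hS_eq _ _ (hτq _)
    rw [h1]
    show (S h * S (h⁻¹ * ou i.1)) _ = _
    rw [← map_mul, mul_inv_cancel_left]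
  · intro i
    show (ρ h (z0 ^ (n0 / orderOf (gg (τ i))))) ^ χ h⁻¹ = z0 ^ (n0 / orderOf (gg i))
    rw [hord, map_pow, hχ, ← pow_mul, ← pow_mul]
    have h1 : χ h * (n0 / orderOf (gg i)) * χ h⁻¹ ≡ n0 / orderOf (gg i) [MOD n0] := by
      calc χ h * (n0 / orderOf (gg i)) * χ h⁻¹ = (χ h * χ h⁻¹) * (n0 / orderOf (gg i)) := by ring
        _ ≡ 1 * (n0 / orderOf (gg i)) [MOD n0] := (hχi h).mul_right _
        _ = n0 / orderOf (gg i) := one_mul _
    rw [mul_assoc] at h1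
    exact pow_eq_pow_of_modEq h1 hz0.pow_eq_one
  · intro i m l
    apply Subtype.ext
    show g⁻¹ * ((m : G) * ((gg i ^ l : α.ker) : G)) * s h
      = (g⁻¹ * m * s h) * ((gg (τ i) ^ (χ h⁻¹ * l) : α.ker) : G)
    have h1 : gg (τ i) ^ (χ h⁻¹ * l) = cj α s (h⁻¹ * ou i.1) i.2 ^ (χ (ou i.1)⁻¹ * l) := by
      rw [hgτ]
      show (cj α s (h⁻¹ * ou i.1) i.2 ^ χ (h⁻¹ * ou i.1)⁻¹) ^ (χ h⁻¹ * l) = _
      rw [← pow_mul]
      apply pow_of_modEq (hord0 _)
      rw [← mul_assoc]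
      apply Nat.ModEq.mul_right
      have h2 := hχm (h⁻¹ * ou i.1)⁻¹ h⁻¹
      have h3 : (h⁻¹ * ou i.1)⁻¹ * h⁻¹ = (ou i.1)⁻¹ := by group
      rw [h3] at h2
      exact h2
    have h4 : gg i ^ l = cj α s (ou i.1) i.2 ^ (χ (ou i.1)⁻¹ * l) := by
      show (cj α s (ou i.1) i.2 ^ χ (ou i.1)⁻¹) ^ l = _
      rw [← pow_mul]
    rw [h1, h4, cj_pow, cj_pow, map_mul, map_inv]
    group

end Pool.Agent.H47.Patch
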