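import Pool.Agent.H47.Hilb.Specialise

/-! Over a Hilbertian field `K`, a solution of an embedding problem over `K(X)` specialises. -/

set_option linter.unusedSectionVars false

namespace Pool.Agent.H47.Patch

open Polynomial Pool.Agent.H47.Hilb
open scoped Pointwise

lemma exists_sep_bound {R F : Type*} [CommRing R] [IsDomain R] [Field F] [Algebra R F]
    [IsFractionRing R F] (f : R[X]) (hf : (f.map (algebraMap R F)).Separable) :
    ∃ D : R, D ≠ 0 ∧ ∃ u v : R[X], u * f + v * derivative f = C D := by
  obtain ⟨u, v, huv⟩ := hf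
  obtain ⟨b, hb0, hb⟩ := IsLocalization.integerNormalization_spec (nonZeroDivisors R) u
  obtain ⟨c, hc0, hc⟩ := IsLocalization.integerNormalization_spec (nonZeroDivisors R) v
  set u1 := IsLocalization.integerNormalization (nonZeroDivisors R) u
  set v1 := IsLocalization.integerNormalization (nonZeroDivisors R) v
  refine ⟨b * c, mul_ne_zero (nonZeroDivisors.ne_zero hb0) (nonZeroDivisors.ne_zero hc0),
    C c * u1, C b * v1, ?_⟩
  apply Polynomial.map_injective _ (IsFractionRing.injective R F)
  simp only [Polynomial.map_add, Polynomial.map_mul, map_C, ← derivative_map, hb, hc, map_mul]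
  rw [derivative_map] at huv
  rw [Algebra.smul_def, Algebra.smul_def]
  have h1 : ∀ r : R, algebraMap R F[X] r = C (algebraMap R F r) := fun r => rfl
  rw [h1, h1]
  calc C (algebraMap R F c) * (C (algebraMap R F b) * u) * f.map (algebraMap R F) +
        C (algebraMap R F b) * (C (algebraMap R F c) * v) *
          (derivative (f.map (algebraMap R F)))
      = C (algebraMap R F b) * C (algebraMap R F c) * (u * f.map (algebraMap R F) +
          v * (derivative f).map (algebraMap R F)) := by rw [derivative_map]; ring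
    _ = _ := by rw [huv, mul_one]

theorem specialise_int {K : Type*} [Field K] (hK : IsHilb K) {E : Type*} [Field E]
    [Algebra K[X] E] [Algebra (FractionRing K[X]) E] [IsScalarTower K[X] (FractionRing K[X]) E]
    [FiniteDimensional (FractionRing K[X]) E] [Algebra.IsSeparable (FractionRing K[X]) E]
    (g : K[X]) (hg : g ≠ 0) :
    ∃ a : K, g.eval a ≠ 0 ∧ ∃ (Q : Ideal (integralClosure K[X] E)), Q.IsMaximal ∧
      Q.comap (algebraMap K[X] (integralClosure K[X] E)) = RingHom.ker (evalRingHom a) ∧
      ∃ θ : integralClosure K[X] E, ∃ f : K[X], f.Monic ∧ Irreducible f ∧ f.Separable ∧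
        f.natDegree = Module.finrank (FractionRing K[X]) E ∧
        Polynomial.eval₂ ((Ideal.Quotient.mk Q).comp
          ((algebraMap K[X] (integralClosure K[X] E)).comp C)) (Ideal.Quotient.mk Q θ) f = 0 := by
  set F := FractionRing K[X] with hF
  obtain ⟨α, hα⟩ := Field.exists_primitive_element F E
  have hαalg : IsAlgebraic K[X] α :=
    (IsFractionRing.isAlgebraic_iff K[X] F E).2 (Algebra.IsAlgebraic.isAlgebraic α)
  obtain ⟨d, hd, hdα⟩ := hαalg.exists_integral_multiple
  set B := integralClosure K[X] E with hB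
  let θ : B := ⟨d • α, hdα⟩
  have hBint : Algebra.IsIntegral K[X] B := inferInstance
  have hθint : IsIntegral K[X] (θ : E) := hdα
  set f : K[X][X] := minpoly K[X] (θ : E) with hf
  have hfm : f.Monic := minpoly.monic hθint
  have hdF : algebraMap K[X] F d ≠ 0 :=
    (map_ne_zero_iff _ (IsFractionRing.injective K[X] F)).2 hd
  have hinj : Function.Injective (algebraMap K[X] E) := by
    rw [IsScalarTower.algebraMap_eq K[X] F E]
    exact (algebraMap F E).injective.comp (IsFractionRing.injective K[X] F)
  have hirr : Irreducible f := minpoly.irreducible hθint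
  have hmap : minpoly F (θ : E) = f.map (algebraMap K[X] F) :=
    minpoly.isIntegrallyClosed_eq_field_fractions' F hθint
  have htop : IntermediateField.adjoin F {(θ : E)} = ⊤ := by
    rw [eq_top_iff, ← hα, IntermediateField.adjoin_simple_le_iff]
    have h1 : α = algebraMap F E (algebraMap K[X] F d)⁻¹ * (θ : E) := by
      show α = algebraMap F E (algebraMap K[X] F d)⁻¹ * (d • α)
      rw [Algebra.smul_def, IsScalarTower.algebraMap_apply K[X] F E, ← mul_assoc, ← map_mul,
        inv_mul_cancel₀ hdF, map_one, one_mul]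
    rw [h1]
    exact mul_mem (IntermediateField.algebraMap_mem _ _)
      (IntermediateField.mem_adjoin_simple_self F _)
  have hdeg : f.natDegree = Module.finrank F E := by
    have h2 := IntermediateField.adjoin.finrank (K := F) (x := (θ : E))
      (Algebra.IsIntegral.isIntegral (θ : E))
    rw [htop, IntermediateField.finrank_top'] at h2
    rw [h2, hmap, hfm.natDegree_map]
  have hfsep : (f.map (algebraMap K[X] F)).Separable := by
    rw [← hmap]
    exact Algebra.IsSeparable.isSeparable F (θ : E)
  obtain ⟨D, hD, u, v, huv⟩ := exists_sep_bound (F := F) f hfsep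
  obtain ⟨a, hga, hirra⟩ := hK f hfm hirr hfsep (g * D) (mul_ne_zero hg hD)
  rw [eval_mul] at hga
  have hga1 := left_ne_zero_of_mul hga
  have hga2 := right_ne_zero_of_mul hga
  refine ⟨a, hga1, ?_⟩
  set P : Ideal K[X] := RingHom.ker (evalRingHom a) with hP
  have hPmax : P.IsMaximal := by
    apply RingHom.ker_isMaximal_of_surjective
    intro c
    exact ⟨C c, by simp⟩
  have hinjB : Function.Injective (algebraMap K[X] B) := by
    intro u v huv
    apply hinj
    exact congrArg (fun z : B => (z : E)) huv
  obtain ⟨Q, hQmax, hQ⟩ := Ideal.exists_ideal_over_maximal_of_isIntegral (S := B) P (by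
    rw [(RingHom.injective_iff_ker_eq_bot _).1 hinjB]
    exact bot_le)
  refine ⟨Q, hQmax, hQ, θ, f.map (evalRingHom a), hfm.map _, hirra, ?_, ?_, ?_⟩
  · refine ⟨C (D.eval a)⁻¹ * u.map (evalRingHom a), C (D.eval a)⁻¹ * v.map (evalRingHom a), ?_⟩
    have h1 := congrArg (fun q => q.map (evalRingHom a)) huv
    simp only [Polynomial.map_add, Polynomial.map_mul, map_C, coe_evalRingHom] at h1
    rw [derivative_map, mul_assoc, mul_assoc, ← mul_add, h1, ← C_mul, inv_mul_cancel₀ hga2, C_1]
  · rw [hfm.natDegree_map, hdeg]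
  · rw [eval₂_map]
    have hcomp : ((Ideal.Quotient.mk Q).comp ((algebraMap K[X] B).comp C)).comp (evalRingHom a)
        = (Ideal.Quotient.mk Q).comp (algebraMap K[X] B) := by
      ext q
      · simp
      · simp only [RingHom.coe_comp, Function.comp_apply, coe_evalRingHom, eval_X]
        rw [Ideal.Quotient.eq, ← map_sub]
        have : (C a - X : K[X]) ∈ Q.comap (algebraMap K[X] B) := by
          rw [hQ, hP, RingHom.mem_ker]; simp
        exact this
    rw [hcomp]
    have h0 : eval₂ (algebraMap K[X] B) θ f = 0 := by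
      have h1 : aeval (θ : E) f = 0 := minpoly.aeval _ _
      apply Subtype.ext
      have h2 : ((eval₂ (algebraMap K[X] B) θ f : B) : E) = eval₂ (algebraMap K[X] E) (θ : E) f := by
        exact Polynomial.hom_eval₂ f (algebraMap K[X] B) (algebraMap B E) θ
      rw [h2]
      exact h1
    have := Polynomial.hom_eval₂ f (algebraMap K[X] B) (Ideal.Quotient.mk Q) θ
    rw [h0, map_zero] at this
    exact this.symm

theorem hilb_red {K F1 : Type} [Field K] (hK : IsHilb K) [Field F1] [Algebra K F1]
    [FiniteDimensional K F1] [IsGalois K F1] {G : Type} [Group G] [Finite G]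
    (α : G →* (F1 ≃ₐ[K] F1)) {E : Type} [Field E]
    [Algebra K[X] E] [Algebra (FractionRing K[X]) E] [IsScalarTower K[X] (FractionRing K[X]) E]
    (act : G →* (E ≃ₐ[FractionRing K[X]] E)) (hinj : Function.Injective act)
    (hdeg : Module.finrank (FractionRing K[X]) E = Nat.card G)
    (j : F1 →+* E) (hj : ∀ z : K, j (algebraMap K F1 z) = algebraMap K[X] E (C z))
    (hact : ∀ g z, act g (j z) = j (α g z)) :
    ∃ (F : Type) (_ : Field F) (_ : Algebra K F) (_ : Algebra F1 F)
      (_ : IsScalarTower K F1 F),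
      FiniteDimensional K F ∧ IsGalois K F ∧
      ∃ γ : (F ≃ₐ[K] F) ≃* G, ∀ σ : F ≃ₐ[K] F, α (γ σ) = σ.restrictNormal F1 := by
  classical
  have hcardpos : 0 < Nat.card G := Nat.card_pos
  have hfd : FiniteDimensional (FractionRing K[X]) E :=
    Module.finite_of_finrank_pos (by rw [hdeg]; exact hcardpos)
  have hcard1 : Nat.card (E ≃ₐ[FractionRing K[X]] E) ≤ Module.finrank (FractionRing K[X]) E := by
    rw [Nat.card_eq_fintype_card]; exact AlgEquiv.card_le
  have hcard2 : Nat.card G ≤ Nat.card (E ≃ₐ[FractionRing K[X]] E) :=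
    Nat.card_le_card_of_injective _ hinj
  have hcard : Nat.card (E ≃ₐ[FractionRing K[X]] E) = Module.finrank (FractionRing K[X]) E := by
    omega
  have hgal : IsGalois (FractionRing K[X]) E := IsGalois.of_card_aut_eq_finrank _ E hcard
  have hbij : Function.Bijective act :=
    (Nat.bijective_iff_injective_and_card _).2 ⟨hinj, by omega⟩
  obtain ⟨a, _, Q, hQmax, hQ, θ, f, hfm, hfi, hfs, hfdeg, hfroot⟩ :=
    specialise_int hK (E := E) 1 one_ne_zero
  let B := integralClosure K[X] E
  let P : Ideal K[X] := RingHom.ker (evalRingHom a)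
  have hPmax : P.IsMaximal := by
    apply RingHom.ker_isMaximal_of_surjective
    intro c
    exact ⟨C c, by simp⟩
  have hfrac : IsFractionRing B E :=
    integralClosure.isFractionRing_of_finite_extension (FractionRing K[X]) E
  let _ : MulSemiringAction (E ≃ₐ[FractionRing K[X]] E) B :=
    IsIntegralClosure.MulSemiringAction K[X] (FractionRing K[X]) E B
  have hinv : Algebra.IsInvariant K[X] B (E ≃ₐ[FractionRing K[X]] E) :=
    Algebra.isInvariant_of_isGalois K[X] (FractionRing K[X]) E B
  have hsmul : ∀ (σ : E ≃ₐ[FractionRing K[X]] E) (b : B), ((σ • b : B) : E) = σ (b : E) := by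
    intro σ b
    exact algebraMap_galRestrictHom_apply K[X] (FractionRing K[X]) E B σ b
  have hcomm : SMulCommClass (E ≃ₐ[FractionRing K[X]] E) K[X] B := by
    constructor
    intro σ q b
    apply Subtype.ext
    rw [hsmul]
    show σ (q • (b : E)) = q • ((σ • b : B) : E)
    rw [hsmul, Algebra.smul_def, Algebra.smul_def, map_mul,
      IsScalarTower.algebraMap_apply K[X] (FractionRing K[X]) E, σ.commutes]
  have hover : Q.LiesOver P := ⟨hQ.symm⟩
  let M := B ⧸ Q
  let _ : Field M := Ideal.Quotient.field Q
  let πB : B →+* M := Ideal.Quotient.mk Q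
  let _ : Algebra K M := (πB.comp ((algebraMap K[X] B).comp C)).toAlgebra
  let ePK : (K[X] ⧸ P) →+* K := Ideal.Quotient.lift P (evalRingHom a) (fun q hq => hq)
  let _ : Algebra (K[X] ⧸ P) K := ePK.toAlgebra
  have hePK : Function.Bijective (algebraMap (K[X] ⧸ P) K) := by
    constructor
    · rw [injective_iff_map_eq_zero]
      intro x hx
      obtain ⟨q, rfl⟩ := Ideal.Quotient.mk_surjective x
      rw [Ideal.Quotient.eq_zero_iff_mem]
      exact hx
    · intro c
      refine ⟨Ideal.Quotient.mk P (C c), ?_⟩
      show ePK (Ideal.Quotient.mk P (C c)) = c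
      simp [ePK]
  have hfracP : IsFractionRing (K[X] ⧸ P) K := by
    let _ : Field (K[X] ⧸ P) := Ideal.Quotient.field P
    exact IsLocalization.isLocalization_of_algEquiv (nonZeroDivisors (K[X] ⧸ P))
      (AlgEquiv.ofBijective (Algebra.ofId (K[X] ⧸ P) K) hePK)
  have hfracM : IsFractionRing (B ⧸ Q) M := by
    show IsFractionRing M M
    infer_instance
  have hKM : ∀ c : K, algebraMap K M c = πB (algebraMap K[X] B (C c)) := fun _ => rfl
  have hPQ : ∀ q : K[X], πB (algebraMap K[X] B q) = algebraMap K M (q.eval a) := by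
    intro q
    rw [hKM, ← sub_eq_zero, ← map_sub, ← map_sub]
    apply Ideal.Quotient.eq_zero_iff_mem.2
    have h1 : q - C (q.eval a) ∈ P := by
      rw [RingHom.mem_ker]; simp
    rw [← Ideal.mem_comap, hQ]
    exact h1
  have htow : IsScalarTower (K[X] ⧸ P) K M := by
    apply IsScalarTower.of_algebraMap_eq
    intro x
    obtain ⟨q, rfl⟩ := Ideal.Quotient.mk_surjective x
    have h1 : algebraMap (K[X] ⧸ P) K (Ideal.Quotient.mk P q) = q.eval a := by
      show ePK (Ideal.Quotient.mk P q) = _
      simp [ePK]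
    rw [h1, ← hPQ]
    rfl
  have hnormal : Normal K M :=
    Ideal.IsFractionRing.normal (E ≃ₐ[FractionRing K[X]] E) P Q K M
  let st := MulAction.stabilizer (E ≃ₐ[FractionRing K[X]] E) Q
  let ψ0 : st →* (M ≃ₐ[K] M) :=
    IsFractionRing.stabilizerHom (E ≃ₐ[FractionRing K[X]] E) P Q K M
  have hψ0 : Function.Surjective ψ0 :=
    IsFractionRing.stabilizerHom_surjective (E ≃ₐ[FractionRing K[X]] E) P Q K M
  have hψ0a : ∀ (σ : st) (x : B), ψ0 σ (πB x) = πB (σ.1 • x) := by
    intro σ x
    exact IsFractionRing.stabilizerHom_apply_apply_mk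
      (E ≃ₐ[FractionRing K[X]] E) P Q K M σ x
  let S := separableClosure K M
  have hSgal : IsGalois K S := inferInstance
  have hSnormal : Normal K S := inferInstance
  let ψ : st →* (S ≃ₐ[K] S) := (AlgEquiv.restrictNormalHom S).comp ψ0
  have hψ : Function.Surjective ψ :=
    (AlgEquiv.restrictNormalHom_surjective M).comp hψ0
  have hfinS : Finite (S ≃ₐ[K] S) := Finite.of_surjective _ hψ
  have hSfd : FiniteDimensional K S := IsGalois.finiteDimensional_of_finite K S
  have hcardS : Nat.card (S ≃ₐ[K] S) = Module.finrank K S := IsGalois.card_aut_eq_finrank K S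
  -- the root
  have hroot : aeval (πB θ) f = 0 := hfroot
  have hmin : minpoly K (πB θ) = f := (minpoly.eq_of_irreducible_of_monic hfi hroot hfm).symm
  have hθS : πB θ ∈ S := by
    rw [mem_separableClosure_iff]
    show (minpoly K (πB θ)).Separable
    rw [hmin]; exact hfs
  have hnle : Module.finrank (FractionRing K[X]) E ≤ Module.finrank K S := by
    have h1 := minpoly.natDegree_le (A := K) (⟨πB θ, hθS⟩ : S)
    have h2 : minpoly K (⟨πB θ, hθS⟩ : S) = minpoly K (πB θ) :=
      (minpoly.algebraMap_eq (algebraMap S M).injective (⟨πB θ, hθS⟩ : S)).symm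
    rw [h2, hmin, hfdeg] at h1
    exact h1
  have hstle : Nat.card st ≤ Nat.card (E ≃ₐ[FractionRing K[X]] E) :=
    Nat.card_le_card_of_injective _ Subtype.val_injective
  have hSle : Nat.card (S ≃ₐ[K] S) ≤ Nat.card st := Nat.card_le_card_of_surjective _ hψ
  have hstcard : Nat.card st = Nat.card (E ≃ₐ[FractionRing K[X]] E) := by omega
  have hstop : ∀ σ : E ≃ₐ[FractionRing K[X]] E, σ ∈ st := by
    have h1 : st = ⊤ := Subgroup.eq_top_of_card_eq _ hstcard
    intro σ
    rw [h1]; trivial
  have hψbij : Function.Bijective ψ :=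
    (Nat.bijective_iff_surjective_and_card _).2 ⟨hψ, by omega⟩
  let Γ : G →* (S ≃ₐ[K] S) := MonoidHom.mk' (fun g => ψ ⟨act g, hstop _⟩) (by
    intro g h
    rw [← map_mul]
    congr 1
    apply Subtype.ext
    exact map_mul act g h)
  have hΓ : Function.Bijective Γ := by
    constructor
    · intro g h hgh
      have := hψbij.1 hgh
      exact hinj (congrArg Subtype.val this)
    · intro τ
      obtain ⟨⟨σ, hσ⟩, rfl⟩ := hψ τ
      obtain ⟨g, rfl⟩ := hbij.2 σ
      exact ⟨g, rfl⟩
  have hjint : ∀ z : F1, IsIntegral K[X] (j z) := by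
    intro z
    obtain ⟨q, hqm, hq⟩ := (Algebra.IsIntegral.isIntegral z : IsIntegral K z)
    refine ⟨q.map C, hqm.map _, ?_⟩
    rw [eval₂_map]
    have h1 : (algebraMap K[X] E).comp C = j.comp (algebraMap K F1) := by
      ext w
      exact (hj w).symm
    rw [h1]
    have h2 := Polynomial.hom_eval₂ q (algebraMap K F1) j z
    rw [hq, map_zero] at h2
    exact h2.symm
  let jB : F1 →+* B :=
    { toFun := fun z => ⟨j z, hjint z⟩
      map_one' := by apply Subtype.ext; exact map_one j
      map_mul' := fun y z => by apply Subtype.ext; exact map_mul j y z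
      map_zero' := by apply Subtype.ext; exact map_zero j
      map_add' := fun y z => by apply Subtype.ext; exact map_add j y z }
  have hjBK : ∀ c : K, πB (jB (algebraMap K F1 c)) = algebraMap K M c := by
    intro c
    rw [hKM]
    congr 1
    apply Subtype.ext
    exact hj c
  let jM : F1 →ₐ[K] M := { πB.comp jB with commutes' := hjBK }
  have hjS : ∀ z, jM z ∈ S := by
    intro z
    rw [mem_separableClosure_iff]
    have h1 : IsSeparable K z := Algebra.IsSeparable.isSeparable K z
    unfold IsSeparable at h1 ⊢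
    rwa [minpoly.algHom_eq jM jM.toRingHom.injective]
  let jS : F1 →ₐ[K] S := jM.codRestrict S.toSubalgebra hjS
  let _ : Algebra F1 S := jS.toRingHom.toAlgebra
  have htow1 : IsScalarTower K F1 S := by
    apply IsScalarTower.of_algebraMap_eq
    intro c
    exact (jS.commutes c).symm
  refine ⟨S, inferInstance, inferInstance, inferInstance, htow1, hSfd, hSgal,
    (MulEquiv.ofBijective Γ hΓ).symm, ?_⟩
  intro σ
  obtain ⟨g, rfl⟩ := hΓ.2 σ
  have h1 : (MulEquiv.ofBijective Γ hΓ).symm (Γ g) = g :=
    (MulEquiv.ofBijective Γ hΓ).symm_apply_apply g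
  rw [h1]
  apply AlgEquiv.ext
  intro z
  apply (algebraMap F1 S).injective
  rw [AlgEquiv.restrictNormal_commutes]
  apply Subtype.ext
  show jM (α g z) = _
  have h2 : ((Γ g (algebraMap F1 S z) : S) : M) = ψ0 ⟨act g, hstop _⟩ (jM z) := by
    exact AlgEquiv.restrictNormal_commutes (ψ0 ⟨act g, hstop _⟩) S (algebraMap F1 S z)
  rw [h2]
  show πB (jB (α g z)) = ψ0 ⟨act g, hstop _⟩ (πB (jB z))
  rw [hψ0a]
  congr 1
  apply Subtype.ext
  rw [hsmul]
  exact (hact g z).symm

end Pool.Agent.H47.Patch
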